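import Mathlib

/-! Bi-Lipschitz bijections of the Hamming cube and the probability `p_n(C)`. -/

namespace Pool.Agent.P.MP_38a0b7_co

/-- `φ` and its inverse are `C`-Lipschitz for the Hamming distance on `{0,1}^n`. -/
def BiLip {n : ℕ} (C : ℝ) (φ : (Fin n → ZMod 2) ≃ (Fin n → ZMod 2)) : Prop :=
  (∀ x y, (hammingDist (φ x) (φ y) : ℝ) ≤ C * hammingDist x y) ∧
    ∀ x y, (hammingDist (φ.symm x) (φ.symm y) : ℝ) ≤ C * hammingDist x y

/-- Ordered pairs of subsets of `{0,1}^n`, both of size `2^(n-1)`. -/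
def halfPairs (n : ℕ) : Set (Set (Fin n → ZMod 2) × Set (Fin n → ZMod 2)) :=
  {P | P.1.ncard = 2 ^ (n - 1) ∧ P.2.ncard = 2 ^ (n - 1)}

/-- The proportion of such pairs `(A, B)` for which some `C`-bi-Lipschitz bijection of the cube
maps `A` onto `B`. -/
noncomputable def prob (n : ℕ) (C : ℝ) : ℝ :=
  ({P ∈ halfPairs n | ∃ φ, BiLip C φ ∧ φ '' P.1 = P.2}.ncard : ℝ) / (halfPairs n).ncard

end Pool.Agent.P.MP_38a0b7_co
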