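import Pool.Agent.P.MP_38a0b7_co.Cube
import Pool.Agent.P.MP_38a0b7_co.Defs

/-! From the statement-level definitions to finite sets; the cube inside the next cube. -/

set_option linter.unusedSectionVars false

namespace Pool.Agent.P.MP_38a0b7_co

open Finset

lemma hammingDist_eq {ι : Type*} [Fintype ι] [DecidableEq ι] (x y : W ι) :
    hammingDist x y = (supp (x + y)).card := by
  unfold hammingDist supp
  congr 1
  refine filter_congr fun i _ => ?_
  simp only [Pi.add_apply]
  generalize x i = a; generalize y i = b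
  revert a b; decide

/-- half-size subsets as finsets -/
def hs (n : ℕ) : Finset (Finset (W (Fin n))) := powersetCard (2 ^ (n - 1)) univ

lemma mem_hs {n : ℕ} {A : Finset (W (Fin n))} : A ∈ hs n ↔ A.card = 2 ^ (n - 1) := by
  simp [hs]

lemma card_hs (n : ℕ) : (hs n).card = (2 ^ n).choose (2 ^ (n - 1)) := by
  simp [hs, ZMod.card]

lemma ncard_pairs (n : ℕ) (q : Set (W (Fin n)) × Set (W (Fin n)) → Prop)
    [DecidablePred fun P : Finset (W (Fin n)) × Finset (W (Fin n)) => q (P.1, P.2)] :
    {P ∈ halfPairs n | q P}.ncard = ((hs n ×ˢ hs n).filter (fun P => q (P.1, P.2))).card := by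
  rw [← Set.ncard_coe_finset]
  symm
  apply Set.ncard_congr (fun P _ => ((P.1 : Set _), (P.2 : Set _)))
  · intro P hP
    simp only [coe_filter, mem_product, mem_hs, Set.mem_ofPred_eq] at hP
    exact ⟨⟨by simpa using hP.1.1, by simpa using hP.1.2⟩, hP.2⟩
  · intro P Q _ _ h
    simp only [Prod.mk.injEq, coe_inj] at h
    exact Prod.ext h.1 h.2
  · intro P hP
    classical
    refine ⟨(P.1.toFinset, P.2.toFinset), ?_, by simp⟩
    simp only [coe_filter, mem_product, mem_hs, Set.mem_ofPred_eq, Set.coe_toFinset]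
    exact ⟨⟨by rw [← Set.ncard_eq_toFinset_card']; exact hP.1.1,
      by rw [← Set.ncard_eq_toFinset_card']; exact hP.1.2⟩, hP.2⟩

lemma ncard_halfPairs (n : ℕ) : (halfPairs n).ncard = (hs n).card ^ 2 := by
  have := ncard_pairs n (fun _ => True)
  simpa [pow_two] using this

lemma hs_pos (n : ℕ) : 0 < (hs n).card := by
  rw [card_hs]; exact Nat.choose_pos (Nat.pow_le_pow_right (by norm_num) (by omega))

lemma card_hs_mid {n : ℕ} (hn : 1 ≤ n) : ((hs n).card : ℝ) = mid (2 ^ n) * 2 ^ (2 ^ n) := by
  have : 2 ^ n / 2 = 2 ^ (n - 1) := by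
    obtain ⟨k, rfl⟩ := Nat.exists_eq_add_of_le' hn
    rw [pow_succ]; simp
  rw [card_hs, mid, this]; field_simp

open Classical in
lemma prob_eq (n : ℕ) (C : ℝ) : prob n C = (((hs n ×ˢ hs n).filter
    (fun P => ∃ φ : W (Fin n) ≃ W (Fin n),
      BiLip C φ ∧ φ '' (P.1 : Set _) = (P.2 : Set _))).card : ℝ) / (hs n).card ^ 2 := by
  rw [prob, ncard_halfPairs, ncard_pairs n (fun P => ∃ φ, BiLip C φ ∧ φ '' P.1 = P.2)]
  push_cast; rfl

/-- embedding of the cube as a parity class of the next cube -/
def emb {n : ℕ} (b : ZMod 2) (x : W (Fin n)) : W (Option (Fin n)) :=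
  fun o => o.elim (b + par x) x

/-- forgetting the extra coordinate -/
def prj {n : ℕ} (w : W (Option (Fin n))) : W (Fin n) := fun i => w (some i)

@[simp] lemma prj_emb {n : ℕ} (b : ZMod 2) (x : W (Fin n)) : prj (emb b x) = x := rfl

lemma par_eq {n : ℕ} (w : W (Option (Fin n))) : par w = w none + par (prj w) := by
  simp [par, prj, Fintype.sum_option]

@[simp] lemma par_emb {n : ℕ} (b : ZMod 2) (x : W (Fin n)) : par (emb b x) = b := by
  rw [par_eq, prj_emb]
  change b + par x + par x = b
  rw [add_assoc, z2_add_self, add_zero]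

lemma emb_prj {n : ℕ} (w : W (Option (Fin n))) : emb (par w) (prj w) = w := by
  funext o
  cases o with
  | none =>
    change par w + par (prj w) = w none
    rw [par_eq w, add_assoc, z2_add_self, add_zero]
  | some i => rfl

lemma prj_add {n : ℕ} (v w : W (Option (Fin n))) : prj (v + w) = prj v + prj w := rfl

lemma eq_of_prj {n : ℕ} {v w : W (Option (Fin n))} (h : prj v = prj w) (h' : par v = par w) :
    v = w := by
  rw [← emb_prj v, ← emb_prj w, h, h']

lemma card_supp_prj {n : ℕ} (w : W (Option (Fin n))) : (supp (prj w)).card ≤ (supp w).card := by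
  apply card_le_card_of_injOn some
  · intro i hi; simpa [prj] using hi
  · exact (Option.some_injective _).injOn

lemma card_supp_le_prj {n : ℕ} (w : W (Option (Fin n))) :
    (supp w).card ≤ (supp (prj w)).card + 1 := by
  have : supp w ⊆ insert none ((supp (prj w)).image some) := by
    intro o ho
    cases o with
    | none => simp
    | some i => simpa [prj] using ho
  exact (card_le_card this).trans ((card_insert_le _ _).trans (by
    have := card_image_le (s := supp (prj w)) (f := some); omega))

lemma exists_classes (ι G : Type*) [Fintype ι] [Fintype G] [DecidableEq G] [Nonempty G] :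
    ∃ g : ι → G, ∀ γ, Fintype.card ι / Fintype.card G ≤ (univ.filter (fun i => g i = γ)).card ∧
      (univ.filter (fun i => g i = γ)).card ≤ Fintype.card ι / Fintype.card G + 1 := by
  have hG : 0 < Fintype.card G := Fintype.card_pos
  refine ⟨fun i => (Fintype.equivFin G).symm
    ⟨(Fintype.equivFin ι i : ℕ) % Fintype.card G, Nat.mod_lt _ hG⟩, fun γ => ?_⟩
  have : (univ.filter (fun i => (Fintype.equivFin G).symm
      ⟨(Fintype.equivFin ι i : ℕ) % Fintype.card G, Nat.mod_lt _ hG⟩ = γ)).card
      = Nat.count (· ≡ (Fintype.equivFin G γ : ℕ) [MOD Fintype.card G]) (Fintype.card ι) := by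
    rw [Nat.count_eq_card_filter_range]
    apply card_bij (fun i _ => (Fintype.equivFin ι i : ℕ))
    · intro i hi
      simp only [mem_filter, mem_univ, true_and, Equiv.symm_apply_eq] at hi
      simp only [mem_filter, mem_range, Fin.is_lt, true_and, ← hi, Nat.ModEq, Nat.mod_mod]
    · intro i _ j _ h
      exact (Fintype.equivFin ι).injective (Fin.ext h)
    · intro k hk
      simp only [mem_filter, mem_range] at hk
      refine ⟨(Fintype.equivFin ι).symm ⟨k, hk.1⟩, ?_, by simp⟩
      simp only [mem_filter, mem_univ, true_and, Equiv.symm_apply_eq, Equiv.apply_symm_apply]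
      apply Fin.ext
      have := hk.2
      rw [Nat.ModEq, Nat.mod_eq_of_lt (Fin.is_lt _)] at this
      exact this
  rw [this, Nat.count_modEq_card _ hG]
  split_ifs <;> omega

lemma tend_poly (C : ℝ) (a : ℕ) {θ : ℝ} (h0 : 0 < θ) (h1 : θ < 1) :
    Filter.Tendsto (fun n : ℕ => C * ((n : ℝ) + 2) ^ a * θ ^ n) Filter.atTop (nhds 0) := by
  have h := (tendsto_pow_const_mul_const_pow_of_abs_lt_one a
    (r := θ) (by rwa [abs_of_pos h0])).comp (Filter.tendsto_add_atTop_nat 2)
  have h2 := h.const_mul (C / θ ^ 2)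
  rw [mul_zero] at h2
  refine h2.congr fun n => ?_
  simp only [Function.comp]
  push_cast
  field_simp
  ring

end Pool.Agent.P.MP_38a0b7_co
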