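import Pool.Agent.P.MP_38a0b7_co.Transfer

/-! Basic geometry of the discrete cube. -/

set_option linter.unusedSectionVars false

namespace Pool.Agent.P.MP_38a0b7_co

open Finset

variable {ι : Type*} [Fintype ι] [DecidableEq ι]

/-- the cube -/
abbrev W (ι : Type*) := ι → ZMod 2

/-- basis vector -/
def e (i : ι) : W ι := Pi.single i 1

/-- support -/
def supp (v : W ι) : Finset ι := univ.filter (fun i => v i ≠ 0)

/-- indicator vector -/
def vec (T : Finset ι) : W ι := fun i => if i ∈ T then 1 else 0

/-- parity -/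
def par (v : W ι) : ZMod 2 := ∑ i, v i

lemma z2_cases (a : ZMod 2) : a = 0 ∨ a = 1 := by revert a; decide
lemma z2_ne (a : ZMod 2) : a ≠ 0 ↔ a = 1 := by revert a; decide
lemma z2_add_self (a : ZMod 2) : a + a = 0 := by revert a; decide

@[simp] lemma add_self' (x : W ι) : x + x = 0 := by
  funext i; exact z2_add_self _

@[simp] lemma add_add_cancel (x v : W ι) : x + v + v = x := by
  rw [add_assoc, add_self', add_zero]

@[simp] lemma add_add_cancel_left (x v : W ι) : x + (x + v) = v := by
  rw [← add_assoc, add_self', zero_add]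

lemma add_eq_zero_iff' {x y : W ι} : x + y = 0 ↔ x = y := by
  constructor
  · intro h; rw [← add_add_cancel x y, h, zero_add]
  · rintro rfl; simp

lemma card_W : Fintype.card (W ι) = 2 ^ Fintype.card ι := by
  simp [W, ZMod.card]

@[simp] lemma mem_supp {v : W ι} {i : ι} : i ∈ supp v ↔ v i ≠ 0 := by simp [supp]

lemma e_apply (i j : ι) : (e i : W ι) j = if j = i then 1 else 0 := by
  simp [e, Pi.single_apply]

@[simp] lemma supp_e (i : ι) : supp (e i : W ι) = {i} := by
  ext j; by_cases h : j = i <;> simp [e_apply, h]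

@[simp] lemma supp_zero : supp (0 : W ι) = ∅ := by ext; simp

lemma e_inj {i j : ι} (h : (e i : W ι) = e j) : i = j := by
  have := congrArg supp h
  simpa using this

lemma e_ne_zero (i : ι) : (e i : W ι) ≠ 0 := by
  intro h; have := congrArg supp h; simp at this

lemma supp_add (v w : W ι) : supp (v + w) = symmDiff (supp v) (supp w) := by
  ext i
  rw [mem_symmDiff]
  simp only [mem_supp, Pi.add_apply]
  generalize v i = a; generalize w i = b
  revert a b; decide

lemma supp_add_subset (v w : W ι) : supp (v + w) ⊆ supp v ∪ supp w := by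
  rw [supp_add]; exact symmDiff_subset_union

lemma card_supp_add (v w : W ι) : (supp (v + w)).card ≤ (supp v).card + (supp w).card :=
  (card_le_card (supp_add_subset v w)).trans (card_union_le _ _)

@[simp] lemma supp_vec (T : Finset ι) : supp (vec T) = T := by
  ext i; by_cases h : i ∈ T <;> simp [vec, h]

@[simp] lemma vec_supp (v : W ι) : vec (supp v) = v := by
  funext i
  rcases z2_cases (v i) with h | h <;> simp [vec, h]

lemma supp_inj : Function.Injective (supp : W ι → Finset ι) :=
  Function.LeftInverse.injective vec_supp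

@[simp] lemma vec_empty : vec (∅ : Finset ι) = 0 := by funext i; simp [vec]

lemma vec_insert {i : ι} {T : Finset ι} (h : i ∉ T) : vec (insert i T) = vec T + e i := by
  funext j
  by_cases hj : j = i
  · subst hj; simp [vec, e_apply, h]
  · simp [vec, e_apply, hj]

lemma supp_e_add_e {i j : ι} (h : i ≠ j) : supp (e i + e j : W ι) = {i, j} := by
  ext k
  by_cases h1 : k = i
  · subst h1; simp [e_apply, h]
  · by_cases h2 : k = j
    · subst h2; simp [e_apply, h1]
    · simp [e_apply, h1, h2]

lemma par_add (v w : W ι) : par (v + w) = par v + par w := by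
  simp [par, sum_add_distrib]

@[simp] lemma par_e (i : ι) : par (e i : W ι) = 1 := by
  simp [par, e_apply]

lemma par_add_e (v : W ι) (i : ι) : par (v + e i) = par v + 1 := by rw [par_add, par_e]

/-- Hamming ball -/
def ball (x : W ι) (r : ℕ) : Finset (W ι) := univ.filter (fun y => (supp (x + y)).card ≤ r)

lemma mem_ball {x y : W ι} {r : ℕ} : y ∈ ball x r ↔ (supp (x + y)).card ≤ r := by simp [ball]

lemma card_ball (x : W ι) (r : ℕ) : (ball x r).card ≤ (Fintype.card ι + 1) ^ r := by
  refine le_trans ?_ (card_small_subsets (univ : Finset ι) r)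
  apply card_le_card_of_injOn (fun y => supp (x + y))
  · intro y hy
    simpa using mem_ball.1 hy
  · intro y _ z _ h
    exact add_left_cancel (supp_inj h)

lemma mem_ball_trans {x y z : W ι} {r s : ℕ} (h1 : y ∈ ball x r) (h2 : z ∈ ball y s) :
    z ∈ ball x (r + s) := by
  rw [mem_ball] at *
  have : x + z = (x + y) + (y + z) := by rw [add_assoc, add_add_cancel_left]
  rw [this]
  exact (card_supp_add _ _).trans (by omega)

lemma mem_ball_symm {x y : W ι} {r : ℕ} (h : y ∈ ball x r) : x ∈ ball y r := by
  rw [mem_ball] at *; rwa [add_comm]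

lemma mem_ball_self (x : W ι) (r : ℕ) : x ∈ ball x r := by simp [mem_ball]

lemma mem_ball_mono {x y : W ι} {r s : ℕ} (h : y ∈ ball x r) (hrs : r ≤ s) : y ∈ ball x s := by
  rw [mem_ball] at *; omega

lemma add_mem_ball (x : W ι) {v : W ι} {r : ℕ} (h : (supp v).card ≤ r) : x + v ∈ ball x r := by
  rw [mem_ball]; simpa using h

lemma add_e_mem_ball (x : W ι) (i : ι) : x + e i ∈ ball x 1 := add_mem_ball x (by simp)

/-- neighbours in the directions `D` -/
def nb (x : W ι) (D : Finset ι) : Finset (W ι) := D.image (fun i => x + e i)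

lemma mem_nb {x y : W ι} {D : Finset ι} : y ∈ nb x D ↔ ∃ i ∈ D, x + e i = y := by simp [nb]

lemma add_e_injective (x : W ι) : Function.Injective (fun i : ι => x + e i) :=
  fun _ _ h => e_inj (add_left_cancel h)

lemma card_nb (x : W ι) (D : Finset ι) : (nb x D).card = D.card :=
  card_image_of_injective _ (add_e_injective x)

lemma mem_nb_symm {x y : W ι} {D : Finset ι} (h : y ∈ nb x D) : x ∈ nb y D := by
  obtain ⟨i, hi, rfl⟩ := mem_nb.1 h
  exact mem_nb.2 ⟨i, hi, by simp⟩

lemma card_filter_nb (x : W ι) (D : Finset ι) (p : W ι → Prop) [DecidablePred p] :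
    ((nb x D).filter p).card = (D.filter (fun i => p (x + e i))).card := by
  rw [nb, filter_image, card_image_of_injective _ (add_e_injective x)]

/-- two distinct vertices have at most two common neighbours -/
lemma codeg {x y : W ι} (h : x ≠ y) : (nb x univ ∩ nb y univ).card ≤ 2 := by
  have key : ∀ z ∈ nb x univ ∩ nb y univ,
      (supp (x + y)).card ≤ 2 ∧ z ∈ nb x (supp (x + y)) := by
    intro z hz
    rw [mem_inter, mem_nb, mem_nb] at hz
    obtain ⟨⟨i, -, rfl⟩, ⟨j, -, hj⟩⟩ := hz
    have e1 : x + y = e i + e j := by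
      have : y = x + e i + e j := by rw [← hj]; simp
      rw [this, add_assoc, add_add_cancel_left]
    have hij : i ≠ j := by
      rintro rfl
      exact h (add_eq_zero_iff'.1 (by simpa using e1))
    rw [e1, supp_e_add_e hij]
    exact ⟨card_le_two, mem_nb.2 ⟨i, by simp, rfl⟩⟩
  rcases (nb x univ ∩ nb y univ).eq_empty_or_nonempty with h0 | ⟨z, hz⟩
  · rw [h0]; simp
  · refine le_trans (card_le_card fun w hw => (key w hw).2) ?_
    rw [card_nb]; exact (key z hz).1

/-- directed edge boundary -/
def bd (X : Finset (W ι)) : Finset (W ι × ι) :=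
  univ.filter (fun p => p.1 ∈ X ∧ p.1 + e p.2 ∉ X)

lemma poincare (X : Finset (W ι)) : X.card * Xᶜ.card ≤ 2 ^ Fintype.card ι * (bd X).card := by
  let b : W ι → ℕ := fun v => (X.filter (fun x => x + v ∉ X)).card
  have sub : ∀ v w, b (v + w) ≤ b v + b w := by
    intro v w
    have : X.filter (fun x => x + (v + w) ∉ X) ⊆
        X.filter (fun x => x + v ∉ X) ∪ (X.filter (fun x => x + w ∉ X)).image (· + v) := by
      intro x hx
      rw [mem_filter] at hx
      by_cases h : x + v ∈ X
      · refine mem_union_right _ (mem_image.2 ⟨x + v, mem_filter.2 ⟨h, ?_⟩, by simp⟩)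
        rw [add_assoc]; exact hx.2
      · exact mem_union_left _ (mem_filter.2 ⟨hx.1, h⟩)
    exact (card_le_card this).trans ((card_union_le _ _).trans
      (Nat.add_le_add_left card_image_le _))
  have h1 : ∀ T : Finset ι, b (vec T) ≤ ∑ i ∈ T, b (e i) := by
    intro T
    induction T using Finset.induction_on with
    | empty => simp [b]
    | insert i T hi ih =>
      rw [vec_insert hi, sum_insert hi]
      have := sub (vec T) (e i)
      omega
  have h2 : ∑ i, b (e i) = (bd X).card := by
    simp only [b, bd, card_filter]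
    rw [Fintype.sum_prod_type_right]
    refine sum_congr rfl fun i _ => ?_
    rw [← sum_filter_add_sum_filter_not univ (· ∈ X)]
    simp only [filter_univ_mem]
    rw [sum_congr rfl (g := fun _ => 0) (s₂ := univ.filter (fun x => ¬ x ∈ X))
      (fun x hx => by simp [(mem_filter.1 hx).2])]
    simp only [sum_const_zero, add_zero]
    exact sum_congr rfl fun x hx => by simp [hx]
  have h3 : ∀ v, b v ≤ (bd X).card := by
    intro v
    rw [← h2, ← vec_supp v]
    exact (h1 _).trans (sum_le_sum_of_subset (subset_univ _))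
  have h4 : ∑ v, b v = X.card * Xᶜ.card := by
    simp only [b, card_filter]
    rw [sum_comm, ← smul_eq_mul, ← sum_const]
    refine sum_congr rfl fun x _ => ?_
    rw [← card_filter]
    apply card_bij (fun v _ => x + v)
    · intro v hv; simpa using hv
    · intro v _ w _ h; exact add_left_cancel h
    · intro y hy; exact ⟨x + y, by simpa using hy, by simp⟩
  rw [← h4, ← card_W, ← card_univ, ← smul_eq_mul, ← sum_const]
  exact sum_le_sum fun v _ => h3 v

/-- crossing an edge inside a subcube -/
lemma cross (X : Finset (W ι)) (p : W ι) (hp : p ∈ X) (T : Finset ι) (hT : p + vec T ∉ X) :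
    ∃ S ⊆ T, ∃ i ∈ T, i ∉ S ∧ p + vec S ∈ X ∧ p + vec S + e i ∉ X := by
  induction T using Finset.induction_on with
  | empty => simp [hp] at hT
  | insert i T hi ih =>
    by_cases h : p + vec T ∈ X
    · refine ⟨T, subset_insert _ _, i, mem_insert_self _ _, hi, h, ?_⟩
      rwa [add_assoc, ← vec_insert hi]
    · obtain ⟨S, hS, j, hj, h1, h2⟩ := ih h
      exact ⟨S, hS.trans (subset_insert _ _), j, mem_insert_of_mem hj, h1, h2⟩

end Pool.Agent.P.MP_38a0b7_co
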