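import Pool.Agent.P.MP_38a0b7_co.Lists
import Pool.Agent.P.MP_38a0b7_co.Bridge

/-! Decoding a 2-Lipschitz injection from its values on two colour classes. -/

set_option linter.unusedSectionVars false

namespace Pool.Agent.P.MP_38a0b7_co

open Finset

variable {n : ℕ} {τ : Type*} [Fintype τ] [DecidableEq τ]

/-- linear colouring -/
def col (g : Fin n → W τ) (x : W (Fin n)) : W τ := ∑ i, x i • g i

lemma col_add (g : Fin n → W τ) (x y : W (Fin n)) : col g (x + y) = col g x + col g y := by
  simp [col, add_smul, sum_add_distrib]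

lemma col_e (g : Fin n → W τ) (i : Fin n) : col g (e i) = g i := by
  simp [col, e_apply]

lemma card_fiber_le {α : Type*} [Fintype α] [DecidableEq α] [AddCommGroup α]
    (c : W (Fin n) → α) (hc : ∀ x y, c (x + y) = c x + c y) (hs : Function.Surjective c) (γ : α) :
    (univ.filter (fun x => c x = γ)).card * Fintype.card α ≤ 2 ^ n := by
  choose σ hσ using hs
  have : (univ.filter (fun x => c x = γ) ×ˢ (univ : Finset α)).card
      ≤ (univ : Finset (W (Fin n))).card := by
    apply card_le_card_of_injOn (fun p => p.1 + σ p.2) (fun _ _ => mem_univ _)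
    intro p hp q hq h
    simp only [coe_product, coe_filter, Set.mem_prod, Set.mem_ofPred_eq, mem_univ, true_and]
      at hp hq
    have h1 := congrArg c h
    simp only [hc, hσ, hp.1, hq.1, add_right_inj] at h1
    simp only [h1, add_left_inj] at h
    exact Prod.ext h h1
  simpa [ZMod.card] using this

/-- images of the sampled neighbours -/
def smp (g : Fin n → W τ) (f : W (Fin n) → W (Option (Fin n))) (S : Finset (W τ))
    (x : W (Fin n)) : Finset (W (Option (Fin n))) :=
  (univ.filter (fun i => col g (x + e i) ∈ S)).image (fun i => f (x + e i))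

/-- vertices with a short candidate list -/
def X1 (g : Fin n → W τ) (f : W (Fin n) → W (Option (Fin n))) (γ : W τ) : Finset (W (Fin n)) :=
  univ.filter (fun x => (cand (smp g f {0, γ} x)).card ≤ 5)

/-- candidate lists -/
def L1 (g : Fin n → W τ) (f : W (Fin n) → W (Option (Fin n))) (γ : W τ) (x : W (Fin n)) :
    Finset (W (Fin n)) := (cand (smp g f {0, γ} x)).image prj

/-- centre of the star at `x` -/
noncomputable def ctr (g : Fin n → W τ) (f : W (Fin n) → W (Option (Fin n))) (x : W (Fin n)) :
    W (Option (Fin n)) := Classical.epsilon (fun u => smp g f {0} x ⊆ nb u univ)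

/-- majority decoding -/
noncomputable def C2 (g : Fin n → W τ) (f : W (Fin n) → W (Option (Fin n))) (y : W (Fin n)) :
    Finset (W (Option (Fin n))) :=
  univ.filter (fun z => 2 * n ≤ 3 * (univ.filter (fun i => ctr g f (y + e i) ∈ nb z univ)).card)

/-- decoded lists -/
noncomputable def L2 (g : Fin n → W τ) (f : W (Fin n) → W (Option (Fin n))) (y : W (Fin n)) :
    Finset (W (Fin n)) := if (C2 g f y).card ≤ 1 then (C2 g f y).image prj else ∅

lemma smp_congr (g : Fin n → W τ) {f ψ : W (Fin n) → W (Option (Fin n))} {S : Finset (W τ)}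
    (h : ∀ x, col g x ∈ S → f x = ψ x) : smp g f S = smp g ψ S := by
  funext x
  exact image_congr fun i hi => h _ (by simpa using hi)

lemma card_L1 {g : Fin n → W τ} {f : W (Fin n) → W (Option (Fin n))} {γ : W τ} {x : W (Fin n)}
    (hx : x ∈ X1 g f γ) : (L1 g f γ x).card ≤ 5 := card_image_le.trans (mem_filter.1 hx).2

lemma card_L2 (g : Fin n → W τ) (f : W (Fin n) → W (Option (Fin n))) (x : W (Fin n)) :
    (L2 g f x).card ≤ 5 := by
  unfold L2
  split_ifs with h
  · exact card_image_le.trans (by omega)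
  · simp

lemma filter_col (g : Fin n → W τ) (x : W (Fin n)) (γ : W τ) :
    univ.filter (fun i => col g (x + e i) = γ) = univ.filter (fun i => g i = col g x + γ) := by
  refine filter_congr fun i _ => ?_
  rw [col_add, col_e]
  constructor
  · rintro rfl; simp
  · intro h; rw [h]; simp

section main

variable {g : Fin n → W τ} {ψ : W (Fin n) → W (Option (Fin n))}

lemma mem_L1 (hψ : ∀ x i, (supp (ψ x + ψ (x + e i))).card = 2) (γ : W τ) (x : W (Fin n)) :
    prj (ψ x) ∈ L1 g ψ γ x := by
  refine mem_image_of_mem _ (mem_cand.2 fun s hs => ?_)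
  obtain ⟨i, -, rfl⟩ := mem_image.1 hs
  exact hψ x i

lemma central (hinj : Function.Injective ψ) (h7 : ∀ γ, 7 ≤ (univ.filter (fun i => g i = γ)).card)
    {x : W (Fin n)} {i : Fin n} (hx : x ∉ X1 g ψ (col g (x + e i))) :
    ψ (x + e i) ∈ nb (ctr g ψ x) univ := by
  have h1 : 7 ≤ (smp g ψ {0} x).card := by
    rw [smp, card_image_of_injective _ (fun i j h => add_e_injective x (hinj h))]
    simp only [mem_singleton, filter_col]
    exact h7 _
  have h2 : smp g ψ {0} x ⊆ smp g ψ {0, col g (x + e i)} x :=
    image_subset_image fun j hj => by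
      simp only [mem_filter, mem_univ, true_and, mem_singleton] at hj ⊢
      simp [hj]
  obtain ⟨u, hu⟩ := star_of_cand (h1.trans (card_le_card h2)) (by simpa [X1] using hx)
  have h3 : smp g ψ {0} x ⊆ nb (ctr g ψ x) univ :=
    Classical.epsilon_spec (p := fun u => smp g ψ {0} x ⊆ nb u univ) ⟨u, h2.trans hu⟩
  have h4 : ctr g ψ x = u := by
    by_contra hne
    have := (card_le_card (subset_inter h3 (h2.trans hu))).trans (codeg hne)
    omega
  rw [h4]
  exact hu (mem_image.2 ⟨i, by simp, rfl⟩)

lemma wrong_L2 (hinj : Function.Injective ψ) (hn : 16 ≤ n)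
    (h7 : ∀ γ, 7 ≤ (univ.filter (fun i => g i = γ)).card) {c : ℕ}
    (hc : ∀ γ, (univ.filter (fun i => g i = γ)).card ≤ c) (hc' : Fintype.card (W τ) * c ≤ 2 * n)
    {k : ℕ} (hk : ∀ γ, (X1 g ψ γ).card ≤ k) :
    (univ.filter (fun y => prj (ψ y) ∉ L2 g ψ y)).card ≤ 24 * k := by
  let nc : W (Fin n) → ℕ := fun x =>
    (univ.filter (fun i => ψ (x + e i) ∉ nb (ctr g ψ x) univ)).card
  have h1 : ∑ x, nc x ≤ n * (2 * k) := by
    have a1 : ∀ x, nc x ≤ ∑ γ, if x ∈ X1 g ψ γ then c else 0 := by
      intro x
      have : univ.filter (fun i => ψ (x + e i) ∉ nb (ctr g ψ x) univ) ⊆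
          (univ.filter (fun γ => x ∈ X1 g ψ γ)).biUnion
            (fun γ => univ.filter (fun i => col g (x + e i) = γ)) := by
        intro i hi
        refine mem_biUnion.2 ⟨col g (x + e i), mem_filter.2 ⟨mem_univ _, ?_⟩, by simp⟩
        by_contra h
        exact (mem_filter.1 hi).2 (central hinj h7 h)
      refine (card_le_card this).trans ((card_biUnion_le_card_mul _ _ c fun γ _ => ?_).trans ?_)
      · rw [filter_col]; exact hc _
      · rw [← sum_filter, sum_const, smul_eq_mul]
    refine (sum_le_sum fun x _ => a1 x).trans ?_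
    rw [sum_comm]
    refine (sum_le_card_nsmul _ _ (k * c) fun γ _ => ?_).trans ?_
    · rw [← sum_filter, sum_const, smul_eq_mul, filter_univ_mem]
      exact Nat.mul_le_mul_right _ (hk γ)
    · rw [card_univ, smul_eq_mul]; nlinarith
  have h2 := card_heavy nc h1
  have distinct : ∀ x x', ¬ n < 3 * nc x → ¬ n < 3 * nc x' → ctr g ψ x = ctr g ψ x' → x = x' := by
    intro x x' hx hx' hu
    by_contra hne
    have a1 : ∀ z, ¬ n < 3 * nc z →
        2 * n ≤ 3 * ((nb z univ).filter (fun y => ψ y ∈ nb (ctr g ψ z) univ)).card := by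
      intro z hz
      rw [card_filter_nb]
      have := card_filter_add_card_filter_not (s := univ)
        (fun i => ψ (z + e i) ∈ nb (ctr g ψ z) univ)
      rw [card_univ, Fintype.card_fin] at this
      simp only [nc] at hz
      omega
    have a2 := a1 x hx
    have a3 := a1 x' hx'
    rw [← hu] at a3
    have a4 := card_union_add_card_inter
      ((nb x univ).filter (fun y => ψ y ∈ nb (ctr g ψ x) univ))
      ((nb x' univ).filter (fun y => ψ y ∈ nb (ctr g ψ x) univ))
    have a5 := (card_le_card (inter_subset_inter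
      (filter_subset (fun y => ψ y ∈ nb (ctr g ψ x) univ) (nb x univ))
      (filter_subset (fun y => ψ y ∈ nb (ctr g ψ x) univ) (nb x' univ)))).trans (codeg hne)
    have a6 : ((nb x univ).filter (fun y => ψ y ∈ nb (ctr g ψ x) univ) ∪
        (nb x' univ).filter (fun y => ψ y ∈ nb (ctr g ψ x) univ)).card
        ≤ (nb (ctr g ψ x) univ).card := by
      apply card_le_card_of_injOn ψ _ hinj.injOn
      intro y hy
      rcases mem_union.1 hy with h | h <;> exact (mem_filter.1 h).2
    rw [card_nb, card_univ, Fintype.card_option, Fintype.card_fin] at a6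
    omega
  let bp : W (Fin n) → ℕ := fun y => (univ.filter (fun i =>
    n < 3 * nc (y + e i) ∨ ψ y ∉ nb (ctr g ψ (y + e i)) univ)).card
  have h3 : ∑ y, bp y ≤ n * (8 * k) := by
    have a1 : ∑ y, bp y = ∑ x, (univ.filter (fun i =>
        n < 3 * nc x ∨ ψ (x + e i) ∉ nb (ctr g ψ x) univ)).card := by
      simp only [bp, card_filter]
      rw [sum_comm, sum_comm (s := univ) (t := (univ : Finset (Fin n)))]
      refine sum_congr rfl fun i _ => ?_
      rw [← Equiv.sum_comp (Equiv.addRight (e i))]
      simp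
    have a2 : ∀ x, (univ.filter (fun i => n < 3 * nc x ∨ ψ (x + e i) ∉ nb (ctr g ψ x) univ)).card
        ≤ (if n < 3 * nc x then n else 0) + nc x := by
      intro x
      split_ifs with h
      · exact (card_le_univ _).trans (by simp)
      · simp [h, nc]
    rw [a1]
    refine (sum_le_sum fun x _ => a2 x).trans ?_
    rw [sum_add_distrib, ← sum_filter, sum_const, smul_eq_mul]
    nlinarith
  refine le_trans (card_le_card fun y hy => ?_) ((card_heavy bp h3).trans (by omega))
  rw [mem_filter] at hy ⊢
  refine ⟨mem_univ _, ?_⟩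
  by_contra hgood
  apply hy.2
  set Gd := univ.filter (fun i =>
    ¬ (n < 3 * nc (y + e i) ∨ ψ y ∉ nb (ctr g ψ (y + e i)) univ)) with hGd
  have b1 : 2 * n ≤ 3 * Gd.card := by
    have := card_filter_add_card_filter_not (s := univ) (fun i =>
      n < 3 * nc (y + e i) ∨ ψ y ∉ nb (ctr g ψ (y + e i)) univ)
    rw [card_univ, Fintype.card_fin, ← hGd] at this
    simp only [bp] at hgood
    omega
  have b2 : ∀ i ∈ Gd, ¬ n < 3 * nc (y + e i) ∧ ctr g ψ (y + e i) ∈ nb (ψ y) univ := by
    intro i hi
    have := (mem_filter.1 hi).2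
    rw [not_or, not_not] at this
    exact ⟨this.1, mem_nb_symm this.2⟩
  have b3 : C2 g ψ y = {ψ y} := by
    refine eq_singleton_iff_unique_mem.2 ⟨mem_filter.2 ⟨mem_univ _, b1.trans ?_⟩, fun z hz => ?_⟩
    · exact Nat.mul_le_mul_left _ (card_le_card fun i hi => mem_filter.2 ⟨mem_univ _, (b2 i hi).2⟩)
    · by_contra hne
      have c1 := (mem_filter.1 hz).2
      have c2 := card_union_add_card_inter Gd
        (univ.filter (fun i => ctr g ψ (y + e i) ∈ nb z univ))
      have c3 := card_le_univ (Gd ∪ univ.filter (fun i => ctr g ψ (y + e i) ∈ nb z univ))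
      rw [Fintype.card_fin] at c3
      have c4 : (Gd ∩ univ.filter (fun i => ctr g ψ (y + e i) ∈ nb z univ)).card
          ≤ (nb z univ ∩ nb (ψ y) univ).card := by
        apply card_le_card_of_injOn (fun i => ctr g ψ (y + e i))
        · intro i hi
          have hi' := mem_inter.1 hi
          exact mem_inter.2 ⟨(mem_filter.1 hi'.2).2, (b2 i hi'.1).2⟩
        · intro i hi j hj h
          exact add_e_injective y (distinct _ _ (b2 i (mem_inter.1 hi).1).1
            (b2 j (mem_inter.1 hj).1).1 h)
      have c5 := codeg hne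
      omega
  simp [L2, b3]

end main

lemma par_eq_card {ι : Type*} [Fintype ι] [DecidableEq ι] (v : W ι) :
    par v = ((supp v).card : ZMod 2) := by
  rw [supp, card_filter]; push_cast
  refine sum_congr rfl fun i _ => ?_
  rcases z2_cases (v i) with h | h <;> simp [h]

lemma lift_two {φ : W (Fin n) → W (Fin n)} (hinj : Function.Injective φ)
    (h : ∀ x i, (supp (φ x + φ (x + e i))).card ≤ 2) (x : W (Fin n)) (i : Fin n) :
    (supp (emb 0 (φ x) + emb 0 (φ (x + e i)))).card = 2 := by
  have h1 := card_supp_le_prj (emb 0 (φ x) + emb 0 (φ (x + e i)))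
  rw [prj_add, prj_emb, prj_emb] at h1
  have h2 := h x i
  have h3 := par_eq_card (emb 0 (φ x) + emb 0 (φ (x + e i)))
  rw [par_add, par_emb, par_emb, add_zero, eq_comm, ZMod.natCast_eq_zero_iff] at h3
  have h4 : (supp (emb 0 (φ x) + emb 0 (φ (x + e i)))).card ≠ 0 := by
    intro h0
    have h5 := congrArg prj (add_eq_zero_iff'.1
      (supp_inj ((card_eq_zero.1 h0).trans supp_zero.symm)))
    exact e_ne_zero i (by simpa using hinj h5)
  omega

end Pool.Agent.P.MP_38a0b7_co
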