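import Pool.Agent.P.MP_38a0b7_co.Remove

/-! The deterministic part of the upper bound: local regularity gives a perfect matching. -/

set_option linter.unusedSectionVars false

namespace Pool.Agent.P.MP_38a0b7_co

open Finset

variable {ι : Type*} [Fintype ι] [DecidableEq ι]

/-- direction classes -/
def cl (cls : ι → ZMod 28) (j : ZMod 28) : Finset ι := univ.filter (fun i => cls i = j)

/-- the classes in cyclic order starting from `j` -/
def sig (cls : ι → ZMod 28) (j : ZMod 28) (k : ℕ) : Finset ι := cl cls (j + k)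

/-- deviation of a class degree -/
noncomputable def dev (cls : ι → ZMod 28) (Ω : Finset (W ι)) (j : ZMod 28) (x : W ι) : ℝ :=
  ((cl cls j).card : ℝ) / 2 - deg Ω (cl cls j) x

/-- atypical vertices -/
def Bad (cls : ι → ZMod 28) (d : ℕ) (Ω : Finset (W ι)) (x : W ι) : Prop :=
  ∃ j, (d : ℝ) / 2 ^ 93 < |dev cls Ω j x|

/-- the set of atypical vertices -/
noncomputable def badSet (cls : ι → ZMod 28) (d : ℕ) (Ω : Finset (W ι)) : Finset (W ι) := by
  classical exact univ.filter (Bad cls d Ω)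

/-- truncated initial defect -/
noncomputable def ini (cls : ι → ZMod 28) (d : ℕ) (Ω : Finset (W ι)) (j : ZMod 28) (x : W ι) :
    ℝ :=
  2 / (Fintype.card ι : ℝ) * (if |dev cls Ω j x| ≤ (d : ℝ) / 2 ^ 93 then dev cls Ω j x else 0)

/-- pushed defect -/
noncomputable def psh (cls : ι → ZMod 28) (d : ℕ) (Ω : Finset (W ι)) (j : ZMod 28) (k : ℕ) :
    W ι → ℝ :=
  sq d Ω (sig cls j) (ini cls d Ω j) k

lemma mem_badSet {cls : ι → ZMod 28} {d : ℕ} {Ω : Finset (W ι)} {x : W ι} :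
    x ∈ badSet cls d Ω ↔ Bad cls d Ω x := by
  simp [badSet]

lemma mem_cl {cls : ι → ZMod 28} {j : ZMod 28} {i : ι} : i ∈ cl cls j ↔ cls i = j := by
  simp [cl]

lemma sum_cl {M : Type*} [AddCommMonoid M] (cls : ι → ZMod 28) (f : ι → M) :
    ∑ j, ∑ i ∈ cl cls j, f i = ∑ i, f i :=
  sum_fiberwise univ cls f

lemma disjoint_cl (cls : ι → ZMod 28) {j j' : ZMod 28} (h : j ≠ j') :
    Disjoint (cl cls j) (cl cls j') := by
  rw [disjoint_left]
  intro i h1 h2
  exact h ((mem_cl.1 h1).symm.trans (mem_cl.1 h2))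

lemma disjoint_sig (cls : ι → ZMod 28) (j : ZMod 28) {t s : ℕ} (hs : s < 28) (hts : t < s) :
    Disjoint (sig cls j s) (cum (sig cls j) t) := by
  rw [cum, disjoint_biUnion_right]
  intro u hu
  apply disjoint_cl
  intro h
  have h1 : ((s : ℕ) : ZMod 28) = (u : ℕ) := add_left_cancel h
  rw [ZMod.natCast_eq_natCast_iff'] at h1
  have := mem_range.1 hu
  omega

lemma card_le_of_cl (cls : ι → ZMod 28) {d : ℕ} (hcl : ∀ j, (cl cls j).card ≤ 2 * d) :
    Fintype.card ι ≤ 56 * d := by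
  have := sum_cl cls (fun _ => 1)
  simp only [← card_eq_sum_ones, card_univ] at this
  rw [← this]
  refine (sum_le_card_nsmul _ _ _ fun j _ => hcl j).trans ?_
  simp [ZMod.card]; omega

lemma le_card_of_cl (cls : ι → ZMod 28) {d : ℕ} (hcl : ∀ j, d ≤ (cl cls j).card) :
    d ≤ Fintype.card ι := (hcl 0).trans (card_le_univ _)

lemma abs_ini_le (cls : ι → ZMod 28) (d : ℕ) (Ω : Finset (W ι)) (j : ZMod 28) (x : W ι) :
    |ini cls d Ω j x| ≤ 2 / (Fintype.card ι : ℝ) * (d / 2 ^ 93) := by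
  unfold ini
  rw [abs_mul, abs_of_nonneg (by positivity)]
  gcongr
  split_ifs with h
  · exact h
  · simp; positivity

lemma deg_of_good {cls : ι → ZMod 28} {d : ℕ} (hcl : ∀ j, d ≤ (cl cls j).card)
    {Ω : Finset (W ι)} {x : W ι} (hx : ¬ Bad cls d Ω x) (j : ZMod 28) :
    3 * d ≤ 8 * deg Ω (cl cls j) x := by
  have h1 : |dev cls Ω j x| ≤ (d : ℝ) / 2 ^ 93 := not_lt.1 fun h => hx ⟨j, h⟩
  have h2 := (abs_le.1 h1).2
  unfold dev at h2
  have h3 : (d : ℝ) ≤ (cl cls j).card := by exact_mod_cast hcl j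
  have h4 : (d : ℝ) / 2 ^ 93 ≤ d / 8 := by gcongr; norm_num
  have : 3 * (d : ℝ) ≤ 8 * deg Ω (cl cls j) x := by linarith
  exact_mod_cast this

lemma first_flow {cls : ι → ZMod 28} {d : ℕ} (hd : 0 < d) (hcl : ∀ j, d ≤ (cl cls j).card)
    (hcl' : ∀ j, (cl cls j).card ≤ 2 * d) (Ω : Finset (W ι)) :
    ∃ w : W ι → ι → ℝ, Sy w ∧
      (∀ x i, 3 / 2 / (Fintype.card ι : ℝ) ≤ w x i ∧ w x i ≤ 3 / (Fintype.card ι : ℝ)) ∧
      ∀ x, ¬ Bad cls d Ω x → 1 - dv Ω w x = ∑ j, psh cls d Ω j 26 x := by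
  have hm : (0 : ℝ) < Fintype.card ι := by exact_mod_cast hd.trans_le (le_card_of_cl cls hcl)
  have hd' : (0 : ℝ) < d := by exact_mod_cast hd
  have h1 : ∀ j, _ := fun j => exists_flow hd Ω (sig cls j) (ini cls d Ω j)
    (b := 8 ^ 26 * (2 / (Fintype.card ι : ℝ) * (d / 2 ^ 93))) 26 (fun t ht y =>
      (abs_sq_le hd Ω (fun k => hcl' _) (abs_ini_le cls d Ω j) t y).trans (by
        gcongr; norm_num))
  choose c c1 c2 c3 using h1
  refine ⟨fun x i => 2 / (Fintype.card ι : ℝ) + ∑ j, c j x i, ?_, ?_, ?_⟩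
  · intro x i; simp only [c1 _ x i]
  · intro x i
    have h2 : |∑ j, c j x i| ≤ 1 / 2 / (Fintype.card ι : ℝ) := by
      refine (abs_sum_le_sum_abs _ _).trans ((sum_le_card_nsmul _ _ _ fun j _ => c2 j x i).trans ?_)
      simp only [card_univ, ZMod.card, nsmul_eq_mul]
      have : ((28 : ℕ) : ℝ) * (((26 : ℕ) : ℝ) * (8 / d * (8 ^ 26 *
          (2 / (Fintype.card ι : ℝ) * (d / 2 ^ 93)))))
          = (28 * 26 * 16 * 8 ^ 26 / 2 ^ 93) / (Fintype.card ι : ℝ) := by
        push_cast; field_simp; ring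
      rw [this]
      exact div_le_div_of_nonneg_right (by norm_num) hm.le
    have h3 := abs_le.1 h2
    have e1 : 3 / 2 / (Fintype.card ι : ℝ)
        = 2 / (Fintype.card ι : ℝ) - 1 / 2 / (Fintype.card ι : ℝ) := by ring
    have e2 : 3 / (Fintype.card ι : ℝ) = 2 / (Fintype.card ι : ℝ)
        + 1 / 2 / (Fintype.card ι : ℝ) + 1 / 2 / (Fintype.card ι : ℝ) := by ring
    have e3 : 0 ≤ 1 / 2 / (Fintype.card ι : ℝ) := by positivity
    constructor <;> linarith [h3.1, h3.2]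
  · intro x hx
    rw [dv_add, dv_sum]
    have h4 : ∀ j, dv Ω (c j) x = ini cls d Ω j x - psh cls d Ω j 26 x := fun j =>
      c3 j x fun t => by have := deg_of_good hcl hx (j + t); unfold sig; omega
    have h5 : ∀ j, ini cls d Ω j x = 2 / (Fintype.card ι : ℝ) * dev cls Ω j x := fun j => by
      unfold ini; rw [if_pos (not_lt.1 fun h => hx ⟨j, h⟩)]
    have h6 : ∑ j, ((cl cls j).card : ℝ) = Fintype.card ι := by
      have := sum_cl cls (fun _ => (1 : ℝ))
      simpa using this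
    have h7 : dv Ω (fun _ _ => 2 / (Fintype.card ι : ℝ)) x
        = 2 / (Fintype.card ι : ℝ) * ∑ j, (deg Ω (cl cls j) x : ℝ) := by
      unfold dv
      rw [← sum_cl cls, mul_sum]
      refine sum_congr rfl fun j _ => ?_
      rw [← sum_filter, sum_const, nsmul_eq_mul, mul_comm]; rfl
    simp only [h4, h5, h7, sum_sub_distrib, dev, ← mul_sum, ← sum_div, h6]
    field_simp; ring

lemma deg_sdiff (Ω Z : Finset (W ι)) (D : Finset ι) (x : W ι) :
    deg Ω D x ≤ deg (Ω \ Z) D x + (Z ∩ ball x 27).card := by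
  rw [← card_nb_inter, ← card_nb_inter]
  refine le_trans (card_le_card fun y hy => ?_) (card_union_le _ _)
  rw [mem_inter] at hy
  by_cases h : y ∈ Z
  · exact mem_union_right _ (mem_inter.2 ⟨h, nb_subset_ball x D (by norm_num) hy.1⟩)
  · exact mem_union_left _ (mem_inter.2 ⟨hy.1, mem_sdiff.2 ⟨hy.2, h⟩⟩)

lemma second_flow {cls : ι → ZMod 28} {d K : ℕ} (hK : 2 ^ 17 * (K + 1) ≤ d)
    (hcl : ∀ j, d ≤ (cl cls j).card) {Ω Z : Finset (W ι)} (hZ : Z ⊆ Ω)
    (hZK : ∀ x, (Z ∩ ball x 27).card ≤ 2 * K) {w : W ι → ι → ℝ}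
    (hw : ∀ x i, |w x i| ≤ 3 / (Fintype.card ι : ℝ)) :
    ∃ c : W ι → ι → ℝ, Sy c ∧ (∀ x i, |c x i| ≤ 1 / 2 / (Fintype.card ι : ℝ)) ∧
      ∀ x, ¬ Bad cls d Ω x → |dv Ω w x - dv (Ω \ Z) w x - dv (Ω \ Z) c x|
        ≤ 28 * (3 / (Fintype.card ι : ℝ) * (4 / d) ^ 26 * (2 * K)) := by
  have hd : 0 < d := by omega
  have hm : (0 : ℝ) < Fintype.card ι := by exact_mod_cast hd.trans_le (le_card_of_cl cls hcl)
  have hd' : (0 : ℝ) < d := by exact_mod_cast hd
  have hK' : (2 : ℝ) ^ 17 * (K + 1) ≤ d := by exact_mod_cast hK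
  have hK0 : (0 : ℝ) ≤ K := by positivity
  let s : ZMod 28 → W ι → ℝ := fun j x => ∑ i ∈ cl cls j, if x + e i ∈ Z then w x i else 0
  have s0 : ∀ j x, |s j x| ≤ 3 / (Fintype.card ι : ℝ) * cnt Z (sig cls j) 0 x := by
    intro j x
    simp only [s]
    rw [← sum_filter]
    refine (abs_sum_le_sum_abs _ _).trans ((sum_le_card_nsmul _ _ _ fun i _ => hw x i).trans ?_)
    rw [nsmul_eq_mul, mul_comm]
    gcongr
    apply card_le_card_of_injOn (fun i => x + e i)
    · intro i hi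
      simp only [coe_filter, Set.mem_ofPred_eq] at hi ⊢
      simpa [cum, sig, hi.2] using hi.1
    · exact (add_e_injective x).injOn
  have s1 : ∀ j, ∀ t ≤ 26, ∀ x, |sq d (Ω \ Z) (sig cls j) (s j) t x|
      ≤ 3 / (Fintype.card ι : ℝ) * (4 / d) ^ t * (2 * K) := by
    intro j t ht x
    refine (abs_sq_sparse hd (Ω \ Z) Z (sig cls j) (s j) (by positivity) (s0 j) t
      (fun u hu => disjoint_sig cls j (by omega) (by omega)) x).trans ?_
    gcongr
    have h1 : (Z ∩ ball x (t + 1)).card ≤ (Z ∩ ball x 27).card :=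
      card_le_card (inter_subset_inter_left fun y hy => mem_ball_mono hy (by omega))
    exact_mod_cast (cnt_le _ _ _ _).trans (h1.trans (hZK x))
  have h1 : ∀ j, _ := fun j => exists_flow hd (Ω \ Z) (sig cls j) (s j)
    (b := 3 / (Fintype.card ι : ℝ) * (2 * K)) 26 (fun t ht y => (s1 j t ht.le y).trans (by
      have : (4 / (d : ℝ)) ^ t ≤ 1 := pow_le_one₀ (by positivity) (by
        rw [div_le_one hd']; linarith)
      calc _ ≤ 3 / (Fintype.card ι : ℝ) * 1 * (2 * K) := by gcongr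
        _ = _ := by ring))
  choose c c1 c2 c3 using h1
  refine ⟨fun x i => ∑ j, c j x i, ?_, ?_, ?_⟩
  · intro x i; simp only [c1 _ x i]
  · intro x i
    refine (abs_sum_le_sum_abs _ _).trans ((sum_le_card_nsmul _ _ _ fun j _ => c2 j x i).trans ?_)
    simp only [card_univ, ZMod.card, nsmul_eq_mul]
    have : ((28 : ℕ) : ℝ) * (((26 : ℕ) : ℝ) * (8 / d * (3 / (Fintype.card ι : ℝ) * (2 * K))))
        = (28 * 26 * 48 * K / d) / (Fintype.card ι : ℝ) := by
      push_cast; field_simp; ring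
    rw [this]
    refine div_le_div_of_nonneg_right ?_ hm.le
    rw [div_le_iff₀ hd']; linarith
  · intro x hx
    rw [dv_sum]
    have h4 : ∀ j, dv (Ω \ Z) (c j) x = s j x - sq d (Ω \ Z) (sig cls j) (s j) 26 x := fun j =>
      c3 j x fun t => by
        have h1 := deg_of_good hcl hx (j + t)
        have h2 := deg_sdiff Ω Z (cl cls (j + t)) x
        have h3 := hZK x
        unfold sig; omega
    have h5 : dv Ω w x - dv (Ω \ Z) w x = ∑ j, s j x := by
      simp only [s]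
      rw [sum_cl cls]
      unfold dv
      rw [← sum_sub_distrib]
      refine sum_congr rfl fun i _ => ?_
      by_cases h : x + e i ∈ Z
      · simp [h, hZ h]
      · simp [h]
    simp only [h4, h5, sum_sub_distrib, sub_sub_cancel]
    refine (abs_sum_le_sum_abs _ _).trans
      ((sum_le_card_nsmul _ _ _ fun j _ => s1 j 26 le_rfl x).trans ?_)
    simp [ZMod.card]

lemma good_dirs {cls : ι → ZMod 28} {d K : ℕ} (hK : 2 ^ 17 * (K + 1) ≤ d)
    (hcl : ∀ j, d ≤ (cl cls j).card) {Ω Z : Finset (W ι)}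
    (hZK : ∀ x, (Z ∩ ball x 27).card ≤ 2 * K) {a : W ι} (ha : ¬ Bad cls d Ω a) (j : ZMod 28)
    (T : Finset ι) (hT : T.card ≤ 5) :
    ∃ I ⊆ cl cls j, d ≤ 8 * I.card ∧ Disjoint I T ∧ ∀ i ∈ I, a + e i ∈ Ω ∧
      ∀ v, i ∈ supp v → (supp v).card ≤ 7 → a + v ∉ Z := by
  let Q : Finset ι := (Z ∩ ball a 7).biUnion (fun u => supp (a + u))
  have hQ : Q.card ≤ 14 * K := by
    refine (card_biUnion_le_card_mul _ _ 7 fun u hu => mem_ball.1 (mem_inter.1 hu).2).trans ?_
    have h1 : (Z ∩ ball a 7).card ≤ (Z ∩ ball a 27).card :=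
      card_le_card (inter_subset_inter_left fun y hy => mem_ball_mono hy (by omega))
    have := hZK a
    omega
  refine ⟨(cl cls j).filter (fun i => a + e i ∈ Ω) \ (T ∪ Q),
    sdiff_subset.trans (filter_subset _ _), ?_, ?_, ?_⟩
  · have h1 := deg_of_good hcl ha j
    have h2 := le_card_sdiff (T ∪ Q) ((cl cls j).filter (fun i => a + e i ∈ Ω))
    have h3 := card_union_le T Q
    unfold deg at h1
    omega
  · exact disjoint_of_subset_right subset_union_left sdiff_disjoint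
  · intro i hi
    rw [mem_sdiff, mem_filter, mem_union, not_or] at hi
    refine ⟨hi.1.2, fun v hv hv' hz => hi.2.2 ?_⟩
    exact mem_biUnion.2 ⟨a + v, mem_inter.2 ⟨hz, add_mem_ball a hv'⟩, by simpa using hv⟩

lemma final_numeric {m d K : ℝ} (hK0 : 0 ≤ K) (hK : 2 ^ 17 * (K + 1) ≤ d) (h1 : d ≤ m)
    (h2 : m ≤ 56 * d) :
    (28 * (1 / (m + 1) ^ 12) + 28 * (3 / m * (4 / d) ^ 26 * (2 * K))) * (2 * (m * (m + 1) ^ 9))
      ≤ 1 / m := by
  have hd : (2 : ℝ) ^ 17 ≤ d := by nlinarith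
  have hd0 : 0 < d := by linarith [show (0 : ℝ) < 2 ^ 17 by positivity]
  have hm : 0 < m := by linarith
  have a1 : 28 * (1 / (m + 1) ^ 12) * (2 * (m * (m + 1) ^ 9)) ≤ 1 / 2 / m := by
    have : 28 * (1 / (m + 1) ^ 12) * (2 * (m * (m + 1) ^ 9)) = 56 * m / (m + 1) ^ 3 := by
      field_simp; ring
    rw [this, div_le_div_iff₀ (by positivity) hm]
    have : m * m * 112 ≤ (m + 1) ^ 3 := by
      calc m * m * 112 ≤ (m + 1) * (m + 1) * (m + 1) := by
            gcongr <;> linarith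
        _ = _ := by ring
    linarith
  have a2 : 28 * (3 / m * (4 / d) ^ 26 * (2 * K)) * (2 * (m * (m + 1) ^ 9)) ≤ 1 / 2 / m := by
    have : 28 * (3 / m * (4 / d) ^ 26 * (2 * K)) * (2 * (m * (m + 1) ^ 9))
        = 336 * 4 ^ 26 * K * (m + 1) ^ 9 / d ^ 26 := by
      field_simp; ring
    rw [this, div_le_div_iff₀ (by positivity) hm]
    have b1 : K ≤ d := by nlinarith
    have b2 : m + 1 ≤ 57 * d := by linarith
    have b3 : (2 ^ 17 : ℝ) ^ 15 ≤ d ^ 15 := by gcongr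
    calc 336 * 4 ^ 26 * K * (m + 1) ^ 9 * m ≤ 336 * 4 ^ 26 * d * (57 * d) ^ 9 * (56 * d) := by
          gcongr
      _ = (336 * 4 ^ 26 * 57 ^ 9 * 56) * d ^ 11 := by ring
      _ ≤ (1 / 2 * (2 ^ 17) ^ 15) * d ^ 11 :=
          mul_le_mul_of_nonneg_right (by norm_num) (by positivity)
      _ ≤ (1 / 2 * d ^ 15) * d ^ 11 := by gcongr
      _ = _ := by ring
  have : 1 / m = 1 / 2 / m + 1 / 2 / m := by ring
  rw [add_mul, this]
  linarith

theorem det_mat {cls : ι → ZMod 28} {d K : ℕ} (hK : 2 ^ 17 * (K + 1) ≤ d)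
    (hcl : ∀ j, d ≤ (cl cls j).card) (hcl' : ∀ j, (cl cls j).card ≤ 2 * d)
    (Ω : Finset (W ι)) (hbal : ∑ x ∈ Ω, sg x = 0)
    (hA : ∀ x, (badSet cls d Ω ∩ ball x 28).card ≤ K)
    (hB : ∀ x y, deg Ω univ x ≤ 2 * K → y ∈ ball x 2 → y ≠ x → ¬ Bad cls d Ω y)
    (hC : ∀ j, ∀ x ∈ Ω, |psh cls d Ω j 26 x| ≤ 1 / ((Fintype.card ι : ℝ) + 1) ^ 12)
    (hD : ∀ (z : W ι) (T I J : Finset ι), T.card ≤ 5 → Disjoint I T → Disjoint J T →
      Disjoint I J → d ≤ 8 * I.card → d ≤ 8 * J.card →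
      ∃ i ∈ I, ∃ j ∈ J, ∀ S ⊆ T, z + e i + e j + vec S ∈ Ω)
    (hI : ∀ x ∈ Ω, ∃ i, x + e i ∈ Ω) : Mat Ω := by
  have hd : 0 < d := by omega
  have hdm := le_card_of_cl cls hcl
  have hmd := card_le_of_cl cls hcl'
  have hm : (0 : ℝ) < Fintype.card ι := by exact_mod_cast hd.trans_le hdm
  obtain ⟨Z, hZ, hZm, hZs, hZB, hZK⟩ := exists_rem Ω (badSet cls d Ω) K hA
    (fun x y h1 h2 h3 h4 => hB x y h1 h2 h3 (mem_badSet.1 h4)) hI
  have good : ∀ x ∈ Ω \ Z, ¬ Bad cls d Ω x := fun x hx h =>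
    (mem_sdiff.1 hx).2 (hZB (mem_inter.2 ⟨(mem_sdiff.1 hx).1, mem_badSet.2 h⟩))
  obtain ⟨w, w1, w2, w3⟩ := first_flow hd hcl hcl' Ω
  obtain ⟨c, c1, c2, c3⟩ := second_flow hK hcl hZ hZK (w := w) (fun x i => by
    have := w2 x i
    rw [abs_of_nonneg (le_trans (by positivity) this.1)]; exact this.2)
  rw [← sdiff_union_of_subset hZ]
  refine Mat.union sdiff_disjoint ?_ hZm
  refine mat_of_flow (Ω \ Z) ?_ (c := fun x i => w x i + c x i)
    (η := 1 / (Fintype.card ι : ℝ))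
    (ε := 28 * (1 / ((Fintype.card ι : ℝ) + 1) ^ 12)
      + 28 * (3 / (Fintype.card ι : ℝ) * (4 / d) ^ 26 * (2 * K))) ?_ ?_ ?_ ?_
  · have := sum_sdiff (f := sg) hZ
    linarith
  · intro x i; beta_reduce; rw [w1, c1]
  · intro x i
    have h1 := (w2 x i).1
    have h2 := (abs_le.1 (c2 x i)).1
    have : 1 / (Fintype.card ι : ℝ)
      = 3 / 2 / (Fintype.card ι : ℝ) - 1 / 2 / (Fintype.card ι : ℝ) := by ring
    linarith
  · intro x hx
    rw [dv_add]
    have h1 := c3 x (good x hx)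
    have h2 : |1 - dv Ω w x| ≤ 28 * (1 / ((Fintype.card ι : ℝ) + 1) ^ 12) := by
      rw [w3 x (good x hx)]
      refine (abs_sum_le_sum_abs _ _).trans
        ((sum_le_card_nsmul _ _ _ fun j _ => hC j x (mem_sdiff.1 hx).1).trans ?_)
      simp [ZMod.card]
    have e1 : 1 - (dv (Ω \ Z) w x + dv (Ω \ Z) c x)
        = (1 - dv Ω w x) + (dv Ω w x - dv (Ω \ Z) w x - dv (Ω \ Z) c x) := by ring
    rw [e1]
    exact (abs_add_le _ _).trans (add_le_add h2 h1)
  · intro X hX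
    have h1 := expansion (Ω \ Z) ?_ X hX ?_
    · have h2 : min (X.card : ℝ) ((Ω \ Z) \ X).card ≤ 2 * ((Fintype.card ι : ℝ) *
          ((Fintype.card ι : ℝ) + 1) ^ 9) * (bdIn (Ω \ Z) X).card := by exact_mod_cast h1
      have h3 := final_numeric (m := Fintype.card ι) (d := d) (K := K) (by positivity)
        (by exact_mod_cast hK) (by exact_mod_cast hdm) (by exact_mod_cast hmd)
      calc _ ≤ (28 * (1 / ((Fintype.card ι : ℝ) + 1) ^ 12)
            + 28 * (3 / (Fintype.card ι : ℝ) * (4 / d) ^ 26 * (2 * K))) *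
            (2 * ((Fintype.card ι : ℝ) * ((Fintype.card ι : ℝ) + 1) ^ 9)
              * (bdIn (Ω \ Z) X).card) := by gcongr
        _ ≤ _ := by rw [← mul_assoc]; gcongr
    · intro z
      have h3 : ∃ y ∈ nb z univ, y ∉ badSet cls d Ω := by
        by_contra h
        push Not at h
        have h4 : nb z univ ⊆ badSet cls d Ω ∩ ball z 28 := fun y hy =>
          mem_inter.2 ⟨h y hy, nb_subset_ball z _ (by norm_num) hy⟩
        have h5 := (card_le_card h4).trans (hA z)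
        rw [card_nb, card_univ] at h5
        omega
      obtain ⟨y, hy, hy'⟩ := h3
      have h4 := deg_of_good hcl (mt mem_badSet.2 hy') 0
      have h5 := deg_sdiff Ω Z (cl cls 0) y
      have h6 := hZK y
      obtain ⟨i, hi⟩ := card_pos.1 (show 0 < deg (Ω \ Z) (cl cls 0) y by omega)
      exact ⟨y + e i, (mem_filter.1 hi).2, mem_ball_trans (r := 1) (s := 1)
        (nb_subset_ball z _ le_rfl hy) (add_e_mem_ball _ _)⟩
    · intro a ha a' ha' haa
      rw [mem_ball] at haa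
      obtain ⟨I, I1, I2, I3, I4⟩ := good_dirs hK hcl hZK (good a (hX ha)) 0 _ haa
      obtain ⟨J, J1, J2, J3, J4⟩ := good_dirs hK hcl hZK (good a' (mem_sdiff.1 ha').1) 1 _ haa
      have hIJ : Disjoint I J :=
        disjoint_of_subset_left I1 (disjoint_of_subset_right J1 (disjoint_cl cls (by decide)))
      obtain ⟨i, hi, j, hj, hij⟩ := hD a _ I J haa I3 J3 hIJ I2 J2
      refine connect _ X ha ha' haa (i := i) (j := j)
        (mem_sdiff.2 ⟨(I4 i hi).1, (I4 i hi).2 _ (by simp) (by simp)⟩)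
        (mem_sdiff.2 ⟨(J4 j hj).1, (J4 j hj).2 _ (by simp) (by simp)⟩)
        (fun S hS => mem_sdiff.2 ⟨hij S hS, ?_⟩)
      rw [add_assoc, add_assoc]
      have hne : i ≠ j := fun h => disjoint_left.1 hIJ hi (h ▸ hj)
      have hiS : i ∉ S := fun h => disjoint_left.1 I3 hi (hS h)
      apply (I4 i hi).2
      · simp [e_apply, vec, hne, hiS]
      · refine (card_supp_add _ _).trans ?_
        have := card_supp_add (e j : W ι) (vec S)
        have := card_le_card hS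
        simp only [supp_e, card_singleton, supp_vec] at *
        omega

end Pool.Agent.P.MP_38a0b7_co
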