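import Pool.Agent.P.MP_38a0b7_co.Det

/-! Probability estimates for the local events, under the uniform measure on subsets. -/

set_option linter.unusedSectionVars false
set_option exponentiation.threshold 400

namespace Pool.Agent.P.MP_38a0b7_co

open Finset

variable {ι : Type*} [Fintype ι] [DecidableEq ι]

lemma dep_deg (D : Finset ι) (x : W ι) : Dep (fun Ω => deg Ω D x) (nb x D) := by
  intro Ω Ω' h
  exact congrArg card (filter_congr fun i hi => h _ (mem_nb.2 ⟨i, hi, rfl⟩))

lemma nb_mono (x : W ι) {D D' : Finset ι} (h : D ⊆ D') : nb x D ⊆ nb x D' := image_subset_image h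

lemma dep_dev (cls : ι → ZMod 28) (j : ZMod 28) (x : W ι) :
    Dep (fun Ω => dev cls Ω j x) (nb x (cl cls j)) :=
  (dep_deg _ x).comp (fun a : ℕ => ((cl cls j).card : ℝ) / 2 - a)

lemma dep_bad (cls : ι → ZMod 28) (d : ℕ) (x : W ι) :
    Dep (fun Ω => Bad cls d Ω x) (nb x univ) := by
  intro Ω Ω' h
  unfold Bad
  have : ∀ j, dev cls Ω j x = dev cls Ω' j x := fun j =>
    (dep_dev cls j x).mono (nb_mono x (subset_univ _)) _ _ h
  simp only [this]

/-- conditional probability of being atypical -/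
noncomputable def qb (d : ℕ) : ℝ := 56 * Real.exp (-(d / 2 ^ 188))

lemma bad_cond {cls : ι → ZMod 28} {d K : ℕ} (hK : 2 ^ 95 * (K + 1) ≤ d)
    (hcl' : ∀ j, (cl cls j).card ≤ 2 * d) (y : W ι) (R : Finset (W ι))
    (hR : (nb y univ \ R).card ≤ 2 * (K + 1)) (Ω₁ : Finset (W ι)) :
    avg (fun Ω₂ => ind (Bad cls d (mix R Ω₁ Ω₂) y)) ≤ qb d := by
  have hd : (0 : ℝ) < d := by exact_mod_cast (show 0 < d by omega)
  have hK' : (2 : ℝ) ^ 95 * (K + 1) ≤ d := by exact_mod_cast hK
  have h1 : ∀ Ω₂, ind (Bad cls d (mix R Ω₁ Ω₂) y) ≤ ∑ j, ind ((d : ℝ) / 2 ^ 94 <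
      |(((nb y (cl cls j) ∩ R).filter (· ∈ Ω₂)).card : ℝ) - (nb y (cl cls j) ∩ R).card / 2|) := by
    intro Ω₂
    refine (ind_mono ?_).trans (ind_exists univ _)
    rintro ⟨j, hj⟩
    refine ⟨j, mem_univ _, ?_⟩
    have a1 : deg (mix R Ω₁ Ω₂) (cl cls j) y = ((nb y (cl cls j) ∩ R).filter (· ∈ Ω₂)).card
        + ((nb y (cl cls j) \ R).filter (· ∈ Ω₁)).card := by
      rw [← card_nb_inter, ← card_union_of_disjoint
        (disjoint_filter_filter (disjoint_sdiff_inter _ _).symm)]
      congr 1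
      ext w
      by_cases hw : w ∈ R <;> simp [mem_mix, hw]
    have a2 : (cl cls j).card = (nb y (cl cls j) ∩ R).card + (nb y (cl cls j) \ R).card := by
      rw [card_inter_add_card_sdiff, card_nb]
    have a3 : ((nb y (cl cls j) \ R).filter (· ∈ Ω₁)).card ≤ (nb y (cl cls j) \ R).card :=
      card_filter_le _ _
    have a4 : (nb y (cl cls j) \ R).card ≤ 2 * (K + 1) :=
      (card_le_card (sdiff_subset_sdiff (nb_mono y (subset_univ _)) subset_rfl)).trans hR
    unfold dev at hj
    rw [a1, a2] at hj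
    push_cast at hj
    generalize ((nb y (cl cls j) ∩ R).filter (· ∈ Ω₂)).card = a at *
    generalize ((nb y (cl cls j) \ R).filter (· ∈ Ω₁)).card = b at *
    generalize (nb y (cl cls j) ∩ R).card = c at *
    generalize (nb y (cl cls j) \ R).card = f at *
    have b3 : (b : ℝ) ≤ f := by exact_mod_cast a3
    have b4 : (f : ℝ) ≤ 2 * (K + 1) := by exact_mod_cast a4
    have b5 : (0 : ℝ) ≤ b := by positivity
    rcases lt_abs.1 hj with h | h
    · refine lt_abs.2 (Or.inr ?_); linarith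
    · refine lt_abs.2 (Or.inl ?_); linarith
  refine (avg_mono h1).trans ?_
  rw [avg_sum]
  refine (sum_le_card_nsmul _ _ (2 * Real.exp (-(d / 2 ^ 188))) fun j _ => ?_).trans ?_
  · refine (hoeffding _ (s := 2 * d) (by positivity) (by positivity) ?_).trans (le_of_eq ?_)
    · have := (card_le_card (inter_subset_left (s₁ := nb y (cl cls j)) (s₂ := R)))
      rw [card_nb] at this
      exact_mod_cast this.trans (hcl' j)
    · congr 3; field_simp
  · simp [ZMod.card, qb]; linarith

lemma qb_pos (d : ℕ) : 0 < qb d := by unfold qb; positivity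

lemma dep_all_bad (cls : ι → ZMod 28) (d : ℕ) (Y : Finset (W ι)) :
    Dep (fun Ω => ind (∀ y ∈ Y, Bad cls d Ω y)) (Y.biUnion (fun y => nb y univ)) := by
  simp only [ind_forall]
  exact Dep.prod Y _ _ fun y _ => (dep_bad cls d y).comp ind

lemma all_bad {cls : ι → ZMod 28} {d K : ℕ} (hK : 2 ^ 95 * (K + 1) ≤ d)
    (hcl' : ∀ j, (cl cls j).card ≤ 2 * d) (Y : Finset (W ι)) (hY : Y.card ≤ K + 1) :
    avg (fun Ω => ind (∀ y ∈ Y, Bad cls d Ω y)) ≤ qb d ^ Y.card := by
  induction Y using Finset.induction_on with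
  | empty => simp [ind, avg_const]
  | insert y Y hy ih =>
    rw [card_insert_of_notMem hy] at hY ⊢
    have e1 : (fun Ω => ind (∀ z ∈ insert y Y, Bad cls d Ω z))
        = fun Ω => ind (∀ z ∈ Y, Bad cls d Ω z) * ind (Bad cls d Ω y) := by
      funext Ω; rw [← ind_and]; apply ind_congr; simp [and_comm]
    rw [e1, pow_succ]
    refine (avg_mul_le (nb y univ \ Y.biUnion (fun y => nb y univ)) (fun _ => ind_nonneg _)
      ((dep_all_bad cls d Y).mix_left disjoint_sdiff) (bad_cond hK hcl' y _ ?_)).trans ?_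
    · rw [sdiff_sdiff_self_left, inter_biUnion]
      refine (card_biUnion_le_card_mul _ _ 2 fun z hz => codeg (by rintro rfl; exact hy hz)).trans
        (by omega)
    · exact mul_le_mul_of_nonneg_right (ih (by omega)) (qb_pos d).le

lemma low_prob (x : W ι) (L : ℕ) (hm : 0 < Fintype.card ι) :
    avg (fun Ω => ind (deg Ω univ x ≤ L))
      ≤ 3 * (Fintype.card ι : ℝ) ^ L / 2 ^ Fintype.card ι := by
  have hm' : (1 : ℝ) ≤ Fintype.card ι := by exact_mod_cast hm
  have h1 : ∀ Ω : Finset (W ι), ind (deg Ω univ x ≤ L) ≤ (Fintype.card ι : ℝ) ^ L *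
      (1 / (Fintype.card ι : ℝ)) ^ ((nb x univ).filter (· ∈ Ω)).card := by
    intro Ω
    apply ind_le (by positivity)
    intro h
    rw [filter_mem_eq_inter, card_nb_inter, one_div, inv_pow, ← div_eq_mul_inv,
      one_le_div (by positivity)]
    exact pow_le_pow_right₀ hm' h
  refine (avg_mono h1).trans ?_
  rw [avg_mul_left, avg_pow_card, card_nb, card_univ, div_pow, mul_comm 3, mul_div_assoc]
  gcongr
  calc (1 / (Fintype.card ι : ℝ) + 1) ^ Fintype.card ι
      ≤ Real.exp (1 / (Fintype.card ι : ℝ)) ^ Fintype.card ι := by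
        gcongr; exact Real.add_one_le_exp _
    _ = Real.exp 1 := by rw [← Real.exp_nat_mul]; congr 1; field_simp
    _ ≤ 3 := by linarith [Real.exp_one_lt_d9]

lemma low_bad {cls : ι → ZMod 28} {d K : ℕ} (hK : 2 ^ 95 * (K + 1) ≤ d)
    (hcl' : ∀ j, (cl cls j).card ≤ 2 * d) (hm : 0 < Fintype.card ι) {x y : W ι} (hxy : y ≠ x)
    (L : ℕ) :
    avg (fun Ω => ind (deg Ω univ x ≤ L ∧ Bad cls d Ω y))
      ≤ 3 * (Fintype.card ι : ℝ) ^ L / 2 ^ Fintype.card ι * qb d := by
  simp only [ind_and]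
  refine (avg_mul_le (nb y univ \ nb x univ) (fun _ => ind_nonneg _)
    (((dep_deg univ x).comp (fun a => ind (a ≤ L))).mix_left disjoint_sdiff)
    (bad_cond hK hcl' y _ ?_)).trans ?_
  · rw [sdiff_sdiff_self_left]
    exact (codeg hxy).trans (by omega)
  · exact mul_le_mul_of_nonneg_right (low_prob x L hm) (qb_pos d).le

lemma dep_low_bad (cls : ι → ZMod 28) (d L : ℕ) (x y : W ι) :
    Dep (fun Ω => ind (deg Ω univ x ≤ L ∧ Bad cls d Ω y)) (nb x univ ∪ nb y univ) := by
  intro Ω Ω' h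
  have h1 := (dep_deg univ x).mono (subset_union_left (s₂ := nb y univ)) _ _ h
  have h2 := (dep_bad cls d y).mono (subset_union_right (s₁ := nb x univ)) _ _ h
  simp only at h1 h2 ⊢
  rw [h1, h2]

/-- subcube through `x` -/
def sp (x : W ι) (C : Finset ι) : Finset (W ι) := univ.filter (fun y => supp (x + y) ⊆ C)

lemma mem_sp {x y : W ι} {C : Finset ι} : y ∈ sp x C ↔ supp (x + y) ⊆ C := by simp [sp]

lemma card_sp (x : W ι) (C : Finset ι) : (sp x C).card ≤ 2 ^ C.card := by
  rw [← card_powerset]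
  apply card_le_card_of_injOn (fun y => supp (x + y))
  · intro y hy; simpa using mem_sp.1 hy
  · intro y _ z _ h
    exact add_left_cancel (supp_inj h)

lemma sp_step {x : W ι} {C C' : Finset ι} {i : ι} (hi : i ∈ C') (h : C ⊆ C') :
    sp (x + e i) C ⊆ sp x C' := by
  intro y hy
  rw [mem_sp] at *
  have e1 : x + y = (x + e i + y) + e i := by
    rw [add_right_comm x (e i) y, add_add_cancel]
  rw [e1]
  exact (supp_add_subset _ _).trans (union_subset (hy.trans h) (by simpa using hi))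

lemma self_mem_sp (x : W ι) (C : Finset ι) : x ∈ sp x C := by simp [mem_sp]

lemma nb_subset_sp (x : W ι) (C : Finset ι) : nb x C ⊆ sp x C := by
  intro y hy
  obtain ⟨i, hi, rfl⟩ := mem_nb.1 hy
  exact sp_step hi subset_rfl (self_mem_sp _ _)

lemma dep_nrm (d : ℕ) (D : Finset ι) (x : W ι) : Dep (fun Ω => nrm d Ω D x) (nb x D) :=
  (dep_deg D x).comp (fun a : ℕ => if d ≤ 4 * a then 1 / (a : ℝ) else 0)

lemma cum_zero (σ : ℕ → Finset ι) : cum σ 0 = σ 0 := by simp [cum]

lemma dep_psh (cls : ι → ZMod 28) (d : ℕ) (j : ZMod 28) (k : ℕ) :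
    ∀ x, Dep (fun Ω => psh cls d Ω j k x) (sp x (cum (sig cls j) k)) := by
  induction k with
  | zero =>
    intro x
    refine Dep.mono ((dep_dev cls j x).comp (fun a : ℝ =>
      2 / (Fintype.card ι : ℝ) * (if |a| ≤ (d : ℝ) / 2 ^ 93 then a else 0))) ?_
    simpa [cum_zero, sig] using nb_subset_sp x _
  | succ k ih =>
    intro x Ω Ω' h
    simp only [psh, sq, push]
    congr 1
    refine sum_congr rfl fun i hi => ?_
    have hi' : i ∈ cum (sig cls j) (k + 1) := by rw [cum_succ]; exact mem_union_left _ hi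
    have h1 : x + e i ∈ Ω ↔ x + e i ∈ Ω' := h _ (sp_step hi' subset_rfl (self_mem_sp _ _))
    have h2 := (dep_nrm d (sig cls j (k + 1)) (x + e i)).mono ((nb_subset_sp _ _).trans
      (sp_step hi' (by rw [cum_succ]; exact subset_union_left))) _ _ h
    have h3 := (ih (x + e i)).mono
      (sp_step hi' (by rw [cum_succ]; exact subset_union_right)) _ _ h
    simp only [psh] at h2 h3
    simp only [h1, h2, h3]

/-- pushed defect at a present vertex -/
noncomputable def HH (cls : ι → ZMod 28) (d : ℕ) (j : ZMod 28) (k : ℕ) (x : W ι)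
    (Ω : Finset (W ι)) : ℝ := if x ∈ Ω then psh cls d Ω j k x else 0

lemma dep_HH (cls : ι → ZMod 28) (d : ℕ) (j : ZMod 28) (k : ℕ) (x : W ι) :
    Dep (HH cls d j k x) (sp x (cum (sig cls j) k)) := by
  intro Ω Ω' h
  have h1 := dep_psh cls d j k x _ _ h
  have h2 := h x (self_mem_sp _ _)
  simp only at h1
  simp only [HH, h1, h2]

lemma mgf_HH {cls : ι → ZMod 28} {d : ℕ} (hd : 0 < d) (hcl : ∀ j, d ≤ (cl cls j).card)
    (hcl' : ∀ j, (cl cls j).card ≤ 2 * d) (j : ZMod 28) (k : ℕ) (hk : k ≤ 26) :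
    ∀ (x : W ι) (l : ℝ), avg (fun Ω => Real.exp (l * HH cls d j k x Ω))
      ≤ Real.exp (l ^ 2 * (32 / d) ^ k / 2) := by
  have hd' : (0 : ℝ) < d := by exact_mod_cast hd
  induction k with
  | zero =>
    intro x l
    have := mgf_of_symm (X := HH cls d j 0 x) (b := 1) (flip (nb x (cl cls j))) ?_ ?_ l
    · simpa using this
    · intro Ω
      have h1 : x ∉ nb x (cl cls j) := by
        intro h
        obtain ⟨i, -, hi⟩ := mem_nb.1 h
        exact e_ne_zero i (by simpa using hi)
      have h2 : dev cls (flip (nb x (cl cls j)) Ω) j x = - dev cls Ω j x := by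
        unfold dev
        have : deg (flip (nb x (cl cls j)) Ω) (cl cls j) x + deg Ω (cl cls j) x
            = (cl cls j).card := by
          unfold deg
          rw [← card_filter_add_card_filter_not (s := cl cls j) (fun i => x + e i ∈ Ω), add_comm]
          congr 2
          refine filter_congr fun i hi => ?_
          have : x + e i ∈ nb x (cl cls j) := mem_nb.2 ⟨i, hi, rfl⟩
          simp [mem_flip, this]
        rw [← this]; push_cast; ring
      simp only [HH, psh, sq, ini, h2, abs_neg, mem_flip, h1, not_false_eq_true, iff_true]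
      split_ifs <;> simp
    · intro Ω
      unfold HH
      split_ifs
      · refine (abs_ini_le cls d Ω j x).trans ?_
        have : (d : ℝ) ≤ Fintype.card ι := by exact_mod_cast le_card_of_cl cls hcl
        rw [div_mul_div_comm, div_le_one (by
          have : (0 : ℝ) < Fintype.card ι := by linarith
          positivity)]
        nlinarith
      · simp
  | succ k ih =>
    intro x l
    have ih := ih (by omega)
    have hdis : Disjoint (sig cls j (k + 1)) (cum (sig cls j) k) :=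
      disjoint_sig cls j (by omega) (by omega)
    have e1 : ∀ Ω, HH cls d j (k + 1) x Ω = ∑ i ∈ sig cls j (k + 1),
        (if x ∈ Ω then - nrm d Ω (sig cls j (k + 1)) (x + e i) else 0)
          * HH cls d j k (x + e i) Ω := by
      intro Ω
      unfold HH
      split_ifs
      · simp only [psh, sq, push]
        rw [← sum_neg_distrib]
        refine sum_congr rfl fun i _ => ?_
        split_ifs <;> simp
      · simp
    simp only [e1]
    refine (mgf_sum (sig cls j (k + 1)) (fun i => sp (x + e i) (cum (sig cls j) k))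
      ((sp x (sig cls j (k + 1))).filter (fun y => par y = par x)) _ _ (a := 4 / d)
      (v := (32 / d) ^ k) (by positivity) (fun i _ => dep_HH cls d j k _) ?_ ?_ ?_ ?_
      (fun i _ => ih _) l).trans ?_
    · intro i hi Ω Ω' h
      have h1 := h x (mem_filter.2 ⟨self_mem_sp _ _, rfl⟩)
      have h2 := (dep_nrm d (sig cls j (k + 1)) (x + e i)).mono (fun y hy => mem_filter.2
        ⟨sp_step hi subset_rfl (nb_subset_sp _ _ hy), by
          obtain ⟨i', -, rfl⟩ := mem_nb.1 hy
          rw [par_add_e, par_add_e, add_assoc, z2_add_self, add_zero]⟩) _ _ h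
      simp only at h2
      simp only [h1, h2]
    · intro i hi i' _ hne
      rw [disjoint_left]
      intro u hu hu'
      rw [mem_sp] at hu hu'
      have e1 : (x + e i + u) + (x + e i' + u) = e i + e i' := by
        have : (x + e i + u) + (x + e i' + u) = (x + x) + (u + u) + (e i + e i') := by abel
        rw [this]; simp
      have h2 := (supp_add_subset (x + e i + u) (x + e i' + u)).trans (union_subset hu hu')
      rw [e1, supp_e_add_e hne] at h2
      exact disjoint_left.1 hdis hi (h2 (by simp))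
    · intro i hi
      rw [disjoint_left]
      intro u hu hu'
      rw [mem_filter] at hu
      have h1 : u ∈ sp (x + e i) (sig cls j (k + 1)) := by
        have := sp_step (x := x + e i) hi subset_rfl
        rw [add_add_cancel] at this
        exact this hu.1
      rw [mem_sp] at hu' h1
      have h2 : supp (x + e i + u) = ∅ :=
        subset_empty.1 (by rw [← disjoint_iff_inter_eq_empty.1 hdis]; exact subset_inter h1 hu')
      have h3 : x + e i = u := add_eq_zero_iff'.1 (supp_inj (by rw [h2, supp_zero]))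
      rw [← h3, par_add_e] at hu
      simpa using hu.2
    · intro i _ Ω
      split_ifs
      · rw [abs_neg]; exact abs_nrm_le hd _ _ _
      · simp; positivity
    · apply Real.exp_le_exp.2
      have : ((sig cls j (k + 1)).card : ℝ) ≤ 2 * d := by exact_mod_cast hcl' _
      calc l ^ 2 * ((sig cls j (k + 1)).card * (4 / (d : ℝ)) ^ 2 * (32 / d) ^ k) / 2
          ≤ l ^ 2 * (2 * d * (4 / (d : ℝ)) ^ 2 * (32 / d) ^ k) / 2 := by gcongr
        _ = _ := by rw [pow_succ _ k]; field_simp; ring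

lemma tail_HH {cls : ι → ZMod 28} {d : ℕ} (hd : 2 ^ 289 ≤ d) (hcl : ∀ j, d ≤ (cl cls j).card)
    (hcl' : ∀ j, (cl cls j).card ≤ 2 * d) (j : ZMod 28) (x : W ι) :
    avg (fun Ω => ind (1 / ((Fintype.card ι : ℝ) + 1) ^ 12 < |HH cls d j 26 x Ω|))
      ≤ 2 * Real.exp (-(Fintype.card ι : ℝ)) := by
  have hd0 : 0 < d := lt_of_lt_of_le (by positivity) hd
  have hd' : (0 : ℝ) < d := by exact_mod_cast hd0
  have hd2 : (2 : ℝ) ^ 289 ≤ d := by exact_mod_cast hd
  have hm : (Fintype.card ι : ℝ) ≤ 56 * d := by exact_mod_cast card_le_of_cl cls hcl'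
  refine (tail_of_mgf (by positivity) (by positivity)
    (mgf_HH hd0 hcl hcl' j 26 le_rfl x)).trans ?_
  generalize (Fintype.card ι) = m at *
  gcongr
  have e1 : (1 / ((m : ℝ) + 1) ^ 12) ^ 2 / (2 * (32 / (d : ℝ)) ^ 26)
      = d ^ 26 / (2 * 32 ^ 26 * (m + 1) ^ 24) := by field_simp
  rw [e1, le_div_iff₀ (by positivity)]
  have b2 : (m : ℝ) + 1 ≤ 57 * d := by
    have : (1 : ℝ) ≤ d := by exact_mod_cast hd0
    linarith
  calc (m : ℝ) * (2 * 32 ^ 26 * ((m : ℝ) + 1) ^ 24)
      ≤ 56 * (d : ℝ) * (2 * 32 ^ 26 * (57 * (d : ℝ)) ^ 24) := by gcongr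
    _ = (56 * 2 * 32 ^ 26 * 57 ^ 24) * (d : ℝ) ^ 25 := by ring
    _ ≤ (d : ℝ) * (d : ℝ) ^ 25 := by
        refine mul_le_mul_of_nonneg_right (le_trans (by norm_num) hd2) (by positivity)
    _ = _ := by ring

lemma card_sp_cum {cls : ι → ZMod 28} {d : ℕ} (hd : 2 ≤ d) (hcl : ∀ j, d ≤ (cl cls j).card)
    (j : ZMod 28) (x : W ι) :
    4 * (sp x (cum (sig cls j) 26)).card ≤ 2 ^ Fintype.card ι := by
  have h1 := card_sp x (cum (sig cls j) 26)
  have h2 := card_union_of_disjoint (disjoint_sig cls j (s := 27) (t := 26) (by omega) (by omega))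
  have h3 := card_le_univ (sig cls j 27 ∪ cum (sig cls j) 26)
  have h4 : d ≤ (sig cls j 27).card := hcl _
  calc 4 * (sp x (cum (sig cls j) 26)).card ≤ 2 ^ 2 * 2 ^ (cum (sig cls j) 26).card := by omega
    _ = 2 ^ (2 + (cum (sig cls j) 26).card) := by rw [pow_add]
    _ ≤ _ := Nat.pow_le_pow_right (by norm_num) (by omega)

/-- connecting cells -/
def cell (z : W ι) (T : Finset ι) (p : ι × ι) : Finset (W ι) :=
  T.powerset.image (fun S => z + e p.1 + e p.2 + vec S)

lemma card_cell (z : W ι) {T : Finset ι} (hT : T.card ≤ 5) (p : ι × ι) :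
    (cell z T p).card ≤ 32 := by
  refine card_image_le.trans ?_
  rw [card_powerset]
  exact (Nat.pow_le_pow_right (by norm_num) hT)

lemma dep_cell (z : W ι) (T : Finset ι) (p : ι × ι) :
    Dep (fun Ω => ind (¬ ∀ w ∈ cell z T p, w ∈ Ω)) (cell z T p) := by
  intro Ω Ω' h
  apply ind_congr
  exact not_congr (forall₂_congr h)

lemma cells_prob {d : ℕ} (hd : 2 ^ 46 ≤ d) (hm : Fintype.card ι ≤ 56 * d) (z : W ι)
    {T I J : Finset ι} (hT : T.card ≤ 5) (h1 : Disjoint I T) (h2 : Disjoint J T)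
    (h3 : Disjoint I J) (h4 : d ≤ 8 * I.card) (h5 : d ≤ 8 * J.card) :
    avg (fun Ω => ∏ p ∈ I ×ˢ J, ind (¬ ∀ w ∈ cell z T p, w ∈ Ω))
      ≤ Real.exp (-(4 * (Fintype.card ι : ℝ))) := by
  refine (avg_prod_le (I ×ˢ J) (cell z T) _ (Real.exp (-(1 / 2) ^ 32))
    (fun p _ => dep_cell z T p) (fun _ _ _ => ind_nonneg _) ?_ ?_).trans ?_
  · intro p hp q hq hne
    rw [mem_product] at hp hq
    rw [disjoint_left]
    intro w hw hw'
    obtain ⟨S, hS, rfl⟩ := mem_image.1 hw
    obtain ⟨S', hS', h⟩ := mem_image.1 hw'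
    rw [mem_powerset] at hS hS'
    have key : ∀ k, k ∉ T → (e q.1 : W ι) k + (e q.2 : W ι) k = (e p.1 : W ι) k + (e p.2 : W ι) k := by
      intro k hk
      have := congrFun h k
      simp only [Pi.add_apply, vec, if_neg (fun h => hk (hS h)), if_neg (fun h => hk (hS' h)),
        add_zero, add_assoc] at this
      exact add_left_cancel this
    have k1 := key p.1 (disjoint_left.1 h1 hp.1)
    have k2 := key p.2 (disjoint_left.1 h2 hp.2)
    have n1 : p.1 ≠ p.2 := fun h => disjoint_left.1 h3 hp.1 (h ▸ hp.2)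
    have n2 : p.1 ≠ q.2 := fun h => disjoint_left.1 h3 hp.1 (h ▸ hq.2)
    have n3 : p.2 ≠ q.1 := fun h => disjoint_left.1 h3 hq.1 (h ▸ hp.2)
    simp [e_apply, n1, n2, n3, n1.symm] at k1 k2
    exact hne (Prod.ext k1 k2)
  · intro p _
    simp only [ind_not]
    rw [avg_sub, avg_const]
    have := avg_pattern (cell z T p) univ
    simp only [mem_univ, iff_true] at this
    rw [this]
    have h6 : (1 / 2 : ℝ) ^ 32 ≤ (1 / 2) ^ (cell z T p).card :=
      pow_le_pow_of_le_one (by norm_num) (by norm_num) (card_cell z hT p)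
    linarith [Real.add_one_le_exp (-(1 / 2 : ℝ) ^ 32)]
  · rw [← Real.exp_nat_mul, card_product]
    apply Real.exp_le_exp.2
    have a1 : (2 : ℝ) ^ 46 ≤ d := by exact_mod_cast hd
    have a2 : (Fintype.card ι : ℝ) ≤ 56 * d := by exact_mod_cast hm
    have a4 : (d : ℝ) ≤ 8 * I.card := by exact_mod_cast h4
    have a5 : (d : ℝ) ≤ 8 * J.card := by exact_mod_cast h5
    have a6 : (d : ℝ) * d ≤ (8 * I.card) * (8 * J.card) := by gcongr
    have a7 : (2 : ℝ) ^ 46 * d ≤ d * d := by gcongr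
    push_cast
    nlinarith

lemma mono_prob (y : W ι) :
    avg (fun Ω => ind ((∀ w ∈ nb y univ, w ∈ Ω) ∨ ∀ w ∈ nb y univ, w ∉ Ω))
      ≤ 2 * (1 / 2) ^ Fintype.card ι := by
  refine (avg_mono fun Ω => ind_or _ _).trans ?_
  rw [avg_add]
  have h1 := avg_pattern (nb y univ) univ
  have h2 := avg_pattern (nb y univ) ∅
  simp only [mem_univ, iff_true, notMem_empty, iff_false, card_nb, card_univ] at h1 h2
  rw [h1, h2]; linarith

lemma dep_shifts (V Y C : Finset (W ι)) :
    Dep (fun Ω => ind (∀ v ∈ V, ¬ ∀ u ∈ Y, (u + v ∈ Ω ↔ u ∈ C)))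
      (V.biUnion (fun v => Y.image (· + v))) := by
  intro Ω Ω' h
  apply ind_congr
  refine forall₂_congr fun v hv => not_congr (forall₂_congr fun u hu => ?_)
  rw [h _ (mem_biUnion.2 ⟨v, hv, mem_image_of_mem _ hu⟩)]

lemma shifts_prob {L : ℕ} (hL : 1 ≤ L) (Y C : Finset (W ι)) (hY : Y.card ≤ L) (t : ℕ) :
    ∀ V : Finset (W ι), t * L ^ 2 ≤ V.card →
      avg (fun Ω => ind (∀ v ∈ V, ¬ ∀ u ∈ Y, (u + v ∈ Ω ↔ u ∈ C))) ≤ (1 - (1 / 2) ^ L) ^ t := by
  induction t with
  | zero => intro V _; simpa using avg_le_const fun _ => ind_le_one _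
  | succ t ih =>
    intro V hV
    obtain ⟨v₀, hv₀⟩ : V.Nonempty := card_pos.1 (lt_of_lt_of_le (by positivity) hV)
    set V' := V \ (image₂ (fun a b => a + b + v₀) Y Y) with hV'
    have h1 : t * L ^ 2 ≤ V'.card := by
      have h2 := le_card_sdiff (image₂ (fun a b => a + b + v₀) Y Y) V
      have h3 := card_image₂_le (fun a b => a + b + v₀) Y Y
      have h4 : Y.card * Y.card ≤ L ^ 2 := by rw [pow_two]; exact Nat.mul_le_mul hY hY
      rw [add_mul] at hV
      rw [← hV'] at h2
      omega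
    have h2 : ∀ Ω : Finset (W ι), ind (∀ v ∈ V, ¬ ∀ u ∈ Y, (u + v ∈ Ω ↔ u ∈ C)) ≤
        ind (∀ v ∈ V', ¬ ∀ u ∈ Y, (u + v ∈ Ω ↔ u ∈ C)) *
          ind (∀ v ∈ ({v₀} : Finset (W ι)), ¬ ∀ u ∈ Y, (u + v ∈ Ω ↔ u ∈ C)) := by
      intro Ω
      rw [← ind_and]
      exact ind_mono fun h => ⟨fun v hv => h v (sdiff_subset hv),
        fun v hv => h v (by rw [mem_singleton.1 hv]; exact hv₀)⟩
    refine (avg_mono h2).trans ?_
    rw [avg_mul_indep (dep_shifts V' Y C) (dep_shifts {v₀} Y C), pow_succ]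
    · have h0 : (0 : ℝ) ≤ 1 - (1 / 2) ^ L := by
        have : (1 / 2 : ℝ) ^ L ≤ 1 := pow_le_one₀ (by norm_num) (by norm_num)
        linarith
      refine mul_le_mul (ih V' h1) ?_ (avg_nonneg fun _ => ind_nonneg _) (by positivity)
      simp only [mem_singleton, forall_eq, ind_not]
      rw [avg_sub, avg_const]
      have h3 := avg_pattern (Y.image (· + v₀)) (C.image (· + v₀))
      have h4 : ∀ Ω : Finset (W ι), (∀ w ∈ Y.image (· + v₀), (w ∈ Ω ↔ w ∈ C.image (· + v₀))) ↔
          ∀ u ∈ Y, (u + v₀ ∈ Ω ↔ u ∈ C) := by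
        intro Ω
        rw [forall_mem_image]
        refine forall₂_congr fun u _ => iff_congr Iff.rfl ?_
        exact (add_left_injective v₀).mem_finset_image
      simp only [h4] at h3
      rw [h3]
      have h6 : (1 / 2 : ℝ) ^ L ≤ (1 / 2) ^ (Y.image (· + v₀)).card :=
        pow_le_pow_of_le_one (by norm_num) (by norm_num) (card_image_le.trans hY)
      linarith
    · rw [disjoint_left]
      intro w hw hw'
      obtain ⟨v, hv, hw⟩ := mem_biUnion.1 hw
      obtain ⟨u, hu, rfl⟩ := mem_image.1 hw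
      rw [singleton_biUnion] at hw'
      obtain ⟨u', hu', h⟩ := mem_image.1 hw'
      refine (mem_sdiff.1 hv).2 (mem_image₂.2 ⟨u, hu, u', hu', ?_⟩)
      rw [add_assoc, h, add_add_cancel_left]

end Pool.Agent.P.MP_38a0b7_co
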