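import Pool.Agent.P.MP_38a0b7_co.Cube

/-! Edge weights, pushing defects, and Hall's condition from an approximate fractional matching. -/

set_option linter.unusedSectionVars false

namespace Pool.Agent.P.MP_38a0b7_co

open Finset

variable {ι : Type*} [Fintype ι] [DecidableEq ι]

/-- degree into `Γ` in the directions `D` -/
def deg (Γ : Finset (W ι)) (D : Finset ι) (x : W ι) : ℕ := (D.filter (fun i => x + e i ∈ Γ)).card

/-- truncated reciprocal degree -/
noncomputable def nrm (d : ℕ) (Γ : Finset (W ι)) (D : Finset ι) (y : W ι) : ℝ :=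
  if d ≤ 4 * deg Γ D y then 1 / (deg Γ D y : ℝ) else 0

/-- one pushing step -/
noncomputable def push (d : ℕ) (Γ : Finset (W ι)) (D : Finset ι) (h : W ι → ℝ) (x : W ι) : ℝ :=
  -∑ i ∈ D, if x + e i ∈ Γ then nrm d Γ D (x + e i) * h (x + e i) else 0

/-- weighted degree -/
noncomputable def dv (Γ : Finset (W ι)) (c : W ι → ι → ℝ) (x : W ι) : ℝ :=
  ∑ i, if x + e i ∈ Γ then c x i else 0

/-- edge functions -/
def Sy (c : W ι → ι → ℝ) : Prop := ∀ x i, c (x + e i) i = c x i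

/-- iterated pushing -/
noncomputable def sq (d : ℕ) (Γ : Finset (W ι)) (σ : ℕ → Finset ι) (h : W ι → ℝ) :
    ℕ → W ι → ℝ
  | 0 => h
  | k + 1 => push d Γ (σ (k + 1)) (sq d Γ σ h k)

lemma deg_le (Γ : Finset (W ι)) (D : Finset ι) (x : W ι) : deg Γ D x ≤ D.card :=
  card_filter_le _ _

lemma abs_nrm_le {d : ℕ} (hd : 0 < d) (Γ : Finset (W ι)) (D : Finset ι) (y : W ι) :
    |nrm d Γ D y| ≤ 4 / d := by
  unfold nrm
  split_ifs with h
  · have h1 : (d : ℝ) ≤ 4 * deg Γ D y := by exact_mod_cast h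
    have h2 : (0 : ℝ) < d := by exact_mod_cast hd
    have h3 : (0 : ℝ) < deg Γ D y := by linarith
    rw [abs_of_nonneg (by positivity), div_le_div_iff₀ h3 h2]; linarith
  · simp; positivity

lemma abs_push_le' {d : ℕ} (hd : 0 < d) (Γ : Finset (W ι)) (D : Finset ι) (h : W ι → ℝ)
    (x : W ι) : |push d Γ D h x| ≤ 4 / d * ∑ i ∈ D, |h (x + e i)| := by
  unfold push
  rw [abs_neg, mul_sum]
  refine (abs_sum_le_sum_abs _ _).trans (sum_le_sum fun i _ => ?_)
  split_ifs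
  · rw [abs_mul]; exact mul_le_mul_of_nonneg_right (abs_nrm_le hd _ _ _) (abs_nonneg _)
  · simp; positivity

lemma abs_push_le {d : ℕ} (hd : 0 < d) (Γ : Finset (W ι)) {D : Finset ι} (hD : D.card ≤ 2 * d)
    {h : W ι → ℝ} {b : ℝ} (hb : ∀ y, |h y| ≤ b) (x : W ι) : |push d Γ D h x| ≤ 8 * b := by
  refine (abs_push_le' hd Γ D h x).trans ?_
  have h0 : 0 ≤ b := (abs_nonneg _).trans (hb 0)
  have h1 : ∑ i ∈ D, |h (x + e i)| ≤ 2 * d * b := by
    refine (sum_le_card_nsmul _ _ b fun i _ => hb _).trans ?_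
    rw [nsmul_eq_mul]
    have : (D.card : ℝ) ≤ 2 * d := by exact_mod_cast hD
    gcongr
  have h2 : (0 : ℝ) < d := by exact_mod_cast hd
  calc 4 / (d : ℝ) * ∑ i ∈ D, |h (x + e i)| ≤ 4 / d * (2 * d * b) := by gcongr
    _ = 8 * b := by field_simp; ring

lemma abs_sq_le {d : ℕ} (hd : 0 < d) (Γ : Finset (W ι)) {σ : ℕ → Finset ι}
    (hσ : ∀ k, (σ k).card ≤ 2 * d) {h : W ι → ℝ} {b : ℝ} (hb : ∀ y, |h y| ≤ b) (k : ℕ) :
    ∀ x, |sq d Γ σ h k x| ≤ 8 ^ k * b := by
  induction k with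
  | zero => simpa [sq] using hb
  | succ k ih =>
    intro x
    have := abs_push_le hd Γ (hσ (k + 1)) ih x
    rw [pow_succ]; simp only [sq]; linarith

lemma dv_add (Γ : Finset (W ι)) (c c' : W ι → ι → ℝ) (x : W ι) :
    dv Γ (fun y i => c y i + c' y i) x = dv Γ c x + dv Γ c' x := by
  unfold dv
  rw [← sum_add_distrib]
  refine sum_congr rfl fun i _ => ?_
  split_ifs <;> simp

lemma dv_sum {α : Type*} (s : Finset α) (Γ : Finset (W ι)) (c : α → W ι → ι → ℝ) (x : W ι) :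
    dv Γ (fun y i => ∑ a ∈ s, c a y i) x = ∑ a ∈ s, dv Γ (c a) x := by
  unfold dv
  rw [sum_comm]
  refine sum_congr rfl fun i _ => ?_
  split_ifs <;> simp

lemma one_step {d : ℕ} (hd : 0 < d) (Γ : Finset (W ι)) (D : Finset ι) (h : W ι → ℝ) {b : ℝ}
    (hb : ∀ y, |h y| ≤ b) :
    ∃ c : W ι → ι → ℝ, Sy c ∧ (∀ x i, |c x i| ≤ 8 / d * b) ∧
      ∀ x, d ≤ 4 * deg Γ D x → dv Γ c x = h x - push d Γ D h x := by
  have h0 : 0 ≤ b := (abs_nonneg _).trans (hb 0)
  refine ⟨fun x i => if i ∈ D then nrm d Γ D x * h x + nrm d Γ D (x + e i) * h (x + e i) else 0,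
    ?_, ?_, ?_⟩
  · intro x i
    beta_reduce
    rw [add_add_cancel, add_comm (nrm d Γ D x * h x)]
  · intro x i
    have key : ∀ y, |nrm d Γ D y * h y| ≤ 4 / d * b := fun y => by
      rw [abs_mul]
      exact mul_le_mul (abs_nrm_le hd _ _ _) (hb y) (abs_nonneg _) (by positivity)
    beta_reduce
    split_ifs
    · refine (abs_add_le _ _).trans ?_
      have e8 : 8 / (d : ℝ) * b = 4 / d * b + 4 / d * b := by ring
      linarith [key x, key (x + e i)]
    · simp; positivity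
  · intro x hx
    have h3 : (0 : ℝ) < deg Γ D x := by
      have : 0 < deg Γ D x := by omega
      exact_mod_cast this
    have e1 : h x = ∑ i ∈ D, if x + e i ∈ Γ then nrm d Γ D x * h x else 0 := by
      rw [← sum_filter, sum_const, nsmul_eq_mul]
      change _ = (deg Γ D x : ℝ) * _
      rw [nrm, if_pos hx]; field_simp
    unfold dv push
    rw [sub_neg_eq_add]
    conv_rhs => rw [e1]
    rw [← sum_add_distrib, ← sum_subset (subset_univ D)]
    · refine sum_congr rfl fun i hi => ?_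
      simp only [hi, if_true]
      split_ifs <;> simp
    · intro i _ hi; simp [hi]

lemma exists_flow {d : ℕ} (hd : 0 < d) (Γ : Finset (W ι)) (σ : ℕ → Finset ι) (h : W ι → ℝ)
    {b : ℝ} (ρ : ℕ) (hb : ∀ t < ρ, ∀ y, |sq d Γ σ h t y| ≤ b) :
    ∃ c : W ι → ι → ℝ, Sy c ∧ (∀ x i, |c x i| ≤ ρ * (8 / d * b)) ∧
      ∀ x, (∀ t, d ≤ 4 * deg Γ (σ t) x) → dv Γ c x = h x - sq d Γ σ h ρ x := by
  induction ρ with
  | zero => exact ⟨fun _ _ => 0, fun _ _ => rfl, by simp, by simp [dv, sq]⟩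
  | succ k ih =>
    obtain ⟨c, h1, h2, h3⟩ := ih fun t ht => hb t (by omega)
    obtain ⟨c', g1, g2, g3⟩ := one_step hd Γ (σ (k + 1)) _ (hb k (by omega))
    refine ⟨fun x i => c x i + c' x i, fun x i => by beta_reduce; rw [h1, g1], fun x i => ?_,
      fun x hx => ?_⟩
    · refine (abs_add_le _ _).trans ?_
      push_cast
      linarith [h2 x i, g2 x i]
    · rw [dv_add, h3 x hx, g3 x (hx _)]; simp [sq]

/-- union of the first classes -/
def cum (σ : ℕ → Finset ι) (k : ℕ) : Finset ι := (range (k + 1)).biUnion σ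

lemma cum_succ (σ : ℕ → Finset ι) (k : ℕ) : cum σ (k + 1) = σ (k + 1) ∪ cum σ k := by
  unfold cum; rw [range_add_one (n := k + 1), biUnion_insert]

/-- number of sources that can reach `x` -/
def cnt (Z : Finset (W ι)) (σ : ℕ → Finset ι) (k : ℕ) (x : W ι) : ℕ :=
  (Z.filter (fun u => supp (x + u) ⊆ cum σ k ∧ (supp (x + u)).card ≤ k + 1)).card

lemma cnt_le (Z : Finset (W ι)) (σ : ℕ → Finset ι) (k : ℕ) (x : W ι) :
    cnt Z σ k x ≤ (Z ∩ ball x (k + 1)).card := by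
  apply card_le_card
  intro u hu
  rw [mem_filter] at hu
  exact mem_inter.2 ⟨hu.1, mem_ball.2 hu.2.2⟩

lemma cnt_step (Z : Finset (W ι)) (σ : ℕ → Finset ι) (k : ℕ)
    (hσ : Disjoint (σ (k + 1)) (cum σ k)) (x : W ι) :
    ∑ i ∈ σ (k + 1), cnt Z σ k (x + e i) ≤ cnt Z σ (k + 1) x := by
  unfold cnt
  rw [← card_biUnion]
  · apply card_le_card
    intro u hu
    obtain ⟨i, hi, hu⟩ := mem_biUnion.1 hu
    rw [mem_filter] at hu ⊢
    have e1 : x + u = (x + e i + u) + e i := by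
      rw [add_right_comm x (e i) u, add_add_cancel]
    refine ⟨hu.1, ?_, ?_⟩
    · rw [e1, cum_succ]
      refine (supp_add_subset _ _).trans (union_subset (hu.2.1.trans subset_union_right) ?_)
      simp [hi]
    · rw [e1]
      refine (card_supp_add _ _).trans ?_
      have := hu.2.2
      simp only [supp_e, card_singleton]; omega
  · intro i hi j hj hij
    rw [Function.onFun, disjoint_left]
    intro u hu hu'
    rw [mem_filter] at hu hu'
    have e1 : (x + e i + u) + (x + e j + u) = e i + e j := by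
      have : (x + e i + u) + (x + e j + u) = (x + x) + (u + u) + (e i + e j) := by abel
      rw [this]; simp
    have h2 := (supp_add_subset (x + e i + u) (x + e j + u)).trans
      (union_subset hu.2.1 hu'.2.1)
    rw [e1, supp_e_add_e hij] at h2
    exact disjoint_left.1 hσ hi (h2 (by simp))

lemma abs_sq_sparse {d : ℕ} (hd : 0 < d) (Γ Z : Finset (W ι)) (σ : ℕ → Finset ι) (h : W ι → ℝ)
    {M : ℝ} (hM : 0 ≤ M) (h0 : ∀ x, |h x| ≤ M * cnt Z σ 0 x) (k : ℕ)
    (hσ : ∀ t < k, Disjoint (σ (t + 1)) (cum σ t)) :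
    ∀ x, |sq d Γ σ h k x| ≤ M * (4 / d) ^ k * cnt Z σ k x := by
  induction k with
  | zero => simpa [sq] using h0
  | succ k ih =>
    intro x
    have ih := ih fun t ht => hσ t (by omega)
    refine (abs_push_le' hd Γ _ _ x).trans ?_
    have h1 : ∑ i ∈ σ (k + 1), |sq d Γ σ h k (x + e i)|
        ≤ M * (4 / d) ^ k * cnt Z σ (k + 1) x := by
      refine (sum_le_sum fun i _ => ih (x + e i)).trans ?_
      rw [← mul_sum]
      have : ∑ i ∈ σ (k + 1), (cnt Z σ k (x + e i) : ℝ) ≤ cnt Z σ (k + 1) x := by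
        exact_mod_cast cnt_step Z σ k (hσ k (by omega)) x
      gcongr
    calc 4 / (d : ℝ) * ∑ i ∈ σ (k + 1), |sq d Γ σ h k (x + e i)|
        ≤ 4 / d * (M * (4 / d) ^ k * cnt Z σ (k + 1) x) := by gcongr
      _ = _ := by ring

/-- sign of a vertex -/
noncomputable def sg (x : W ι) : ℝ := if par x = 0 then 1 else -1

lemma sg_add_e (x : W ι) (i : ι) : sg (x + e i) = - sg x := by
  unfold sg
  rw [par_add_e]
  rcases z2_cases (par x) with h | h <;> simp [h, z2_add_self]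

lemma abs_sg (x : W ι) : |sg x| = 1 := by unfold sg; split_ifs <;> simp

/-- directed edge boundary inside `Γ` -/
def bdIn (Γ X : Finset (W ι)) : Finset (W ι × ι) :=
  univ.filter (fun p => p.1 ∈ X ∧ p.1 + e p.2 ∈ Γ ∧ p.1 + e p.2 ∉ X)

lemma sum_sg_dv_self (X : Finset (W ι)) {c : W ι → ι → ℝ} (hc : Sy c) :
    ∑ x ∈ X, sg x * dv X c x = 0 := by
  have h1 : ∑ x ∈ X, sg x * dv X c x
      = ∑ p : W ι × ι, if p.1 ∈ X ∧ p.1 + e p.2 ∈ X then sg p.1 * c p.1 p.2 else 0 := by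
    rw [Fintype.sum_prod_type, ← sum_subset (subset_univ X)]
    · refine sum_congr rfl fun x hx => ?_
      unfold dv
      rw [mul_sum]
      refine sum_congr rfl fun i _ => ?_
      simp [hx]
    · intro x _ hx; simp [hx]
  let f : W ι × ι ≃ W ι × ι :=
    Function.Involutive.toPerm (fun p => (p.1 + e p.2, p.2)) (fun p => by simp)
  have h2 := Equiv.sum_comp f
    (fun p : W ι × ι => if p.1 ∈ X ∧ p.1 + e p.2 ∈ X then sg p.1 * c p.1 p.2 else 0)
  have h3 : ∑ p : W ι × ι, (fun p : W ι × ι =>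
      if p.1 ∈ X ∧ p.1 + e p.2 ∈ X then sg p.1 * c p.1 p.2 else 0) (f p)
      = -∑ p : W ι × ι, if p.1 ∈ X ∧ p.1 + e p.2 ∈ X then sg p.1 * c p.1 p.2 else 0 := by
    rw [← sum_neg_distrib]
    refine sum_congr rfl fun p _ => ?_
    change (if p.1 + e p.2 ∈ X ∧ p.1 + e p.2 + e p.2 ∈ X then
      sg (p.1 + e p.2) * c (p.1 + e p.2) p.2 else 0) = _
    rw [add_add_cancel, sg_add_e, hc]
    by_cases h : p.1 ∈ X ∧ p.1 + e p.2 ∈ X
    · rw [if_pos h, if_pos h.symm]; ring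
    · rw [if_neg h, if_neg fun h' => h h'.symm]; ring
  rw [h1]
  linarith

lemma sum_sg_dv {Γ X : Finset (W ι)} (hX : X ⊆ Γ) {c : W ι → ι → ℝ} (hc : Sy c) :
    ∑ x ∈ X, sg x * dv Γ c x = ∑ p ∈ bdIn Γ X, sg p.1 * c p.1 p.2 := by
  have h1 := sum_sg_dv_self X hc
  have h2 : ∑ p ∈ bdIn Γ X, sg p.1 * c p.1 p.2
      = ∑ x ∈ X, sg x * (dv Γ c x - dv X c x) := by
    rw [bdIn, sum_filter, Fintype.sum_prod_type, ← sum_subset (subset_univ X)]
    · refine sum_congr rfl fun x hx => ?_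
      unfold dv
      rw [← sum_sub_distrib, mul_sum]
      refine sum_congr rfl fun i _ => ?_
      by_cases h1 : x + e i ∈ X
      · simp [h1, hX h1]
      · by_cases h2 : x + e i ∈ Γ <;> simp [hx, h1, h2]
    · intro x _ hx; simp [hx]
  rw [h2]
  simp only [mul_sub, sum_sub_distrib, h1, sub_zero]

lemma hall_on {α β : Type*} [DecidableEq β] [Nonempty β] (A : Finset α) (t : α → Finset β)
    (h : ∀ S ⊆ A, S.card ≤ (S.biUnion t).card) :
    ∃ f : α → β, Set.InjOn f A ∧ ∀ x ∈ A, f x ∈ t x := by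
  classical
  obtain ⟨f, hf, hf'⟩ := (all_card_le_biUnion_card_iff_exists_injective
    (fun x : A => t x)).1 (fun S => by
      have := h (S.image Subtype.val) (fun x hx => by
        obtain ⟨y, -, rfl⟩ := mem_image.1 hx; exact y.2)
      rwa [card_image_of_injective _ Subtype.val_injective, image_biUnion] at this)
  refine ⟨fun x => if hx : x ∈ A then f ⟨x, hx⟩ else Classical.arbitrary β, ?_, ?_⟩
  · intro x hx y hy hxy
    have hx' : x ∈ A := hx
    have hy' : y ∈ A := hy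
    simp only [hx', hy', dif_pos] at hxy
    exact congrArg Subtype.val (hf hxy)
  · intro x hx
    simp only [hx, dif_pos]
    exact hf' ⟨x, hx⟩

/-- the even vertices of `Γ` can be matched into `Γ` -/
def Mat (Γ : Finset (W ι)) : Prop :=
  ∃ μ : W ι → W ι, Set.InjOn μ (Γ.filter (fun x => par x = 0)) ∧
    ∀ x ∈ Γ, par x = 0 → μ x ∈ Γ ∧ ∃ i, μ x = x + e i

lemma mat_of_flow (Γ : Finset (W ι)) (hbal : ∑ x ∈ Γ, sg x = 0) {c : W ι → ι → ℝ} (hc : Sy c)
    {η ε : ℝ} (hη : ∀ x i, η ≤ c x i) (hε : ∀ x ∈ Γ, |1 - dv Γ c x| ≤ ε)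
    (hexp : ∀ X ⊆ Γ, ε * min (X.card : ℝ) (Γ \ X).card ≤ η * (bdIn Γ X).card) : Mat Γ := by
  obtain ⟨f, hf, hf'⟩ := hall_on (Γ.filter (fun x => par x = 0)) (fun x => nb x univ ∩ Γ) (by
    intro S hS
    set T := S.biUnion (fun x => nb x univ ∩ Γ) with hT
    have hSe : ∀ x ∈ S, par x = 0 := fun x hx => (mem_filter.1 (hS hx)).2
    have hTo : ∀ y ∈ T, par y = 1 := by
      intro y hy
      obtain ⟨x, hx, hy⟩ := mem_biUnion.1 hy
      obtain ⟨i, -, rfl⟩ := mem_nb.1 (mem_inter.1 hy).1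
      rw [par_add_e, hSe x hx, zero_add]
    have hdisj : Disjoint S T := by
      rw [disjoint_left]; intro x h1 h2
      have := hTo x h2
      rw [hSe x h1] at this
      exact zero_ne_one this
    have hX : S ∪ T ⊆ Γ := by
      apply union_subset (hS.trans (filter_subset _ _))
      intro y hy
      obtain ⟨x, hx, hy⟩ := mem_biUnion.1 hy
      exact (mem_inter.1 hy).2
    have h1 : ∑ x ∈ S ∪ T, sg x = (S.card : ℝ) - T.card := by
      rw [sum_union hdisj, sum_congr rfl (g := fun _ => (1 : ℝ)) (fun x hx => by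
        simp [sg, hSe x hx]), sum_congr rfl (g := fun _ => (-1 : ℝ)) (s₂ := T) (fun x hx => by
        simp [sg, hTo x hx])]
      simp; ring
    have h2 : ∑ x ∈ S ∪ T, sg x * dv Γ c x ≤ -(η * (bdIn Γ (S ∪ T)).card) := by
      rw [sum_sg_dv hX hc]
      refine (sum_le_card_nsmul _ _ (-η) fun p hp => ?_).trans (by simp [mul_comm])
      simp only [bdIn, mem_filter, mem_univ, true_and] at hp
      have : p.1 ∈ T := by
        rcases mem_union.1 hp.1 with h | h
        · exfalso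
          apply hp.2.2
          exact mem_union_right _ (mem_biUnion.2 ⟨p.1, h,
            mem_inter.2 ⟨mem_nb.2 ⟨p.2, mem_univ _, rfl⟩, hp.2.1⟩⟩)
        · exact h
      have h5 : sg p.1 = -1 := by simp [sg, hTo _ this]
      rw [h5]; linarith [hη p.1 p.2]
    have bound : ∀ Y ⊆ Γ, |∑ x ∈ Y, sg x * (1 - dv Γ c x)| ≤ ε * Y.card := by
      intro Y hY
      refine (abs_sum_le_sum_abs _ _).trans ((sum_le_card_nsmul _ _ ε fun x hx => ?_).trans
        (by simp [mul_comm]))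
      rw [abs_mul, abs_sg, one_mul]; exact hε x (hY hx)
    have tot : ∑ x ∈ Γ, sg x * (1 - dv Γ c x) = 0 := by
      simp only [mul_sub, mul_one, sum_sub_distrib, hbal, sum_sg_dv_self Γ hc, sub_zero]
    have split := sum_sdiff (f := fun x => sg x * (1 - dv Γ c x)) hX
    have b1 := bound _ hX
    have b2 := bound (Γ \ (S ∪ T)) sdiff_subset
    have h3 : ∑ x ∈ S ∪ T, sg x * (1 - dv Γ c x)
        ≤ ε * min ((S ∪ T).card : ℝ) (Γ \ (S ∪ T)).card := by
      rcases min_cases ((S ∪ T).card : ℝ) (Γ \ (S ∪ T)).card with h | h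
      · rw [h.1]; exact (le_abs_self _).trans b1
      · rw [h.1]
        have := neg_le_abs (∑ x ∈ Γ \ (S ∪ T), sg x * (1 - dv Γ c x))
        linarith
    have h4 := hexp _ hX
    simp only [mul_sub, mul_one, sum_sub_distrib] at h3
    have : (S.card : ℝ) ≤ T.card := by linarith
    exact_mod_cast this)
  refine ⟨f, hf, fun x hx hp => ?_⟩
  have := mem_inter.1 (hf' x (mem_filter.2 ⟨hx, hp⟩))
  obtain ⟨i, -, hi⟩ := mem_nb.1 this.1
  exact ⟨this.2, i, hi.symm⟩

lemma Mat.glue {Γ₁ Γ₂ : Finset (W ι)} (hd : Disjoint Γ₁ Γ₂) (h1 : Mat Γ₁) (h2 : Mat Γ₂) :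
    ∃ μ : W ι → W ι, Set.InjOn μ ((Γ₁ ∪ Γ₂).filter (fun x => par x = 0)) ∧
      (∀ x ∈ Γ₁, par x = 0 → μ x ∈ Γ₁ ∧ ∃ i, μ x = x + e i) ∧
      (∀ x ∈ Γ₂, par x = 0 → μ x ∈ Γ₂ ∧ ∃ i, μ x = x + e i) := by
  obtain ⟨μ₁, a1, b1⟩ := h1
  obtain ⟨μ₂, a2, b2⟩ := h2
  refine ⟨fun x => if x ∈ Γ₁ then μ₁ x else μ₂ x, ?_, ?_, ?_⟩
  · intro x hx y hy hxy
    simp only [coe_filter, mem_union, Set.mem_ofPred_eq] at hx hy
    by_cases hx1 : x ∈ Γ₁ <;> by_cases hy1 : y ∈ Γ₁ <;> simp only [hx1, hy1, if_true, if_false]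
      at hxy
    · exact a1 (by simp [hx1, hx.2]) (by simp [hy1, hy.2]) hxy
    · exact absurd (hxy ▸ (b1 x hx1 hx.2).1)
        (disjoint_right.1 hd (b2 y (hy.1.resolve_left hy1) hy.2).1)
    · exact absurd (hxy ▸ (b2 x (hx.1.resolve_left hx1) hx.2).1)
        (disjoint_left.1 hd (b1 y hy1 hy.2).1)
    · exact a2 (by simp [hx.1.resolve_left hx1, hx.2]) (by simp [hy.1.resolve_left hy1, hy.2]) hxy
  · intro x hx hp; simp only [hx, if_true]; exact b1 x hx hp
  · intro x hx hp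
    simp only [disjoint_right.1 hd hx, if_false]; exact b2 x hx hp

lemma Mat.union {Γ₁ Γ₂ : Finset (W ι)} (hd : Disjoint Γ₁ Γ₂) (h1 : Mat Γ₁) (h2 : Mat Γ₂) :
    Mat (Γ₁ ∪ Γ₂) := by
  obtain ⟨μ, a, b1, b2⟩ := Mat.glue hd h1 h2
  refine ⟨μ, a, fun x hx hp => ?_⟩
  rcases mem_union.1 hx with h | h
  · exact ⟨mem_union_left _ (b1 x h hp).1, (b1 x h hp).2⟩
  · exact ⟨mem_union_right _ (b2 x h hp).1, (b2 x h hp).2⟩

end Pool.Agent.P.MP_38a0b7_co
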