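import Pool.Agent.P.MP_38a0b7_co.Events

/-! Union bounds under the measure conditioned on both parity classes being half filled. -/

set_option linter.unusedSectionVars false
set_option exponentiation.threshold 400

namespace Pool.Agent.P.MP_38a0b7_co

open Finset

variable {ι : Type*} [Fintype ι] [DecidableEq ι]

/-- parity class -/
def side (ι : Type*) [Fintype ι] [DecidableEq ι] (b : ZMod 2) : Finset (W ι) :=
  univ.filter (fun x => par x = b)

lemma mem_side {b : ZMod 2} {x : W ι} : x ∈ side ι b ↔ par x = b := by simp [side]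

lemma card_side {n : ℕ} (hm : Fintype.card ι = n + 1) (b : ZMod 2) :
    (side ι b).card = 2 ^ n := by
  obtain ⟨i⟩ : Nonempty ι := Fintype.card_pos_iff.1 (by omega)
  have h1 : ∀ b, (side ι b).card ≤ (side ι (b + 1)).card := by
    intro b
    apply card_le_card_of_injOn (· + e i)
    · intro x hx
      simp only [mem_coe, mem_side] at hx ⊢
      rw [par_add_e, hx]
    · exact (add_left_injective _).injOn
  have h2 : (side ι 0).card + (side ι 1).card = 2 ^ (n + 1) := by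
    rw [← hm, ← card_W, ← card_univ,
      ← card_filter_add_card_filter_not (s := univ) (fun x : W ι => par x = 0)]
    congr 2
    exact filter_congr fun x _ => (z2_ne _).symm
  have h3 := h1 0
  have h4 := h1 1
  rw [zero_add] at h3
  rw [z2_add_self] at h4
  rcases z2_cases b with rfl | rfl <;> omega

/-- both parity classes are half filled -/
def Half (n : ℕ) (Ω : Finset (W ι)) : Prop :=
  ∀ b, ((side ι b).filter (· ∈ Ω)).card = 2 ^ (n - 1)

/-- unnormalised conditional average -/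
noncomputable def hv (n : ℕ) (F : Finset (W ι) → ℝ) : ℝ := avg (fun Ω => F Ω * ind (Half n Ω))

lemma hv_mono {n : ℕ} {F G : Finset (W ι) → ℝ} (h : ∀ Ω, Half n Ω → F Ω ≤ G Ω) :
    hv n F ≤ hv n G := by
  apply avg_mono
  intro Ω
  by_cases hΩ : Half n Ω
  · simpa [ind_of hΩ] using h Ω hΩ
  · simp [ind_of_not hΩ]

lemma hv_add (n : ℕ) (F G : Finset (W ι) → ℝ) :
    hv n (fun Ω => F Ω + G Ω) = hv n F + hv n G := by
  simp only [hv, add_mul, avg_add]

lemma hv_mul_left (n : ℕ) (c : ℝ) (F : Finset (W ι) → ℝ) :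
    hv n (fun Ω => c * F Ω) = c * hv n F := by
  simp only [hv, mul_assoc, avg_mul_left]

lemma hv_sum (n : ℕ) {α : Type*} (s : Finset α) (F : α → Finset (W ι) → ℝ) :
    hv n (fun Ω => ∑ a ∈ s, F a Ω) = ∑ a ∈ s, hv n (F a) := by
  simp only [hv, sum_mul, avg_sum]

lemma hv_equiv {n : ℕ} (f : Finset (W ι) ≃ Finset (W ι)) (hf : ∀ Ω, Half n (f Ω) ↔ Half n Ω)
    (F : Finset (W ι) → ℝ) : hv n (fun Ω => F (f Ω)) = hv n F := by
  unfold hv
  rw [← avg_equiv f (fun Ω => F Ω * ind (Half n Ω))]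
  simp only [hf]

lemma hv_local {n : ℕ} (hm : Fintype.card ι = n + 1) {F : Finset (W ι) → ℝ}
    (h0 : ∀ Ω, 0 ≤ F Ω) {R : Finset (W ι)} (hF : Dep F R) (hR : 2 * R.card ≤ 2 ^ n) :
    hv n F ≤ avg F * (4 * mid (2 ^ n) ^ 2) := by
  have e1 : hv n F = avg (fun Ω => (F Ω * ind (((side ι 1).filter (· ∈ Ω)).card = 2 ^ (n - 1)))
      * ind (((side ι 0).filter (· ∈ Ω)).card = 2 ^ (n - 1))) := by
    unfold hv
    congr 1; funext Ω
    rw [mul_assoc, ← ind_and]
    congr 1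
    apply ind_congr
    constructor
    · exact fun h => ⟨h 1, h 0⟩
    · intro h b
      rcases z2_cases b with rfl | rfl
      · exact h.2
      · exact h.1
  rw [e1]
  have h1 := transfer_one (side ι 1) R (2 ^ (n - 1)) h0 hF (by
    rw [card_side hm]
    exact le_trans (Nat.mul_le_mul_left _ (card_le_card inter_subset_right)) hR)
  have h2 := transfer_one (side ι 0) (R ∪ side ι 1) (2 ^ (n - 1))
    (F := fun Ω => F Ω * ind (((side ι 1).filter (· ∈ Ω)).card = 2 ^ (n - 1)))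
    (fun Ω => mul_nonneg (h0 Ω) (ind_nonneg _)) (by
      intro Ω Ω' h
      beta_reduce
      rw [hF.mono subset_union_left _ _ h,
        filter_congr (fun w hw => h w (mem_union_right _ hw))]) (by
    rw [card_side hm]
    refine le_trans (Nat.mul_le_mul_left _ (card_le_card fun x hx => ?_)) hR
    rw [mem_inter, mem_union, mem_side, mem_side] at hx
    exact hx.2.resolve_right (by rw [hx.1]; exact zero_ne_one))
  rw [card_side hm] at h1 h2
  have := mid_pos (2 ^ n)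
  calc _ ≤ _ := h2
    _ ≤ avg F * (2 * mid (2 ^ n)) * (2 * mid (2 ^ n)) := by gcongr
    _ = _ := by ring

lemma hv_union {n : ℕ} (hm : Fintype.card ι = n + 1) {α : Type*} (s : Finset α)
    (F : α → Finset (W ι) → ℝ) (R : α → Finset (W ι)) {c S : ℝ} (hc0 : 0 ≤ c)
    (hS : (s.card : ℝ) ≤ S) (h0 : ∀ a ∈ s, ∀ Ω, 0 ≤ F a Ω) (hF : ∀ a ∈ s, Dep (F a) (R a))
    (hR : ∀ a ∈ s, 2 * (R a).card ≤ 2 ^ n) (hc : ∀ a ∈ s, avg (F a) ≤ c) :
    hv n (fun Ω => ∑ a ∈ s, F a Ω) ≤ S * c * (4 * mid (2 ^ n) ^ 2) := by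
  rw [hv_sum]
  refine (sum_le_card_nsmul _ _ (c * (4 * mid (2 ^ n) ^ 2)) fun a ha =>
    (hv_local hm (h0 a ha) (hF a ha) (hR a ha)).trans (by gcongr; exact hc a ha)).trans ?_
  rw [nsmul_eq_mul, mul_assoc]
  gcongr

/-- the local regularity events -/
def Good (cls : ι → ZMod 28) (d K : ℕ) (Ω : Finset (W ι)) : Prop :=
  (∀ x, (badSet cls d Ω ∩ ball x 28).card ≤ K) ∧
  (∀ x y, deg Ω univ x ≤ 2 * K → y ∈ ball x 2 → y ≠ x → ¬ Bad cls d Ω y) ∧
  (∀ j, ∀ x ∈ Ω, |psh cls d Ω j 26 x| ≤ 1 / ((Fintype.card ι : ℝ) + 1) ^ 12) ∧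
  (∀ (z : W ι) (T I J : Finset ι), T.card ≤ 5 → Disjoint I T → Disjoint J T →
      Disjoint I J → d ≤ 8 * I.card → d ≤ 8 * J.card →
      ∃ i ∈ I, ∃ j ∈ J, ∀ S ⊆ T, z + e i + e j + vec S ∈ Ω)

/-- failure bound for the local events -/
noncomputable def beta (m d K : ℕ) : ℝ :=
  2 ^ m * (((m : ℝ) + 1) ^ 28) ^ (K + 1) * qb d ^ (K + 1)
    + 2 ^ m * ((m : ℝ) + 1) ^ 2 * (3 * (m : ℝ) ^ (2 * K) / 2 ^ m * qb d)
    + 28 * 2 ^ m * (2 * Real.exp (-(m : ℝ))) + 16 ^ m * Real.exp (-(4 * (m : ℝ)))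

lemma hv_not_good {n : ℕ} (hm : Fintype.card ι = n + 1) {cls : ι → ZMod 28} {d K : ℕ}
    (hK : 2 ^ 95 * (K + 1) ≤ d) (hd : 2 ^ 289 ≤ d) (hcl : ∀ j, d ≤ (cl cls j).card)
    (hcl' : ∀ j, (cl cls j).card ≤ 2 * d) (hn : 64 * (n + 1) ^ 2 ≤ 2 ^ n) :
    hv n (fun Ω => ind (¬ Good cls d K Ω)) ≤ beta (n + 1) d K * (4 * mid (2 ^ n) ^ 2) := by
  have hdm := le_card_of_cl cls hcl
  have hmd := card_le_of_cl cls hcl'
  let sA : Finset (Finset (W ι)) := univ.biUnion (fun x => powersetCard (K + 1) (ball x 28))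
  let sB : Finset (Σ _ : W ι, W ι) := univ.sigma (fun x => (ball x 2).erase x)
  let sD : Finset (W ι × Finset ι × Finset ι × Finset ι) := univ.filter (fun p =>
    p.2.1.card ≤ 5 ∧ Disjoint p.2.2.1 p.2.1 ∧ Disjoint p.2.2.2 p.2.1 ∧ Disjoint p.2.2.1 p.2.2.2 ∧
      d ≤ 8 * p.2.2.1.card ∧ d ≤ 8 * p.2.2.2.card)
  have hA := hv_union hm sA (fun Y Ω => ind (∀ y ∈ Y, Bad cls d Ω y))
    (fun Y => Y.biUnion (fun y => nb y univ)) (c := qb d ^ (K + 1))
    (S := 2 ^ (n + 1) * ((((n + 1 : ℕ) : ℝ) + 1) ^ 28) ^ (K + 1)) (pow_pos (qb_pos d) _).le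
    (by
      have : sA.card ≤ 2 ^ (n + 1) * ((n + 1 + 1) ^ 28) ^ (K + 1) := by
        refine (card_biUnion_le_card_mul _ _ (((n + 1 + 1) ^ 28) ^ (K + 1)) fun x _ => ?_).trans
          (by rw [card_univ, card_W, hm])
        rw [card_powersetCard]
        refine (Nat.choose_le_pow _ _).trans (Nat.pow_le_pow_left ?_ _)
        rw [← hm]; exact card_ball _ _
      exact_mod_cast this)
    (fun _ _ _ => ind_nonneg _) (fun Y _ => dep_all_bad cls d Y)
    (fun Y hY => by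
      obtain ⟨x, -, hx⟩ := mem_biUnion.1 hY
      have h1 := card_biUnion_le_card_mul Y (fun y => nb y univ) (n + 1) fun y _ => by
        rw [card_nb, card_univ, hm]
      rw [(mem_powersetCard.1 hx).2] at h1
      have : K + 1 ≤ n + 1 := by omega
      nlinarith)
    (fun Y hY => by
      obtain ⟨x, -, hx⟩ := mem_biUnion.1 hY
      have := all_bad hK hcl' Y (mem_powersetCard.1 hx).2.le
      rwa [(mem_powersetCard.1 hx).2] at this)
  have hB := hv_union hm sB (fun p Ω => ind (deg Ω univ p.1 ≤ 2 * K ∧ Bad cls d Ω p.2))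
    (fun p => nb p.1 univ ∪ nb p.2 univ)
    (c := 3 * ((n + 1 : ℕ) : ℝ) ^ (2 * K) / 2 ^ (n + 1) * qb d)
    (S := 2 ^ (n + 1) * (((n + 1 : ℕ) : ℝ) + 1) ^ 2) (by have := qb_pos d; positivity)
    (by
      have : sB.card ≤ 2 ^ (n + 1) * (n + 1 + 1) ^ 2 := by
        rw [card_sigma]
        refine (sum_le_card_nsmul _ _ ((n + 1 + 1) ^ 2) fun x _ => ?_).trans
          (by rw [card_univ, card_W, hm, smul_eq_mul])
        rw [← hm]; exact card_erase_le.trans (card_ball _ _)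
      exact_mod_cast this)
    (fun _ _ _ => ind_nonneg _) (fun p _ => dep_low_bad cls d _ _ _)
    (fun p _ => by
      have := card_union_le (nb p.1 univ) (nb p.2 univ)
      rw [card_nb, card_nb, card_univ, hm] at this
      nlinarith)
    (fun p hp => by
      rw [← hm]
      exact low_bad hK hcl' (by omega) (ne_of_mem_erase (mem_sigma.1 hp).2) _)
  have hC := hv_union hm (univ : Finset (ZMod 28 × W ι))
    (fun p Ω => ind (1 / ((Fintype.card ι : ℝ) + 1) ^ 12 < |HH cls d p.1 26 p.2 Ω|))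
    (fun p => sp p.2 (cum (sig cls p.1) 26)) (c := 2 * Real.exp (-((n + 1 : ℕ) : ℝ)))
    (S := 28 * 2 ^ (n + 1)) (by positivity)
    (by rw [card_univ, Fintype.card_prod, card_W, hm, ZMod.card]; push_cast; rfl)
    (fun _ _ _ => ind_nonneg _)
    (fun p _ => (dep_HH cls d p.1 26 p.2).comp
      (fun a => ind (1 / ((Fintype.card ι : ℝ) + 1) ^ 12 < |a|)))
    (fun p _ => by
      have := card_sp_cum (le_trans (by norm_num) hd) hcl p.1 p.2
      rw [hm, pow_succ] at this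
      omega)
    (fun p _ => by rw [← hm]; exact tail_HH hd hcl hcl' _ _)
  have hD := hv_union hm sD
    (fun p Ω => ∏ q ∈ p.2.2.1 ×ˢ p.2.2.2, ind (¬ ∀ w ∈ cell p.1 p.2.1 q, w ∈ Ω))
    (fun p => (p.2.2.1 ×ˢ p.2.2.2).biUnion (cell p.1 p.2.1))
    (c := Real.exp (-(4 * ((n + 1 : ℕ) : ℝ)))) (S := 16 ^ (n + 1)) (by positivity)
    (by
      have : sD.card ≤ 16 ^ (n + 1) := by
        refine (card_le_univ _).trans (le_of_eq ?_)
        simp only [Fintype.card_prod, Fintype.card_finset, card_W, hm, ← mul_pow]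
        norm_num
      exact_mod_cast this)
    (fun _ _ _ => prod_nonneg fun _ _ => ind_nonneg _)
    (fun p _ => Dep.prod _ _ _ fun q _ => dep_cell _ _ q)
    (fun p hp => by
      have h1 := card_biUnion_le_card_mul (p.2.2.1 ×ˢ p.2.2.2) (cell p.1 p.2.1) 32 fun q _ =>
        card_cell _ (mem_filter.1 hp).2.1 q
      rw [card_product] at h1
      have h2 := card_le_univ p.2.2.1
      have h3 := card_le_univ p.2.2.2
      rw [hm] at h2 h3
      have := Nat.mul_le_mul h2 h3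
      nlinarith)
    (fun p hp => by
      obtain ⟨b1, b2, b3, b4, b5, b6⟩ := (mem_filter.1 hp).2
      rw [← hm]
      exact cells_prob (le_trans (by norm_num) hd) hmd _ b1 b2 b3 b4 b5 b6)
  have key : ∀ Ω : Finset (W ι), ind (¬ Good cls d K Ω) ≤
      ∑ Y ∈ sA, ind (∀ y ∈ Y, Bad cls d Ω y)
      + ∑ p ∈ sB, ind (deg Ω univ p.1 ≤ 2 * K ∧ Bad cls d Ω p.2)
      + ∑ p : ZMod 28 × W ι, ind (1 / ((Fintype.card ι : ℝ) + 1) ^ 12 < |HH cls d p.1 26 p.2 Ω|)
      + ∑ p ∈ sD, ∏ q ∈ p.2.2.1 ×ˢ p.2.2.2, ind (¬ ∀ w ∈ cell p.1 p.2.1 q, w ∈ Ω) := by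
    intro Ω
    simp only [← ind_forall]
    refine le_trans (ind_mono ?_) ((ind_or _ _).trans (add_le_add ((ind_or _ _).trans
      (add_le_add ((ind_or _ _).trans (add_le_add (ind_exists _ _) (ind_exists _ _)))
        (ind_exists _ _))) (ind_exists _ _)))
    intro h
    by_contra hcon
    apply h
    simp only [not_or, not_exists, not_and] at hcon
    obtain ⟨⟨⟨c1, c2⟩, c3⟩, c4⟩ := hcon
    refine ⟨fun x => ?_, fun x y h1 h2 h3 => ?_, fun j x hx => ?_,
      fun z T I J b1 b2 b3 b4 b5 b6 => ?_⟩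
    · by_contra hlt
      obtain ⟨Y, hY, hY'⟩ := exists_subset_card_eq (not_le.1 hlt : K + 1 ≤ _)
      refine c1 Y (mem_biUnion.2 ⟨x, mem_univ _, mem_powersetCard.2
        ⟨hY.trans inter_subset_right, hY'⟩⟩) fun y hy => mem_badSet.1 (mem_inter.1 (hY hy)).1
    · exact c2 ⟨x, y⟩ (mem_sigma.2 ⟨mem_univ _, mem_erase.2 ⟨h3, h2⟩⟩) h1
    · have := c3 (j, x) (mem_univ _)
      simpa [HH, hx] using this
    · have := c4 (z, T, I, J) (mem_filter.2 ⟨mem_univ _, b1, b2, b3, b4, b5, b6⟩)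
      push Not at this
      obtain ⟨q, hq, h⟩ := this
      rw [mem_product] at hq
      exact ⟨q.1, hq.1, q.2, hq.2, fun S hS => h _ (mem_image.2 ⟨S, mem_powerset.2 hS, rfl⟩)⟩
  refine (hv_mono fun Ω _ => key Ω).trans ?_
  rw [hv_add, hv_add, hv_add, beta]
  linarith

/-- shifting the even vertices -/
def tau (v x : W ι) : W ι := if par x = 0 then x + v else x

lemma par_tau {v : W ι} (hv : par v = 0) (x : W ι) : par (tau v x) = par x := by
  unfold tau; split_ifs with h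
  · rw [par_add, hv, add_zero]
  · rfl

lemma tau_tau {v : W ι} (hv : par v = 0) (x : W ι) : tau v (tau v x) = x := by
  have := par_tau hv x
  by_cases h : par x = 0
  · rw [h] at this
    rw [tau, if_pos this, tau, if_pos h, add_add_cancel]
  · rw [tau, if_neg (by rw [this]; exact h), tau, if_neg h]

/-- the shifted configuration -/
def shf (v : W ι) (Ω : Finset (W ι)) : Finset (W ι) := univ.filter (fun x => tau v x ∈ Ω)

lemma mem_shf {v x : W ι} {Ω : Finset (W ι)} : x ∈ shf v Ω ↔ tau v x ∈ Ω := by simp [shf]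

lemma shf_shf {v : W ι} (hv : par v = 0) (Ω : Finset (W ι)) : shf v (shf v Ω) = Ω := by
  ext x; rw [mem_shf, mem_shf, tau_tau hv]

lemma half_shf {n : ℕ} {v : W ι} (hv : par v = 0) {Ω : Finset (W ι)} (h : Half n Ω) :
    Half n (shf v Ω) := by
  intro b
  rw [← h b]
  apply card_bij (fun x _ => tau v x)
  · intro x hx
    simp only [mem_filter, mem_side, mem_shf] at hx ⊢
    exact ⟨by rw [par_tau hv, hx.1], hx.2⟩
  · intro x _ y _ hxy
    rw [← tau_tau hv x, hxy, tau_tau hv]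
  · intro y hy
    refine ⟨tau v y, ?_, tau_tau hv y⟩
    simp only [mem_filter, mem_side, mem_shf] at hy ⊢
    exact ⟨by rw [par_tau hv, hy.1], by rw [tau_tau hv]; exact hy.2⟩

lemma half_compl {n : ℕ} (hn : 1 ≤ n) (hm : Fintype.card ι = n + 1) {Ω : Finset (W ι)}
    (h : Half n Ω) : Half n Ωᶜ := by
  intro b
  have h1 := card_filter_add_card_filter_not (s := side ι b) (· ∈ Ω)
  rw [h b, card_side hm] at h1
  have h2 : 2 ^ n = 2 ^ (n - 1) * 2 := by rw [← pow_succ]; congr 1; omega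
  simp only [mem_compl]
  omega

lemma hv_shf {n : ℕ} {v : W ι} (hv' : par v = 0) (F : Finset (W ι) → ℝ) :
    hv n (fun Ω => F (shf v Ω)) = hv n F :=
  hv_equiv (Function.Involutive.toPerm (shf v) (shf_shf hv')) (fun Ω =>
    ⟨fun h => shf_shf hv' Ω ▸ half_shf hv' h, half_shf hv'⟩) F

lemma hv_compl {n : ℕ} (hn : 1 ≤ n) (hm : Fintype.card ι = n + 1) (F : Finset (W ι) → ℝ) :
    hv n (fun Ω => F Ωᶜ) = hv n F :=
  hv_equiv (Function.Involutive.toPerm compl compl_compl) (fun Ω =>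
    ⟨fun h => compl_compl Ω ▸ half_compl hn hm h, half_compl hn hm⟩) F

lemma Half.bal {n : ℕ} {Ω : Finset (W ι)} (h : Half n Ω) : ∑ x ∈ Ω, sg x = 0 := by
  have h0 := h 0
  have h1 := h 1
  unfold sg
  rw [sum_ite, sum_const, sum_const]
  have e0 : Ω.filter (fun x => par x = 0) = (side ι 0).filter (· ∈ Ω) := by
    ext x; simp [mem_side, and_comm]
  have e1 : Ω.filter (fun x => ¬ par x = 0) = (side ι 1).filter (· ∈ Ω) := by
    ext x; simp [mem_side, and_comm, ← z2_ne]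
  rw [e0, e1, h0, h1]; simp

/-- monochromatic neighbourhood -/
def Mono (Ω : Finset (W ι)) (y : W ι) : Prop :=
  (∀ w ∈ nb y univ, w ∈ Ω) ∨ ∀ w ∈ nb y univ, w ∉ Ω

/-- some shift admits perfect matchings of the set and of its complement -/
def Succ (Ω : Finset (W ι)) : Prop := ∃ v, par v = 0 ∧ Mat (shf v Ω) ∧ Mat (shf v Ω)ᶜ

lemma tau_nb (v x : W ι) :
    ∃ u, u + v = tau v x ∧ ∀ i, tau v (x + e i) = u + e i := by
  rcases z2_cases (par x) with h | h
  · refine ⟨x, by simp [tau, h], fun i => ?_⟩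
    simp [tau, par_add_e, h]
  · refine ⟨x + v, by simp [tau, h], fun i => ?_⟩
    simp [tau, par_add_e, h, z2_add_self, add_right_comm]

theorem hv_not_succ {n : ℕ} (hm : Fintype.card ι = n + 1) {cls : ι → ZMod 28} {d K L : ℕ}
    (hK : 2 ^ 95 * (K + 1) ≤ d) (hd : 2 ^ 289 ≤ d) (hcl : ∀ j, d ≤ (cl cls j).card)
    (hcl' : ∀ j, (cl cls j).card ≤ 2 * d) (hn : 64 * (n + 1) ^ 4 ≤ 2 ^ n) (hL : 1 ≤ L)
    (hL' : L ^ 2 ≤ n) :
    hv n (fun Ω : Finset (W ι) => ind (¬ Succ Ω)) ≤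
      (2 / L + ((2 ^ (n + 1) + 1) ^ L) ^ 2 * (1 - (1 / 2) ^ L) ^ (n ^ 2)
        + 2 * n ^ 3 * beta (n + 1) d K) * (4 * mid (2 ^ n) ^ 2) := by
  classical
  have hLn : L ≤ n := le_trans (by nlinarith) hL'
  have hn1 : 1 ≤ n := hL.trans hLn
  have p1 : n ^ 3 * (n + 1) ≤ (n + 1) ^ 4 := by
    rw [pow_succ (n + 1) 3]; gcongr; omega
  have p2 : (n + 1) ^ 2 ≤ (n + 1) ^ 4 := Nat.pow_le_pow_right (by omega) (by omega)
  obtain ⟨V, hV, hV'⟩ := exists_subset_card_eq (s := side ι 0) (n := n ^ 3) (by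
    rw [card_side hm]; nlinarith)
  let sm : Finset (Finset (W ι)) := (univ : Finset (W ι)).powerset.filter (fun T => T.card ≤ L)
  have hsm : sm.card ≤ (2 ^ (n + 1) + 1) ^ L := by
    have := card_small_subsets (univ : Finset (W ι)) L
    rwa [card_univ, card_W, hm] at this
  have h1 := hv_union hm (univ : Finset (W ι)) (fun y Ω => ind (Mono Ω y))
    (fun y => nb y univ) (c := 2 * (1 / 2) ^ (n + 1)) (S := 2 ^ (n + 1)) (by positivity)
    (by rw [card_univ, card_W, hm]; push_cast; rfl) (fun _ _ _ => ind_nonneg _)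
    (fun y _ Ω Ω' h => ind_congr (or_congr (forall₂_congr h)
      (forall₂_congr fun w hw => not_congr (h w hw))))
    (fun y _ => by rw [card_nb, card_univ, hm]; nlinarith)
    (fun y _ => by rw [← hm]; exact mono_prob y)
  have h2 := hv_union hm (sm ×ˢ sm)
    (fun p Ω => ind (∀ v ∈ V, ¬ ∀ u ∈ p.1, (u + v ∈ Ω ↔ u ∈ p.2)))
    (fun p => V.biUnion (fun v => p.1.image (· + v))) (c := (1 - (1 / 2) ^ L) ^ (n ^ 2))
    (S := ((2 ^ (n + 1) + 1) ^ L) ^ 2) (by
      have : (1 / 2 : ℝ) ^ L ≤ 1 := pow_le_one₀ (by norm_num) (by norm_num)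
      apply pow_nonneg; linarith)
    (by
      have := Nat.mul_le_mul hsm hsm
      rw [card_product, pow_two]
      exact_mod_cast this)
    (fun _ _ _ => ind_nonneg _) (fun p _ => dep_shifts V p.1 p.2)
    (fun p hp => by
      have := card_biUnion_le_card_mul V (fun v => p.1.image (· + v)) (n + 1) fun v _ =>
        card_image_le.trans ((mem_filter.1 (mem_product.1 hp).1).2.trans (by omega))
      rw [hV'] at this
      omega)
    (fun p hp => shifts_prob hL _ _ (mem_filter.1 (mem_product.1 hp).1).2 _ V (by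
      rw [hV', pow_succ n 2]; gcongr))
  have h3 := hv_not_good hm hK hd hcl hcl' (by omega)
  have h4 : hv n (fun Ω : Finset (W ι) => ∑ v ∈ V,
      (ind (¬ Good cls d K (shf v Ω)) + ind (¬ Good cls d K (shf v Ω)ᶜ)))
      ≤ 2 * n ^ 3 * beta (n + 1) d K * (4 * mid (2 ^ n) ^ 2) := by
    rw [hv_sum]
    refine (sum_le_card_nsmul _ _ (2 * (beta (n + 1) d K * (4 * mid (2 ^ n) ^ 2)))
      fun v hv' => ?_).trans (by rw [hV', nsmul_eq_mul]; push_cast; apply le_of_eq; ring)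
    have hp : par v = 0 := mem_side.1 (hV hv')
    rw [hv_add, hv_shf hp (fun Ω => ind (¬ Good cls d K Ω)),
      hv_shf hp (fun Ω => ind (¬ Good cls d K Ωᶜ)),
      hv_compl hn1 hm (fun Ω => ind (¬ Good cls d K Ω))]
    linarith
  have hL0 : (0 : ℝ) < L := by exact_mod_cast hL
  have key : ∀ Ω : Finset (W ι), Half n Ω → ind (¬ Succ Ω) ≤
      1 / L * ∑ y, ind (Mono Ω y)
      + ∑ p ∈ sm ×ˢ sm, ind (∀ v ∈ V, ¬ ∀ u ∈ p.1, (u + v ∈ Ω ↔ u ∈ p.2))
      + ∑ v ∈ V, (ind (¬ Good cls d K (shf v Ω)) + ind (¬ Good cls d K (shf v Ω)ᶜ)) := by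
    intro Ω hΩ
    have a1 : ind (L < (univ.filter (Mono Ω)).card) ≤ 1 / L * ∑ y, ind (Mono Ω y) := by
      rw [sum_ind]
      apply ind_le (by positivity)
      intro h
      rw [one_div, ← div_eq_inv_mul, one_le_div hL0]
      exact_mod_cast h.le
    refine le_trans (ind_mono ?_) ((ind_or _ _).trans (add_le_add ((ind_or _ _).trans
      (add_le_add a1 (ind_exists _ _)))
      ((ind_exists _ _).trans (sum_le_sum fun v _ => ind_or _ _))))
    intro h
    by_contra hcon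
    apply h
    simp only [not_or, not_exists, not_and, not_lt, not_not] at hcon
    obtain ⟨⟨c1, c2⟩, c3⟩ := hcon
    have c5 : univ.filter (fun y => ∀ w ∈ nb y univ, w ∈ Ω) ⊆ univ.filter (Mono Ω) := by
      intro y hy
      rw [mem_filter] at hy ⊢
      exact ⟨hy.1, Or.inl hy.2⟩
    have c4 := c2 (univ.filter (Mono Ω), univ.filter (fun y => ∀ w ∈ nb y univ, w ∈ Ω))
      (mem_product.2 ⟨mem_filter.2 ⟨by simp, c1⟩, mem_filter.2 ⟨by simp,
        le_trans (card_le_card c5) c1⟩⟩)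
    push Not at c4
    obtain ⟨v, hvV, c4⟩ := c4
    simp only [mem_filter, mem_univ, true_and] at c4
    have hp : par v = 0 := mem_side.1 (hV hvV)
    obtain ⟨g1, g2⟩ := c3 v hvV
    have hK' : 2 ^ 17 * (K + 1) ≤ d := by omega
    obtain ⟨i₀⟩ : Nonempty ι := Fintype.card_pos_iff.1 (by omega)
    refine ⟨v, hp, det_mat hK' hcl hcl' _ (half_shf hp hΩ).bal g1.1 g1.2.1 g1.2.2.1 g1.2.2.2 ?_,
      det_mat hK' hcl hcl' _ (half_compl hn1 hm (half_shf hp hΩ)).bal
        g2.1 g2.2.1 g2.2.2.1 g2.2.2.2 ?_⟩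
    · intro x hx
      by_contra hno
      push Not at hno
      obtain ⟨u, hu, hu'⟩ := tau_nb v x
      simp only [mem_shf, hu'] at hno hx
      have := (c4 u (Or.inr fun w hw => by
        obtain ⟨i, -, rfl⟩ := mem_nb.1 hw; exact hno i)).1 (hu ▸ hx)
      exact hno i₀ (this _ (mem_nb.2 ⟨i₀, mem_univ _, rfl⟩))
    · intro x hx
      by_contra hno
      push Not at hno
      obtain ⟨u, hu, hu'⟩ := tau_nb v x
      simp only [mem_compl, not_not, mem_shf, hu'] at hno hx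
      have hall : ∀ w ∈ nb u univ, w ∈ Ω := fun w hw => by
        obtain ⟨i, -, rfl⟩ := mem_nb.1 hw; exact hno i
      exact hx (hu ▸ (c4 u (Or.inl hall)).2 hall)
  refine (hv_mono key).trans ?_
  rw [hv_add, hv_add, hv_mul_left]
  have e1 : (2 : ℝ) ^ (n + 1) * (2 * (1 / 2) ^ (n + 1)) = 2 := by
    rw [one_div, inv_pow]; field_simp
  rw [e1] at h1
  have h5 : 1 / (L : ℝ) * hv n (fun Ω : Finset (W ι) => ∑ y, ind (Mono Ω y))
      ≤ 2 / L * (4 * mid (2 ^ n) ^ 2) := by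
    calc _ ≤ 1 / (L : ℝ) * (2 * (4 * mid (2 ^ n) ^ 2)) := by gcongr
      _ = _ := by ring
  linarith

end Pool.Agent.P.MP_38a0b7_co
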