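import Pool.Agent.P.MP_38a0b7_co.Cube

/-! List systems: a map that mostly follows short lists rarely preserves colours. -/

set_option linter.unusedSectionVars false

namespace Pool.Agent.P.MP_38a0b7_co

open Finset

lemma disjoint_lists {α β : Type*} [DecidableEq α] [DecidableEq β] (X : Finset α)
    (Λ : α → Finset β) (s : ℕ) (l : ℕ) (hl : l ≤ 5) :
    ∀ Z₀ : Finset β, (∀ x ∈ X, (Λ x \ Z₀).card ≤ l) → 321 ^ l * (64 * Z₀.card + s) ≤ X.card →
      ∃ J ⊆ X, ∃ Z : Finset β, (∀ x ∈ J, ∀ y ∈ J, x ≠ y → Disjoint (Λ x \ Z) (Λ y \ Z)) ∧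
        64 * Z.card + s ≤ J.card := by
  induction l with
  | zero =>
    intro Z₀ h1 h2
    refine ⟨X, subset_rfl, Z₀, fun x hx y _ _ => ?_, by simpa using h2⟩
    rw [card_eq_zero.1 (Nat.le_zero.1 (h1 x hx))]; simp
  | succ l ih =>
    intro Z₀ h1 h2
    obtain ⟨J, hJ, hmax⟩ := exists_max_image (X.powerset.filter
      (fun J => ∀ x ∈ J, ∀ y ∈ J, x ≠ y → Disjoint (Λ x \ Z₀) (Λ y \ Z₀))) card ⟨∅, by simp⟩
    rw [mem_filter, mem_powerset] at hJ
    by_cases hbig : 64 * Z₀.card + s ≤ J.card
    · exact ⟨J, hJ.1, Z₀, hJ.2, hbig⟩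
    apply ih (by omega) (Z₀ ∪ J.biUnion (fun x => Λ x \ Z₀))
    · intro x hx
      rcases (Λ x \ Z₀).eq_empty_or_nonempty with h0 | ⟨w, hw⟩
      · refine le_trans (card_le_card (sdiff_subset_sdiff subset_rfl subset_union_left)) ?_
        rw [h0]; simp
      have key : ∃ w ∈ Λ x \ Z₀, w ∈ J.biUnion (fun x => Λ x \ Z₀) := by
        by_cases hxJ : x ∈ J
        · exact ⟨w, hw, mem_biUnion.2 ⟨x, hxJ, hw⟩⟩
        by_contra hcon
        push Not at hcon
        have hd : ∀ y ∈ J, Disjoint (Λ x \ Z₀) (Λ y \ Z₀) := fun y hy =>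
          disjoint_left.2 fun w h1 h2 => hcon w h1 (mem_biUnion.2 ⟨y, hy, h2⟩)
        have := hmax (insert x J) (mem_filter.2 ⟨mem_powerset.2 (insert_subset hx hJ.1), by
          intro a ha b hb hab
          rcases mem_insert.1 ha with rfl | ha' <;> rcases mem_insert.1 hb with rfl | hb'
          · exact absurd rfl hab
          · exact hd b hb'
          · exact (hd a ha').symm
          · exact hJ.2 a ha' b hb' hab⟩)
        rw [card_insert_of_notMem hxJ] at this
        omega
      obtain ⟨w, hw, hw'⟩ := key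
      have : Λ x \ (Z₀ ∪ J.biUnion (fun x => Λ x \ Z₀)) ⊆ (Λ x \ Z₀).erase w := by
        intro y hy
        rw [mem_sdiff, mem_union, not_or] at hy
        exact mem_erase.2 ⟨by rintro rfl; exact hy.2.2 hw', mem_sdiff.2 ⟨hy.1, hy.2.1⟩⟩
      refine (card_le_card this).trans ?_
      rw [card_erase_of_mem hw]
      have := h1 x hx
      omega
    · have h3 := card_union_le Z₀ (J.biUnion (fun x => Λ x \ Z₀))
      have h4 := card_biUnion_le_card_mul J (fun x => Λ x \ Z₀) 5 fun x hx =>
        (h1 x (hJ.1 hx)).trans hl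
      refine le_trans ?_ h2
      rw [pow_succ, mul_assoc]
      apply Nat.mul_le_mul_left
      omega

variable {U : Type*} [Fintype U] [DecidableEq U]

/-- some colour-preserving injection follows the lists up to `w` exceptions -/
def Follows (A B X : Finset U) (Λ : U → Finset U) (w : ℕ) : Prop :=
  ∃ φ : U → U, Function.Injective φ ∧ (∀ x, x ∈ A ↔ φ x ∈ B) ∧
    (X.filter (fun x => φ x ∉ Λ x)).card ≤ w

lemma follows_prob (A X : Finset U) (Λ : U → Finset U) (w t : ℕ) (h5 : ∀ x ∈ X, (Λ x).card ≤ 5)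
    (hX : 321 ^ 5 * (64 * w + t) ≤ X.card) :
    avg (fun B => ind (Follows A B X Λ w)) ≤ (63 / 64) ^ t := by
  classical
  obtain ⟨J, hJ, Z, hd, hZ⟩ := disjoint_lists X Λ (64 * w + t) 5 le_rfl ∅ (by simpa using h5)
    (by simpa using hX)
  let fail : U → Finset U → Prop := fun x B => ∀ y ∈ Λ x \ Z, (y ∈ B ↔ x ∉ A)
  have h1 : ∀ B, ind (Follows A B X Λ w) ≤ 2 ^ (Z.card + w) * ∏ x ∈ J, (1 - ind (fail x B) / 2) := by
    intro B
    have e1 : ∏ x ∈ J, (1 - ind (fail x B) / 2) = (1 / 2) ^ (J.filter (fail · B)).card := by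
      rw [← prod_filter_mul_prod_filter_not J (fail · B),
        prod_congr rfl (g := fun _ => (1 / 2 : ℝ))
          (fun x hx => by rw [ind_of (mem_filter.1 hx).2]; norm_num),
        prod_congr rfl (g := fun _ => (1 : ℝ)) (s₂ := J.filter (fun x => ¬ fail x B))
          (fun x hx => by rw [ind_of_not (mem_filter.1 hx).2]; norm_num)]
      simp
    rw [e1]
    apply ind_le (by positivity)
    rintro ⟨φ, hφ, hc, hw⟩
    have h2 : J.filter (fail · B) ⊆
        J.filter (fun x => φ x ∈ Z) ∪ X.filter (fun x => φ x ∉ Λ x) := by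
      intro x hx
      rw [mem_filter] at hx
      by_cases hz : φ x ∈ Z
      · exact mem_union_left _ (mem_filter.2 ⟨hx.1, hz⟩)
      · refine mem_union_right _ (mem_filter.2 ⟨hJ hx.1, fun h => ?_⟩)
        have := hx.2 _ (mem_sdiff.2 ⟨h, hz⟩)
        have := hc x
        tauto
    have h3 : (J.filter (fun x => φ x ∈ Z)).card ≤ Z.card :=
      card_le_card_of_injOn φ (fun x hx => (mem_filter.1 hx).2) hφ.injOn
    have h4 := (card_le_card h2).trans (card_union_le _ _)
    rw [one_div, inv_pow, ← div_eq_mul_inv, one_le_div (by positivity)]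
    exact pow_le_pow_right₀ (by norm_num) (by omega)
  refine (avg_mono h1).trans ?_
  rw [avg_mul_left]
  have h2 := avg_prod_le J (fun x => Λ x \ Z) (fun x B => 1 - ind (fail x B) / 2) (63 / 64)
    (fun x _ B B' h => by
      have : fail x B ↔ fail x B' := forall₂_congr fun y hy => by rw [h y hy]
      simp only [this])
    (fun x _ B => by linarith [ind_le_one (fail x B)]) hd (fun x hx => by
      simp only [div_eq_mul_inv (ind _)]
      rw [avg_sub, avg_const, avg_mul_right]
      have h3 := avg_pattern (Λ x \ Z) (if x ∈ A then ∅ else univ)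
      have h4 : ∀ B : Finset U, (∀ y ∈ Λ x \ Z, (y ∈ B ↔ y ∈ if x ∈ A then ∅ else univ))
          ↔ fail x B := fun B => forall₂_congr fun y _ => by
        by_cases h : x ∈ A <;> simp [h]
      simp only [h4] at h3
      rw [h3]
      have h6 : (1 / 2 : ℝ) ^ 5 ≤ (1 / 2) ^ (Λ x \ Z).card :=
        pow_le_pow_of_le_one (by norm_num) (by norm_num)
          ((card_le_card sdiff_subset).trans (h5 x (hJ hx)))
      linarith)
  calc _ ≤ 2 ^ (Z.card + w) * (63 / 64 : ℝ) ^ J.card := by gcongr
    _ ≤ 2 ^ (Z.card + w) * (63 / 64 : ℝ) ^ (64 * (Z.card + w) + t) := by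
        gcongr 2 ^ (Z.card + w) * ?_
        exact pow_le_pow_of_le_one (by norm_num) (by norm_num) (by omega)
    _ = (2 * (63 / 64 : ℝ) ^ 64) ^ (Z.card + w) * (63 / 64) ^ t := by
        rw [pow_add _ _ t, pow_mul, mul_pow, mul_assoc]
    _ ≤ 1 * (63 / 64) ^ t := by
        gcongr
        exact pow_le_one₀ (by positivity) (by norm_num)
    _ = _ := one_mul _

lemma exists_templates {α β : Type*} [Fintype α] [DecidableEq α] [Fintype β] [DecidableEq β]
    [AddCommGroup β] (R₀ R : Finset α) (π : α → α) (hπ : ∀ x, π x ∈ R₀) (Bl : Finset β) :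
    ∃ F : Finset (α → β), F.card ≤ Fintype.card β ^ R₀.card * Bl.card ^ R.card ∧
      ∀ ψ : α → β, (∀ x ∈ R, ψ x - ψ (π x) ∈ Bl) → ∃ f ∈ F, ∀ x ∈ R, f x = ψ x := by
  refine ⟨univ.image (fun p : (R₀ → β) × (R → Bl) => fun x =>
    if h : x ∈ R then p.1 ⟨π x, hπ x⟩ + p.2 ⟨x, h⟩ else 0), card_image_le.trans (by simp), ?_⟩
  intro ψ h
  refine ⟨_, mem_image_of_mem _ 
    (mem_univ ((fun y : R₀ => ψ y, fun x : R => (⟨_, h x x.2⟩ : Bl)) : (R₀ → β) × (R → Bl))), ?_⟩
  intro x hx
  simp [hx]

lemma card_heavy {α : Type*} [Fintype α] (f : α → ℕ) {n B : ℕ} (h : ∑ x, f x ≤ n * B) :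
    (univ.filter (fun x => n < 3 * f x)).card ≤ 3 * B := by
  rcases Nat.eq_zero_or_pos n with rfl | hn
  · have : ∀ x, f x = 0 := fun x => by
      have := single_le_sum (f := f) (fun _ _ => Nat.zero_le _) (mem_univ x)
      omega
    simp [this]
  have h1 := card_nsmul_le_sum (univ.filter (fun x => n < 3 * f x)) (fun x => 3 * f x) n
    fun x hx => (mem_filter.1 hx).2.le
  have h2 : ∑ x ∈ univ.filter (fun x => n < 3 * f x), 3 * f x ≤ ∑ x, 3 * f x :=
    sum_le_sum_of_subset (filter_subset _ _)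
  rw [← mul_sum univ] at h2
  rw [smul_eq_mul] at h1
  apply Nat.le_of_mul_le_mul_right _ hn
  nlinarith

variable {ι : Type*} [Fintype ι] [DecidableEq ι]

lemma card_symmDiff_add {α : Type*} [DecidableEq α] (S T : Finset α) :
    (symmDiff S T).card + 2 * (S ∩ T).card = S.card + T.card := by
  rw [symmDiff_def, sup_eq_union, card_union_of_disjoint disjoint_sdiff_sdiff]
  have h1 := card_sdiff_add_card_inter S T
  have h2 := card_sdiff_add_card_inter T S
  rw [inter_comm T S] at h2
  omega

lemma eq_e_add_e {v : W ι} (h : (supp v).card = 2) {a : ι} (ha : a ∈ supp v) :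
    ∃ c, v = e a + e c := by
  have h1 := card_symmDiff_add (supp v) {a}
  rw [inter_singleton_of_mem ha, h, card_singleton, ← supp_e, ← supp_add] at h1
  obtain ⟨c, hc⟩ := card_eq_one.1 (show (supp (v + e a)).card = 1 by omega)
  refine ⟨c, ?_⟩
  have : v + e a = e c := supp_inj (by rw [hc, supp_e])
  rw [← this, add_comm v, add_add_cancel_left]

/-- points at distance two from every point of `P` -/
def cand (P : Finset (W ι)) : Finset (W ι) :=
  univ.filter (fun z => ∀ s ∈ P, (supp (z + s)).card = 2)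

lemma mem_cand {P : Finset (W ι)} {z : W ι} : z ∈ cand P ↔ ∀ s ∈ P, (supp (z + s)).card = 2 := by
  simp [cand]

lemma star_of_cand {P : Finset (W ι)} (hP : 7 ≤ P.card) (h : 5 < (cand P).card) :
    ∃ u, P ⊆ nb u univ := by
  by_contra hns
  push Not at hns
  obtain ⟨y, hy⟩ := card_pos.1 (show 0 < (cand P).card by omega)
  rw [mem_cand] at hy
  obtain ⟨s₀, hs₀⟩ := card_pos.1 (show 0 < P.card by omega)
  have hs : ∀ a, ∃ s ∈ P, a ∉ supp (y + s) := by
    intro a
    obtain ⟨s, h1, h2⟩ := not_subset.1 (hns (y + e a))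
    refine ⟨s, h1, fun h3 => h2 ?_⟩
    obtain ⟨c, hc⟩ := eq_e_add_e (hy s h1) h3
    exact mem_nb.2 ⟨c, mem_univ _, by rw [add_assoc, ← hc, add_add_cancel_left]⟩
  choose σ hσ hσ' using hs
  have key : (cand P).image (fun z => supp (y + z)) ⊆ insert ∅
      ((supp (y + s₀)).biUnion (fun a => (supp (y + σ a)).image (fun c => {a, c}))) := by
    intro T hT
    obtain ⟨z, hz, hT⟩ := mem_image.1 hT
    rw [mem_cand] at hz
    have h1 : ∀ s ∈ P, T.card = 2 * (T ∩ supp (y + s)).card := by
      intro s hs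
      have h2 := card_symmDiff_add T (supp (y + s))
      have e1 : (y + z) + (y + s) = z + s := by
        have : (y + z) + (y + s) = (y + y) + (z + s) := by abel
        rw [this]; simp
      rw [← hT, ← supp_add, e1, hz s hs, hy s hs, hT] at h2
      omega
    have h2 := h1 s₀ hs₀
    have h3 : (T ∩ supp (y + s₀)).card ≤ 2 := 
      (card_le_card inter_subset_right).trans (hy s₀ hs₀).le
    rcases (show T.card = 0 ∨ T.card = 2 ∨ T.card = 4 by omega) with h4 | h4 | h4
    · rw [card_eq_zero.1 h4]; simp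
    · obtain ⟨a, ha⟩ := card_pos.1 (show 0 < (T ∩ supp (y + s₀)).card by omega)
      have h5 := h1 _ (hσ a)
      obtain ⟨c, hc⟩ := card_pos.1 (show 0 < (T ∩ supp (y + σ a)).card by omega)
      rw [mem_inter] at ha hc
      refine mem_insert_of_mem (mem_biUnion.2 ⟨a, ha.2, mem_image.2 ⟨c, hc.2, ?_⟩⟩)
      have hac : a ≠ c := fun h => hσ' a (h ▸ hc.2)
      apply eq_of_subset_of_card_le
      · exact insert_subset ha.1 (singleton_subset_iff.2 hc.1)
      · rw [card_pair hac, h4]
    · exfalso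
      have h5 : P.card ≤ (powersetCard 2 T).card := by
        apply card_le_card_of_injOn (fun s => supp (y + s))
        · intro s hs
          have h6 := h1 s hs
          refine mem_powersetCard.2 ⟨?_, hy s hs⟩
          have : T ∩ supp (y + s) = supp (y + s) :=
            eq_of_subset_of_card_le inter_subset_right (by rw [hy s hs]; omega)
          exact inter_eq_right.1 this
        · intro s _ s' _ h
          exact add_left_cancel (supp_inj h)
      rw [card_powersetCard, h4] at h5
      have : Nat.choose 4 2 = 6 := by decide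
      omega
  have h1 := card_le_card key
  rw [card_image_of_injective _ (fun z z' h => add_left_cancel (supp_inj h))] at h1
  have h2 := card_biUnion_le_card_mul (supp (y + s₀))
    (fun a => (supp (y + σ a)).image (fun c => ({a, c} : Finset ι))) 2
    fun a _ => card_image_le.trans (hy _ (hσ a)).le
  rw [hy s₀ hs₀] at h2
  have h3 := h1.trans (card_insert_le _ _)
  omega

end Pool.Agent.P.MP_38a0b7_co
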