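import Pool.Agent.P.MP_38a0b7_co.Decode

/-! The lower bound: below 3 the probability tends to zero. -/

set_option linter.unusedSectionVars false

namespace Pool.Agent.P.MP_38a0b7_co

open Finset Filter Topology

variable {n : ℕ} {τ : Type*} [Fintype τ] [DecidableEq τ]

lemma exists_cover (g : Fin n → W τ) (h7 : ∀ γ, 7 ≤ (univ.filter (fun i => g i = γ)).card) :
    ∃ (R₀ : Finset (W (Fin n))) (π : W (Fin n) → W (Fin n)),
      R₀.card * (Fintype.card (W τ) * Fintype.card (W τ)) ≤ 2 ^ n ∧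
      ∀ x, π x ∈ R₀ ∧ ∃ i j, π x = x + e i + e j := by
  have h : ∀ γ, ∃ a b, g a = γ ∧ g b = γ ∧ a ≠ b := fun γ => by
    obtain ⟨a, ha, b, hb, hab⟩ := one_lt_card.1 (lt_of_lt_of_le (by norm_num) (h7 γ))
    exact ⟨a, b, (mem_filter.1 ha).2, (mem_filter.1 hb).2, hab⟩
  choose a b ha hb hab using h
  let c : W (Fin n) → W τ × W τ := fun x =>
    (col (fun i => if i = b (g i) then 0 else g i) x, col (fun i => if i = b (g i) then g i else 0) x)
  have hc : ∀ x y, c (x + y) = c x + c y := fun x y => by simp [c, col_add]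
  have hs : ∀ p : W τ × W τ, c (e (a p.1) + e (b p.2)) = p := by
    intro p
    simp [c, col_add, col_e, ha, hb, hab]
  refine ⟨univ.filter (fun x => c x = 0), fun x => x + e (a (c x).1) + e (b (c x).2), ?_,
    fun x => ⟨?_, _, _, rfl⟩⟩
  · simpa using card_fiber_le c hc (fun p => ⟨_, hs p⟩) 0
  · beta_reduce
    rw [mem_filter, add_assoc, hc, hs]
    exact ⟨mem_univ _, Prod.ext (add_self' _) (add_self' _)⟩

lemma sub_eq_add' {ι : Type*} (x y : W ι) : x - y = x + y := by
  funext i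
  simp only [Pi.sub_apply, Pi.add_apply]
  generalize x i = a; generalize y i = b
  revert a b; decide

lemma lower_count (hn : 16 ≤ n) (g : Fin n → W τ)
    (h7 : ∀ γ, 7 ≤ (univ.filter (fun i => g i = γ)).card) {c : ℕ}
    (hc : ∀ γ, (univ.filter (fun i => g i = γ)).card ≤ c) (hc' : Fintype.card (W τ) * c ≤ 2 * n)
    {t : ℕ} (ht : 321 ^ 5 * (64 * (24 * (321 ^ 5 * t)) + t) ≤ 2 ^ n) (A : Finset (W (Fin n))) :
    avg (fun B => ind (∃ φ : W (Fin n) → W (Fin n), Function.Injective φ ∧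
      (∀ x i, (supp (φ x + φ (x + e i))).card ≤ 2) ∧ ∀ x, x ∈ A ↔ φ x ∈ B))
      ≤ (Fintype.card (W τ) : ℝ) *
        ((2 ^ (n + 1)) ^ (2 ^ n / (Fintype.card (W τ) * Fintype.card (W τ))) *
          (((n : ℝ) + 2) ^ 4) ^ (2 * 2 ^ n / Fintype.card (W τ)) * (2 * (63 / 64) ^ t)) := by
  have hM : 0 < Fintype.card (W τ) := Fintype.card_pos
  obtain ⟨R₀, π, hR₀, hπ⟩ := exists_cover g h7
  have hsurj : Function.Surjective (col g) := fun γ => by
    obtain ⟨i, hi⟩ := card_pos.1 (lt_of_lt_of_le (by norm_num) (h7 γ))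
    exact ⟨e i, by rw [col_e]; exact (mem_filter.1 hi).2⟩
  have hT : ∀ γ : W τ, _ := fun γ => exists_templates R₀
    (univ.filter (fun x => col g x ∈ ({0, γ} : Finset (W τ)))) π (fun x => (hπ x).1)
    (ball (0 : W (Option (Fin n))) 4)
  choose F hF hF' using hT
  have hcard : ∀ γ, ((F γ).card : ℝ) ≤
      (2 ^ (n + 1)) ^ (2 ^ n / (Fintype.card (W τ) * Fintype.card (W τ))) *
        (((n : ℝ) + 2) ^ 4) ^ (2 * 2 ^ n / Fintype.card (W τ)) := by
    intro γ
    have a1 : R₀.card ≤ 2 ^ n / (Fintype.card (W τ) * Fintype.card (W τ)) :=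
      (Nat.le_div_iff_mul_le (by positivity)).2 hR₀
    have a2 : (univ.filter (fun x => col g x ∈ ({0, γ} : Finset (W τ)))).card
        ≤ 2 * 2 ^ n / Fintype.card (W τ) := by
      rw [Nat.le_div_iff_mul_le hM]
      have b1 := card_fiber_le (col g) (col_add g) hsurj 0
      have b2 := card_fiber_le (col g) (col_add g) hsurj γ
      have b3 : (univ.filter (fun x => col g x ∈ ({0, γ} : Finset (W τ)))).card ≤
          (univ.filter (fun x => col g x = 0)).card + (univ.filter (fun x => col g x = γ)).card := by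
        simp only [mem_insert, mem_singleton, filter_or]
        exact card_union_le _ _
      nlinarith
    have a3 := card_ball (0 : W (Option (Fin n))) 4
    rw [Fintype.card_option, Fintype.card_fin] at a3
    have a4 : (F γ).card ≤ (2 ^ (n + 1)) ^ (2 ^ n / (Fintype.card (W τ) * Fintype.card (W τ))) *
        ((n + 2) ^ 4) ^ (2 * 2 ^ n / Fintype.card (W τ)) := by
      refine (hF γ).trans (Nat.mul_le_mul ?_ ?_)
      · rw [card_W, Fintype.card_option, Fintype.card_fin]
        exact Nat.pow_le_pow_right (by positivity) a1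
      · exact (Nat.pow_le_pow_left a3 _).trans (Nat.pow_le_pow_right (by positivity) a2)
    exact_mod_cast a4
  have key : ∀ B, ind (∃ φ : W (Fin n) → W (Fin n), Function.Injective φ ∧
      (∀ x i, (supp (φ x + φ (x + e i))).card ≤ 2) ∧ ∀ x, x ∈ A ↔ φ x ∈ B) ≤
      ∑ γ, ∑ f ∈ F γ, (ind (321 ^ 5 * t ≤ (X1 g f γ).card ∧ Follows A B (X1 g f γ) (L1 g f γ) 0)
        + ind (Follows A B univ (L2 g f) (24 * (321 ^ 5 * t)))) := by
    intro B
    refine le_trans (ind_mono ?_) ((ind_exists _ _).trans (sum_le_sum fun γ _ =>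
      (ind_exists _ _).trans (sum_le_sum fun f _ => ind_or _ _)))
    rintro ⟨φ, hφ, h2, hcol⟩
    set ψ : W (Fin n) → W (Option (Fin n)) := fun x => emb 0 (φ x) with hψ
    have hψ2 : ∀ x i, (supp (ψ x + ψ (x + e i))).card = 2 := lift_two hφ h2
    have hψi : Function.Injective ψ := fun x y h => hφ (by simpa [hψ] using congrArg prj h)
    have hf : ∀ γ, ∃ f ∈ F γ, ∀ x, col g x ∈ ({0, γ} : Finset (W τ)) → f x = ψ x := by
      intro γ
      obtain ⟨f, hf, hf'⟩ := hF' γ ψ (fun x _ => by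
        obtain ⟨i, j, hij⟩ := (hπ x).2
        rw [sub_eq_add', mem_ball, zero_add, hij]
        exact mem_ball.1 (mem_ball_trans (r := 2) (s := 2) (mem_ball.2 (hψ2 x i).le)
          (mem_ball.2 (hψ2 _ j).le)))
      exact ⟨f, hf, fun x hx => hf' x (mem_filter.2 ⟨mem_univ _, hx⟩)⟩
    by_cases hcase : ∃ γ, 321 ^ 5 * t ≤ (X1 g ψ γ).card
    · obtain ⟨γ, hγ⟩ := hcase
      obtain ⟨f, hf, hf'⟩ := hf γ
      have e1 := smp_congr g hf'
      have e2 : X1 g f γ = X1 g ψ γ := by simp only [X1, e1]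
      have e3 : L1 g f γ = L1 g ψ γ := by funext x; simp only [L1, e1]
      refine ⟨γ, mem_univ _, f, hf, Or.inl ?_⟩
      rw [e2, e3]
      refine ⟨hγ, φ, hφ, hcol, ?_⟩
      rw [Nat.le_zero, card_eq_zero, filter_eq_empty_iff]
      exact fun x _ => not_not.2 (mem_L1 hψ2 γ x)
    · push Not at hcase
      obtain ⟨f, hf, hf'⟩ := hf 0
      have e1 : smp g f {0} = smp g ψ {0} := smp_congr g fun x hx => hf' x (by simpa using hx)
      have e2 : ctr g f = ctr g ψ := by funext x; simp only [ctr, e1]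
      have e3 : L2 g f = L2 g ψ := by funext x; simp only [L2, C2, e2]
      refine ⟨0, mem_univ _, f, hf, Or.inr ?_⟩
      rw [e3]
      exact ⟨φ, hφ, hcol, wrong_L2 hψi hn h7 hc hc' fun γ => (hcase γ).le⟩
  refine (avg_mono key).trans ?_
  rw [avg_sum, ← card_univ, ← nsmul_eq_mul]
  refine sum_le_card_nsmul _ _ _ fun γ _ => ?_
  rw [avg_sum]
  refine (sum_le_card_nsmul _ _ (2 * (63 / 64) ^ t) fun f _ => ?_).trans ?_
  · rw [avg_add, two_mul]
    refine add_le_add ?_ (follows_prob A _ _ _ t (fun x _ => card_L2 g f x)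
      (by simpa [ZMod.card] using ht))
    by_cases h : 321 ^ 5 * t ≤ (X1 g f γ).card
    · simp only [h, true_and]
      exact follows_prob A _ _ _ t (fun x hx => card_L1 hx) (by simpa using h)
    · simp only [h, false_and, ind_of_not not_false, avg_const]; positivity
  · rw [nsmul_eq_mul, card_univ]
    exact mul_le_mul_of_nonneg_right (hcard γ) (by positivity)

lemma prob_le_of_avg {n : ℕ} (hn : 1 ≤ n) {C b : ℝ} (hC : C < 3)
    (h : ∀ A : Finset (W (Fin n)), avg (fun B => ind (∃ φ : W (Fin n) → W (Fin n),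
      Function.Injective φ ∧ (∀ x i, (supp (φ x + φ (x + e i))).card ≤ 2) ∧
      ∀ x, x ∈ A ↔ φ x ∈ B)) ≤ b) : prob n C ≤ (2 ^ n + 1) * b := by
  classical
  have hp : (0 : ℝ) < (hs n).card := by exact_mod_cast hs_pos n
  have hb : 0 ≤ b := (avg_nonneg fun _ => ind_nonneg _).trans (h ∅)
  rw [prob_eq, div_le_iff₀ (by positivity), ← sum_ind, sum_product]
  refine (sum_le_card_nsmul _ _ (b * 2 ^ 2 ^ n) fun A _ => ?_).trans ?_
  · have h1 := h A
    rw [avg, div_le_iff₀ (by positivity), card_W, Fintype.card_fin] at h1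
    refine le_trans ?_ h1
    refine (sum_le_sum fun B _ => ind_mono ?_).trans
      (sum_le_sum_of_subset_of_nonneg (subset_univ _) fun _ _ _ => ind_nonneg _)
    rintro ⟨φ, hφ, hAB⟩
    refine ⟨φ, φ.injective, fun x i => ?_, fun x => ?_⟩
    · have h2 := hφ.1 x (x + e i)
      rw [hammingDist_eq, hammingDist_eq, add_add_cancel_left, supp_e, card_singleton] at h2
      have h3 : ((supp (φ x + φ (x + e i))).card : ℝ) < 3 := by
        push_cast at h2; linarith
      have : (supp (φ x + φ (x + e i))).card < 3 := by exact_mod_cast h3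
      omega
    · rw [← mem_coe (s := B), ← hAB, φ.injective.mem_set_image, mem_coe]
  · have h1 := one_le_mid (2 ^ n)
    rw [nsmul_eq_mul, pow_two]
    nth_rewrite 3 [card_hs_mid hn]
    push_cast at h1
    calc ((hs n).card : ℝ) * (b * 2 ^ 2 ^ n) = (hs n).card * (b * 2 ^ 2 ^ n) * 1 := by ring
      _ ≤ (hs n).card * (b * 2 ^ 2 ^ n) * ((2 ^ n + 1) * mid (2 ^ n)) := by gcongr
      _ = _ := by ring

theorem lower {C : ℝ} (hC : C < 3) : Tendsto (fun n => prob n C) atTop (𝓝 0) := by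
  obtain ⟨Q, hQ⟩ : ∃ Q : ℕ, Q = 321 ^ 5 * (64 * (24 * 321 ^ 5) + 1) := ⟨_, rfl⟩
  have hQ0 : (0 : ℝ) < Q := by rw [hQ]; positivity
  obtain ⟨ε, hε⟩ : ∃ ε : ℝ, ε = 1 / (512 * Q) := ⟨_, rfl⟩
  have hε0 : 0 < ε := by rw [hε]; positivity
  have lim : Tendsto (fun n : ℕ => 2 * Real.exp (1 / 64) * Real.exp (-ε) ^ n) atTop (𝓝 0) := by
    simpa using (tendsto_pow_atTop_nhds_zero_of_lt_one (Real.exp_pos (-ε)).le
      (Real.exp_lt_one_iff.2 (by linarith))).const_mul (2 * Real.exp (1 / 64))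
  refine squeeze_zero' (Eventually.of_forall fun n => by rw [prob]; positivity) ?_ lim
  have ev1 : ∀ᶠ n : ℕ in atTop, Real.log ((n : ℝ) + 2) ≤ ε / 512 * (n + 2) := by
    have h1 := Real.isLittleO_log_id_atTop.bound (show 0 < ε / 512 by positivity)
    have h2 : Tendsto (fun n : ℕ => (n : ℝ) + 2) atTop atTop :=
      tendsto_atTop_add_const_right _ _ tendsto_natCast_atTop_atTop
    filter_upwards [h2.eventually h1] with n hn
    refine (le_abs_self _).trans (hn.trans (le_of_eq ?_))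
    simp only [id, Real.norm_eq_abs]
    rw [abs_of_nonneg (by positivity)]
  filter_upwards [ev1, eventually_ge_atTop 16,
    tendsto_natCast_atTop_atTop.eventually_ge_atTop (1024 / ε),
    tendsto_natCast_atTop_atTop.eventually_ge_atTop (12 / ε ^ 3)] with n h1 hn h2 h3
  obtain ⟨g, hg⟩ := exists_classes (Fin n) (W (Fin (Nat.log 2 (n / 16))))
  have hM1 := Nat.pow_log_le_self 2 (show n / 16 ≠ 0 by omega)
  have hM2 := Nat.lt_pow_succ_log_self (b := 2) (by norm_num) (n / 16)
  rw [pow_succ] at hM2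
  have hM : Fintype.card (W (Fin (Nat.log 2 (n / 16)))) = 2 ^ Nat.log 2 (n / 16) := by
    rw [card_W, Fintype.card_fin]
  rw [Fintype.card_fin] at hg
  have key := lower_count hn g (fun γ => le_trans (by
      rw [hM, Nat.le_div_iff_mul_le (by positivity)]; omega) (hg γ).1) (fun γ => (hg γ).2)
    (by
      have := Nat.mul_div_le n (Fintype.card (W (Fin (Nat.log 2 (n / 16)))))
      rw [mul_add, hM] at *
      omega) (t := 2 ^ n / Q) (by
      refine le_trans (le_of_eq ?_) (Nat.mul_div_le (2 ^ n) Q)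
      generalize 2 ^ n / Q = t
      rw [hQ]; ring)
  refine (prob_le_of_avg (by omega) hC key).trans ?_
  rw [hM]
  generalize 2 ^ Nat.log 2 (n / 16) = M at *
  have hnN : n < 2 ^ n := Nat.lt_two_pow_self
  have e2 : (2 : ℝ) ^ n = ((2 ^ n : ℕ) : ℝ) := by push_cast; rfl
  rw [e2]
  generalize 2 ^ n = N at *
  have hM0 : 0 < M := by omega
  have rM0 : (0 : ℝ) < M := by exact_mod_cast hM0
  have rM1 : (M : ℝ) ≤ n := by exact_mod_cast (show M ≤ n by omega)
  have rM2 : (n : ℝ) + 1 ≤ 32 * M := by exact_mod_cast (show n + 1 ≤ 32 * M by omega)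
  have rN : (n : ℝ) + 1 ≤ N := by exact_mod_cast hnN
  have rn : (16 : ℝ) ≤ n := by exact_mod_cast hn
  have rN0 : (0 : ℝ) < N := by linarith
  have a1 : ((N : ℝ) + 1) * M ≤ Real.exp (ε * N) := by
    have b1 := Real.pow_div_factorial_le_exp (ε * N) (by positivity) 3
    have b2 : 12 ≤ ε ^ 3 * N := by
      rw [div_le_iff₀ (by positivity)] at h3
      nlinarith [pow_pos hε0 3]
    refine le_trans ?_ b1
    have : (ε * N) ^ 3 / (Nat.factorial 3 : ℕ) = (ε ^ 3 * N) * N ^ 2 / 6 := by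
      norm_num [Nat.factorial]; ring
    rw [this]
    calc ((N : ℝ) + 1) * M ≤ (2 * N) * N :=
          mul_le_mul (by linarith) (by linarith) rM0.le (by positivity)
      _ = 12 * N ^ 2 / 6 := by ring
      _ ≤ _ := by gcongr
  have a2 : ((2 : ℝ) ^ (n + 1)) ^ (N / (M * M)) ≤ Real.exp (ε * N) := by
    calc ((2 : ℝ) ^ (n + 1)) ^ (N / (M * M)) ≤ (Real.exp 1 ^ (n + 1)) ^ (N / (M * M)) := by
          gcongr; linarith [Real.exp_one_gt_d9]
      _ ≤ _ := by
          simp only [← Real.exp_nat_mul]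
          apply Real.exp_le_exp.2
          have b1 : ((N / (M * M) : ℕ) : ℝ) ≤ N / (M * M) := by
            exact_mod_cast Nat.cast_div_le (α := ℝ) (m := N) (n := M * M)
          have b2 : 32 ≤ ε * M := by
            rw [div_le_iff₀ hε0] at h2
            nlinarith
          push_cast
          calc ((N / (M * M) : ℕ) : ℝ) * ((n + 1) * 1) ≤ N / (M * M) * (32 * M * 1) := by gcongr
            _ = 32 * N / M := by field_simp
            _ ≤ ε * M * N / M := by gcongr
            _ = _ := by field_simp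
  have a3 : (((n : ℝ) + 2) ^ 4) ^ (2 * N / M) ≤ Real.exp (ε * N) := by
    rw [← Real.exp_log (show (0 : ℝ) < n + 2 by positivity)]
    simp only [← Real.exp_nat_mul]
    apply Real.exp_le_exp.2
    have b1 : ((2 * N / M : ℕ) : ℝ) ≤ 2 * N / M := by
      exact_mod_cast Nat.cast_div_le (α := ℝ) (m := 2 * N) (n := M)
    have b2 : 0 ≤ Real.log ((n : ℝ) + 2) := Real.log_nonneg (by linarith)
    push_cast
    calc ((2 * N / M : ℕ) : ℝ) * (4 * Real.log (n + 2))
        ≤ 2 * N / M * (4 * (ε / 512 * (64 * M))) := by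
          gcongr
          refine h1.trans ?_
          gcongr; linarith
      _ = _ := by field_simp; norm_num
  have a4 : (63 / 64 : ℝ) ^ (N / Q) ≤ Real.exp (1 / 64) * Real.exp (-(8 * (ε * N))) := by
    calc (63 / 64 : ℝ) ^ (N / Q) ≤ Real.exp (-(1 / 64)) ^ (N / Q) := by
          gcongr; linarith [Real.add_one_le_exp (-(1 / 64 : ℝ))]
      _ ≤ _ := by
          rw [← Real.exp_nat_mul, ← Real.exp_add]
          apply Real.exp_le_exp.2
          have b1 : (N : ℝ) / Q ≤ ((N / Q : ℕ) : ℝ) + 1 := by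
            rw [div_le_iff₀ hQ0]
            have := Nat.lt_div_mul_add (a := N) (b := Q) (by exact_mod_cast hQ0)
            have : (N : ℝ) < ((N / Q : ℕ) : ℝ) * Q + Q := by exact_mod_cast this
            linarith
          have b2 : 8 * (ε * N) = N / Q / 64 := by rw [hε]; field_simp; norm_num
          rw [b2]; linarith
  calc ((N : ℝ) + 1) * (M * ((2 ^ (n + 1)) ^ (N / (M * M)) * (((n : ℝ) + 2) ^ 4) ^ (2 * N / M) *
        (2 * (63 / 64) ^ (N / Q))))
      = ((N : ℝ) + 1) * M * ((2 ^ (n + 1)) ^ (N / (M * M)) * (((n : ℝ) + 2) ^ 4) ^ (2 * N / M) *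
        (2 * (63 / 64) ^ (N / Q))) := by ring
    _ ≤ Real.exp (ε * N) * (Real.exp (ε * N) * Real.exp (ε * N) *
        (2 * (Real.exp (1 / 64) * Real.exp (-(8 * (ε * N)))))) := by gcongr
    _ = 2 * Real.exp (1 / 64) * Real.exp (ε * N + ε * N + ε * N + -(8 * (ε * N))) := by
        simp only [Real.exp_add]; ring
    _ ≤ _ := by
        rw [← Real.exp_nat_mul]
        gcongr
        nlinarith

end Pool.Agent.P.MP_38a0b7_co
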