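import Mathlib

/-!
Uniform averages over the subsets of a finite type, resampling, independence of disjoint blocks,
exponential moments, and comparison of the uniform measure with the measure conditioned on
cardinalities.
-/

set_option linter.unusedSectionVars false

namespace Pool.Agent.P.MP_38a0b7_co

open Finset

variable {U : Type*} [Fintype U] [DecidableEq U]

/-- average over all subsets -/
noncomputable def avg (F : Finset U → ℝ) : ℝ := (∑ Ω, F Ω) / 2 ^ Fintype.card U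

/-- resampling the block `R` -/
def mix (R Ω₁ Ω₂ : Finset U) : Finset U := (Ω₁ \ R) ∪ (Ω₂ ∩ R)

/-- `F` depends only on the block `R` -/
def Dep {β : Type*} (F : Finset U → β) (R : Finset U) : Prop :=
  ∀ Ω Ω' : Finset U, (∀ w ∈ R, w ∈ Ω ↔ w ∈ Ω') → F Ω = F Ω'

/-- indicator -/
noncomputable def ind (p : Prop) : ℝ := by classical exact if p then 1 else 0

omit [Fintype U] in
lemma mem_mix {R Ω₁ Ω₂ : Finset U} {w : U} :
    w ∈ mix R Ω₁ Ω₂ ↔ if w ∈ R then w ∈ Ω₂ else w ∈ Ω₁ := by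
  unfold mix
  by_cases h : w ∈ R <;> simp [h]

omit [Fintype U] in
lemma mem_mix_of_mem {R Ω₁ Ω₂ : Finset U} {w : U} (h : w ∈ R) : w ∈ mix R Ω₁ Ω₂ ↔ w ∈ Ω₂ := by
  simp [mem_mix, h]

omit [Fintype U] in
lemma mem_mix_of_not_mem {R Ω₁ Ω₂ : Finset U} {w : U} (h : w ∉ R) :
    w ∈ mix R Ω₁ Ω₂ ↔ w ∈ Ω₁ := by
  simp [mem_mix, h]

lemma ind_nonneg (p : Prop) : 0 ≤ ind p := by unfold ind; split_ifs <;> norm_num
lemma ind_le_one (p : Prop) : ind p ≤ 1 := by unfold ind; split_ifs <;> norm_num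
lemma ind_of {p : Prop} (h : p) : ind p = 1 := by unfold ind; simp [h]
lemma ind_of_not {p : Prop} (h : ¬ p) : ind p = 0 := by unfold ind; simp [h]
lemma ind_congr {p q : Prop} (h : p ↔ q) : ind p = ind q := by rw [propext h]
lemma ind_and (p q : Prop) : ind (p ∧ q) = ind p * ind q := by
  by_cases hp : p <;> by_cases hq : q <;> simp [ind, hp, hq]
lemma ind_mono {p q : Prop} (h : p → q) : ind p ≤ ind q := by
  by_cases hp : p
  · rw [ind_of hp, ind_of (h hp)]
  · rw [ind_of_not hp]; exact ind_nonneg _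
lemma ind_le {p : Prop} {x : ℝ} (hx : 0 ≤ x) (h : p → 1 ≤ x) : ind p ≤ x := by
  by_cases hp : p
  · rw [ind_of hp]; exact h hp
  · rw [ind_of_not hp]; exact hx
lemma ind_or (p q : Prop) : ind (p ∨ q) ≤ ind p + ind q := by
  apply ind_le (add_nonneg (ind_nonneg _) (ind_nonneg _))
  rintro (h | h)
  · rw [ind_of h]; linarith [ind_nonneg q]
  · rw [ind_of h]; linarith [ind_nonneg p]
lemma ind_not (p : Prop) : ind (¬ p) = 1 - ind p := by
  by_cases hp : p <;> simp [ind, hp]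
lemma ind_exists {α : Type*} (s : Finset α) (p : α → Prop) :
    ind (∃ a ∈ s, p a) ≤ ∑ a ∈ s, ind (p a) := by
  apply ind_le (sum_nonneg fun _ _ => ind_nonneg _)
  rintro ⟨a, ha, h⟩
  rw [← ind_of h]
  exact single_le_sum (f := fun a => ind (p a)) (fun _ _ => ind_nonneg _) ha
lemma ind_forall {α : Type*} (s : Finset α) (p : α → Prop) :
    ind (∀ a ∈ s, p a) = ∏ a ∈ s, ind (p a) := by
  classical
  induction s using Finset.induction_on with
  | empty => simp [ind]
  | insert a s ha ih => rw [prod_insert ha, ← ih, ← ind_and]; apply ind_congr; simp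

omit [DecidableEq U] in
lemma sum_ind (p : U → Prop) [DecidablePred p] (s : Finset U) :
    ∑ a ∈ s, ind (p a) = ((s.filter p).card : ℝ) := by
  rw [card_filter]; push_cast
  refine sum_congr rfl fun a _ => ?_
  by_cases h : p a <;> simp [ind, h]

lemma avg_mono {F G : Finset U → ℝ} (h : ∀ Ω, F Ω ≤ G Ω) : avg F ≤ avg G := by
  unfold avg
  gcongr with Ω
  exact h Ω

lemma avg_const (c : ℝ) : avg (fun _ : Finset U => c) = c := by
  unfold avg
  simp [Fintype.card_finset]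

lemma avg_nonneg {F : Finset U → ℝ} (h : ∀ Ω, 0 ≤ F Ω) : 0 ≤ avg F := by
  rw [← avg_const (U := U) 0]; exact avg_mono h

lemma avg_le_const {F : Finset U → ℝ} {c : ℝ} (h : ∀ Ω, F Ω ≤ c) : avg F ≤ c := by
  rw [← avg_const (U := U) c]; exact avg_mono h

lemma avg_add (F G : Finset U → ℝ) : avg (fun Ω => F Ω + G Ω) = avg F + avg G := by
  unfold avg; rw [sum_add_distrib, add_div]

lemma avg_sub (F G : Finset U → ℝ) : avg (fun Ω => F Ω - G Ω) = avg F - avg G := by
  unfold avg; rw [sum_sub_distrib, sub_div]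

lemma avg_mul_left (c : ℝ) (F : Finset U → ℝ) : avg (fun Ω => c * F Ω) = c * avg F := by
  unfold avg; rw [← mul_sum, mul_div_assoc]

lemma avg_mul_right (c : ℝ) (F : Finset U → ℝ) : avg (fun Ω => F Ω * c) = avg F * c := by
  simp only [mul_comm _ c, avg_mul_left]

lemma avg_sum {α : Type*} (s : Finset α) (F : α → Finset U → ℝ) :
    avg (fun Ω => ∑ a ∈ s, F a Ω) = ∑ a ∈ s, avg (F a) := by
  unfold avg; rw [sum_comm, sum_div]

lemma avg_equiv (e : Finset U ≃ Finset U) (F : Finset U → ℝ) :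
    avg (fun Ω => F (e Ω)) = avg F := by
  unfold avg; rw [Equiv.sum_comp e F]

omit [Fintype U] in
lemma mix_mix (R Ω₁ Ω₂ : Finset U) : mix R (mix R Ω₁ Ω₂) (mix R Ω₂ Ω₁) = Ω₁ := by
  ext w; by_cases h : w ∈ R <;> simp [mem_mix, h]

lemma avg_mix (R : Finset U) (F : Finset U → ℝ) :
    avg F = avg (fun Ω₁ => avg (fun Ω₂ => F (mix R Ω₁ Ω₂))) := by
  let e : Finset U × Finset U ≃ Finset U × Finset U :=
    Function.Involutive.toPerm (fun p => (mix R p.1 p.2, mix R p.2 p.1))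
      (fun p => by simp [mix_mix])
  have h1 : ∑ p : Finset U × Finset U, F (e p).1 = ∑ p : Finset U × Finset U, F p.1 :=
    Equiv.sum_comp e (fun p => F p.1)
  have h2 : ∑ p : Finset U × Finset U, F p.1 = 2 ^ Fintype.card U * ∑ Ω, F Ω := by
    rw [Fintype.sum_prod_type]
    simp [Fintype.card_finset, mul_sum]
  have h3 : ∑ p : Finset U × Finset U, F (e p).1
      = ∑ Ω₁, ∑ Ω₂, F (mix R Ω₁ Ω₂) := by
    rw [Fintype.sum_prod_type]; rfl
  unfold avg
  rw [← sum_div, ← h3, h1, h2]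
  field_simp

/-- conditional bound -/
lemma avg_mul_le (R : Finset U) {F G : Finset U → ℝ} {c : ℝ} (hF0 : ∀ Ω, 0 ≤ F Ω)
    (hF : ∀ Ω₁ Ω₂, F (mix R Ω₁ Ω₂) = F Ω₁)
    (hG : ∀ Ω₁, avg (fun Ω₂ => G (mix R Ω₁ Ω₂)) ≤ c) :
    avg (fun Ω => F Ω * G Ω) ≤ avg F * c := by
  rw [avg_mix R, ← avg_mul_right]
  apply avg_mono
  intro Ω₁
  simp only [hF]
  rw [avg_mul_left]
  exact mul_le_mul_of_nonneg_left (hG Ω₁) (hF0 Ω₁)

omit [Fintype U] in
lemma Dep.mix_left {β : Type*} {F : Finset U → β} {Q R : Finset U} (h : Dep F Q)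
    (hd : Disjoint Q R) (Ω₁ Ω₂ : Finset U) : F (mix R Ω₁ Ω₂) = F Ω₁ :=
  h _ _ fun _ hw => mem_mix_of_not_mem (disjoint_left.1 hd hw)

omit [Fintype U] in
lemma Dep.mix_right {β : Type*} {F : Finset U → β} {Q R : Finset U} (h : Dep F Q)
    (hd : Q ⊆ R) (Ω₁ Ω₂ : Finset U) : F (mix R Ω₁ Ω₂) = F Ω₂ :=
  h _ _ fun _ hw => mem_mix_of_mem (hd hw)

omit [Fintype U] [DecidableEq U] in
lemma Dep.mono {β : Type*} {F : Finset U → β} {Q R : Finset U} (h : Dep F Q) (hd : Q ⊆ R) :
    Dep F R := fun _ _ hw => h _ _ fun w hw' => hw w (hd hw')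

omit [Fintype U] [DecidableEq U] in
lemma Dep.comp {β γ : Type*} {F : Finset U → β} {Q : Finset U} (h : Dep F Q) (g : β → γ) :
    Dep (fun Ω => g (F Ω)) Q := fun _ _ hw => by beta_reduce; rw [h _ _ hw]

lemma avg_mul_indep {F G : Finset U → ℝ} {Q R : Finset U} (hF : Dep F Q) (hG : Dep G R)
    (hd : Disjoint Q R) : avg (fun Ω => F Ω * G Ω) = avg F * avg G := by
  rw [avg_mix R, ← avg_mul_right]
  congr 1
  funext Ω₁
  simp only [hF.mix_left hd, hG.mix_right subset_rfl]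
  rw [avg_mul_left]

omit [Fintype U] in
lemma Dep.prod {α : Type*} (s : Finset α) (R : α → Finset U) (F : α → Finset U → ℝ)
    (h : ∀ a ∈ s, Dep (F a) (R a)) : Dep (fun Ω => ∏ a ∈ s, F a Ω) (s.biUnion R) := by
  intro Ω Ω' hw
  exact prod_congr rfl fun a ha => h a ha _ _ fun w hw' => hw w (mem_biUnion.2 ⟨a, ha, hw'⟩)

lemma avg_prod {α : Type*} (s : Finset α) (R : α → Finset U) (F : α → Finset U → ℝ)
    (h : ∀ a ∈ s, Dep (F a) (R a))
    (hd : ∀ a ∈ s, ∀ b ∈ s, a ≠ b → Disjoint (R a) (R b)) :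
    avg (fun Ω => ∏ a ∈ s, F a Ω) = ∏ a ∈ s, avg (F a) := by
  classical
  induction s using Finset.induction_on with
  | empty => simp [avg_const]
  | insert a s ha ih =>
    simp only [prod_insert ha]
    rw [avg_mul_indep (h a (mem_insert_self _ _))
      (Dep.prod s R F fun b hb => h b (mem_insert_of_mem hb))
      (by
        rw [disjoint_biUnion_right]
        intro b hb
        exact hd a (mem_insert_self _ _) b (mem_insert_of_mem hb) (by rintro rfl; exact ha hb)),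
      ih (fun b hb => h b (mem_insert_of_mem hb))
        (fun b hb c hc => hd b (mem_insert_of_mem hb) c (mem_insert_of_mem hc))]

lemma avg_prod_le {α : Type*} (s : Finset α) (R : α → Finset U) (F : α → Finset U → ℝ) (c : ℝ)
    (h : ∀ a ∈ s, Dep (F a) (R a)) (h0 : ∀ a ∈ s, ∀ Ω, 0 ≤ F a Ω)
    (hd : ∀ a ∈ s, ∀ b ∈ s, a ≠ b → Disjoint (R a) (R b)) (hc : ∀ a ∈ s, avg (F a) ≤ c) :
    avg (fun Ω => ∏ a ∈ s, F a Ω) ≤ c ^ s.card := by
  rw [avg_prod s R F h hd, ← prod_const]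
  exact prod_le_prod (fun a ha => avg_nonneg (h0 a ha)) hc

/-- flipping the statuses in a block -/
def flip (R : Finset U) : Finset U ≃ Finset U :=
  Function.Involutive.toPerm (fun Ω => symmDiff Ω R) (fun Ω => by simp)

omit [Fintype U] in
lemma mem_flip {R Ω : Finset U} {w : U} : w ∈ flip R Ω ↔ (w ∈ Ω ↔ w ∉ R) := by
  show w ∈ symmDiff Ω R ↔ _
  rw [mem_symmDiff]; tauto

lemma avg_single (w : U) (a b : ℝ) :
    avg (fun Ω : Finset U => if w ∈ Ω then a else b) = (a + b) / 2 := by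
  have h := avg_equiv (flip {w}) (fun Ω : Finset U => if w ∈ Ω then a else b)
  have h2 := avg_add (fun Ω : Finset U => if w ∈ flip {w} Ω then a else b)
    (fun Ω : Finset U => if w ∈ Ω then a else b)
  have h3 : (fun Ω : Finset U => (if w ∈ flip {w} Ω then a else b) + if w ∈ Ω then a else b)
      = fun _ => a + b := by
    funext Ω
    by_cases hw : w ∈ Ω <;> simp [mem_flip, hw, add_comm]
  rw [h3, avg_const, h] at h2
  linarith

lemma avg_prod_single (R : Finset U) (a b : U → ℝ) :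
    avg (fun Ω : Finset U => ∏ w ∈ R, if w ∈ Ω then a w else b w) = ∏ w ∈ R, (a w + b w) / 2 := by
  rw [avg_prod R (fun w => {w}) (fun w Ω => if w ∈ Ω then a w else b w)]
  · exact prod_congr rfl fun w _ => avg_single w _ _
  · intro w _ Ω Ω' h
    simp [h w (mem_singleton_self w)]
  · intro w _ w' _ h
    simpa using h

lemma avg_pattern (C T : Finset U) :
    avg (fun Ω : Finset U => ind (∀ w ∈ C, (w ∈ Ω ↔ w ∈ T))) = (1 / 2) ^ C.card := by
  have := avg_prod_single C (fun w => ind (w ∈ T)) (fun w => ind (w ∉ T))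
  rw [prod_congr rfl (g := fun _ => (1 / 2 : ℝ)) (fun w _ => by rw [ind_not]; ring),
    prod_const] at this
  rw [← this]
  congr 1
  funext Ω
  rw [ind_forall]
  refine prod_congr rfl fun w _ => ?_
  by_cases h : w ∈ Ω <;> simp [h]

lemma avg_pow_card (R : Finset U) (z : ℝ) :
    avg (fun Ω : Finset U => z ^ (R.filter (· ∈ Ω)).card) = ((z + 1) / 2) ^ R.card := by
  have := avg_prod_single R (fun _ => z) (fun _ => 1)
  rw [prod_const] at this
  rw [← this]
  congr 1
  funext Ω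
  rw [prod_ite]; simp

lemma avg_exp_card (R : Finset U) (l : ℝ) :
    avg (fun Ω : Finset U => Real.exp (l * (((R.filter (· ∈ Ω)).card : ℝ) - R.card / 2)))
      ≤ Real.exp (l ^ 2 * R.card / 8) := by
  have := avg_prod_single R (fun _ => Real.exp (l / 2)) (fun _ => Real.exp (-(l / 2)))
  rw [prod_const, ← Real.cosh_eq] at this
  have h2 : (fun Ω : Finset U => Real.exp (l * (((R.filter (· ∈ Ω)).card : ℝ) - R.card / 2)))
      = fun Ω : Finset U => ∏ w ∈ R, if w ∈ Ω then Real.exp (l / 2) else Real.exp (-(l / 2)) := by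
    funext Ω
    rw [prod_ite, prod_const, prod_const, ← Real.exp_nat_mul, ← Real.exp_nat_mul, ← Real.exp_add]
    congr 1
    have : (R.card : ℝ) = (R.filter (· ∈ Ω)).card + (R.filter (fun w => ¬ w ∈ Ω)).card := by
      rw [← Nat.cast_add, card_filter_add_card_filter_not]
    rw [this]; ring
  rw [h2, this]
  calc Real.cosh (l / 2) ^ R.card ≤ Real.exp ((l / 2) ^ 2 / 2) ^ R.card := by
        gcongr
        exact Real.cosh_le_exp_half_sq _
    _ = _ := by rw [← Real.exp_nat_mul]; congr 1; ring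

/-- two-sided tail from a subgaussian moment bound -/
lemma tail_of_mgf {X : Finset U → ℝ} {s t : ℝ} (hs : 0 < s) (ht : 0 ≤ t)
    (h : ∀ l : ℝ, avg (fun Ω => Real.exp (l * X Ω)) ≤ Real.exp (l ^ 2 * s / 2)) :
    avg (fun Ω => ind (t < |X Ω|)) ≤ 2 * Real.exp (-(t ^ 2 / (2 * s))) := by
  have key : ∀ Ω, ind (t < |X Ω|) ≤ Real.exp (-(t ^ 2 / s)) *
      (Real.exp (t / s * X Ω) + Real.exp (-(t / s) * X Ω)) := by
    intro Ω
    apply ind_le (by positivity)
    intro hX
    have hts : 0 ≤ t / s := by positivity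
    rw [mul_add, ← Real.exp_add, ← Real.exp_add]
    rcases lt_abs.1 hX with h1 | h1
    · have : 1 ≤ Real.exp (-(t ^ 2 / s) + t / s * X Ω) := by
        apply Real.one_le_exp
        have : t / s * t ≤ t / s * X Ω := mul_le_mul_of_nonneg_left h1.le hts
        have e : t ^ 2 / s = t / s * t := by ring
        linarith
      linarith [Real.exp_pos (-(t ^ 2 / s) + -(t / s) * X Ω)]
    · have : 1 ≤ Real.exp (-(t ^ 2 / s) + -(t / s) * X Ω) := by
        apply Real.one_le_exp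
        have : t / s * t ≤ t / s * (-X Ω) := mul_le_mul_of_nonneg_left h1.le hts
        have e : t ^ 2 / s = t / s * t := by ring
        linarith
      linarith [Real.exp_pos (-(t ^ 2 / s) + t / s * X Ω)]
  refine (avg_mono key).trans ?_
  rw [avg_mul_left, avg_add]
  have h1 := h (t / s)
  have h2 := h (-(t / s))
  rw [neg_sq] at h2
  have e : Real.exp (-(t ^ 2 / s)) * Real.exp ((t / s) ^ 2 * s / 2)
      = Real.exp (-(t ^ 2 / (2 * s))) := by
    rw [← Real.exp_add]; congr 1; field_simp; ring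
  have := Real.exp_pos (-(t ^ 2 / s))
  nlinarith

lemma hoeffding (R : Finset U) {t s : ℝ} (ht : 0 ≤ t) (hs : 0 < s) (hR : (R.card : ℝ) ≤ s) :
    avg (fun Ω : Finset U => ind (t < |((R.filter (· ∈ Ω)).card : ℝ) - R.card / 2|))
      ≤ 2 * Real.exp (-(2 * t ^ 2 / s)) := by
  have := tail_of_mgf (X := fun Ω : Finset U => ((R.filter (· ∈ Ω)).card : ℝ) - R.card / 2)
    (s := s / 4) (by positivity) ht (fun l => (avg_exp_card R l).trans (by
      apply Real.exp_le_exp.2
      have := mul_le_mul_of_nonneg_left hR (sq_nonneg l)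
      linarith))
  convert this using 4
  field_simp; ring

/-- symmetric bounded variables are subgaussian -/
lemma mgf_of_symm {X : Finset U → ℝ} {b : ℝ} (e : Finset U ≃ Finset U)
    (he : ∀ Ω, X (e Ω) = - X Ω) (hb : ∀ Ω, |X Ω| ≤ b) (l : ℝ) :
    avg (fun Ω => Real.exp (l * X Ω)) ≤ Real.exp (l ^ 2 * b ^ 2 / 2) := by
  have h1 := avg_equiv e (fun Ω => Real.exp (l * X Ω))
  have h2 := avg_add (fun Ω => Real.exp (l * X (e Ω))) (fun Ω => Real.exp (l * X Ω))
  have h3 : avg (fun Ω => Real.exp (l * X (e Ω)) + Real.exp (l * X Ω))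
      ≤ 2 * Real.exp (l ^ 2 * b ^ 2 / 2) := by
    apply avg_le_const
    intro Ω
    rw [he, mul_neg]
    have h4 := Real.cosh_le_exp_half_sq (l * X Ω)
    rw [Real.cosh_eq] at h4
    have h5 : Real.exp ((l * X Ω) ^ 2 / 2) ≤ Real.exp (l ^ 2 * b ^ 2 / 2) := by
      apply Real.exp_le_exp.2
      have : X Ω ^ 2 ≤ b ^ 2 := by
        rw [← sq_abs]; exact pow_le_pow_left₀ (abs_nonneg _) (hb Ω) 2
      rw [mul_pow]
      have := mul_le_mul_of_nonneg_left this (sq_nonneg l)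
      linarith
    linarith
  linarith

/-- subgaussian bound for a sum with coefficients independent of the summands -/
lemma mgf_sum {α : Type*} (s : Finset α) (R : α → Finset U) (Z : Finset U)
    (c X : α → Finset U → ℝ) {a v : ℝ} (hv : 0 ≤ v)
    (hX : ∀ i ∈ s, Dep (X i) (R i)) (hc : ∀ i ∈ s, Dep (c i) Z)
    (hd : ∀ i ∈ s, ∀ j ∈ s, i ≠ j → Disjoint (R i) (R j)) (hZ : ∀ i ∈ s, Disjoint Z (R i))
    (ha : ∀ i ∈ s, ∀ Ω, |c i Ω| ≤ a)
    (h : ∀ i ∈ s, ∀ l : ℝ, avg (fun Ω => Real.exp (l * X i Ω)) ≤ Real.exp (l ^ 2 * v / 2))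
    (l : ℝ) :
    avg (fun Ω => Real.exp (l * ∑ i ∈ s, c i Ω * X i Ω))
      ≤ Real.exp (l ^ 2 * (s.card * a ^ 2 * v) / 2) := by
  rw [avg_mix Zᶜ]
  apply avg_le_const
  intro Ω₁
  have e : (fun Ω₂ => Real.exp (l * ∑ i ∈ s, c i (mix Zᶜ Ω₁ Ω₂) * X i (mix Zᶜ Ω₁ Ω₂)))
      = fun Ω₂ => ∏ i ∈ s, Real.exp ((l * c i Ω₁) * X i Ω₂) := by
    funext Ω₂
    rw [← Real.exp_sum, mul_sum]
    congr 1
    refine sum_congr rfl fun i hi => ?_
    rw [(hc i hi).mix_left disjoint_compl_right,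
      (hX i hi).mix_right (subset_compl_iff_disjoint_left.2 (hZ i hi))]
    ring
  rw [e]
  refine (avg_prod_le s R _ (Real.exp (l ^ 2 * (a ^ 2 * v) / 2))
    (fun i hi => (hX i hi).comp (fun x => Real.exp ((l * c i Ω₁) * x)))
    (fun _ _ _ => (Real.exp_pos _).le) hd (fun i hi => (h i hi _).trans ?_)).trans ?_
  · apply Real.exp_le_exp.2
    have : c i Ω₁ ^ 2 ≤ a ^ 2 := by
      rw [← sq_abs]; exact pow_le_pow_left₀ (abs_nonneg _) (ha i hi Ω₁) 2
    have := mul_le_mul_of_nonneg_left this (mul_nonneg (sq_nonneg l) hv)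
    rw [mul_pow]
    linarith
  · rw [← Real.exp_nat_mul]
    apply le_of_eq; congr 1; ring

end Pool.Agent.P.MP_38a0b7_co
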