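import Pool.Agent.P.MP_38a0b7_co.Flow

/-! Matching off the atypical vertices, and edge expansion from local connectivity. -/

set_option linter.unusedSectionVars false

namespace Pool.Agent.P.MP_38a0b7_co

open Finset

variable {ι : Type*} [Fintype ι] [DecidableEq ι]

lemma nb_subset_ball (x : W ι) (D : Finset ι) {r : ℕ} (hr : 1 ≤ r) : nb x D ⊆ ball x r := by
  intro y hy
  obtain ⟨i, -, rfl⟩ := mem_nb.1 hy
  exact mem_ball_mono (add_e_mem_ball x i) hr

lemma card_nb_inter (Γ : Finset (W ι)) (D : Finset ι) (x : W ι) :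
    (nb x D ∩ Γ).card = deg Γ D x := by
  rw [← filter_mem_eq_inter, card_filter_nb]; rfl

lemma exists_partner (Ω B : Finset (W ι)) (K : ℕ)
    (hA : ∀ x, (B ∩ ball x 28).card ≤ K)
    (hB : ∀ x y, deg Ω univ x ≤ 2 * K → y ∈ ball x 2 → y ≠ x → y ∉ B)
    (hI : ∀ x ∈ Ω, ∃ i, x + e i ∈ Ω) :
    ∃ p : W ι → W ι, Set.InjOn p ↑(Ω ∩ B) ∧ ∀ x ∈ Ω ∩ B, p x ∈ nb x univ ∩ (Ω \ B) := by
  apply hall_on
  intro S hS
  set t : W ι → Finset (W ι) := fun x => nb x univ ∩ (Ω \ B) with ht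
  have hlow : ∀ x ∈ S, deg Ω univ x ≤ 2 * K → 1 ≤ (t x).card := by
    intro x hx h
    obtain ⟨i, hi⟩ := hI x (mem_inter.1 (hS hx)).1
    refine card_pos.2 ⟨x + e i, mem_inter.2 ⟨mem_nb.2 ⟨i, mem_univ _, rfl⟩, mem_sdiff.2 ⟨hi, ?_⟩⟩⟩
    exact hB x _ h (mem_ball_mono (add_e_mem_ball x i) (by norm_num))
      (by simpa using e_ne_zero i)
  have hhigh : ∀ x, ¬ deg Ω univ x ≤ 2 * K → K + 1 ≤ (t x).card := by
    intro x h
    have h1 : nb x univ ∩ Ω ⊆ t x ∪ (B ∩ ball x 28) := by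
      intro y hy
      rw [mem_inter] at hy
      by_cases hyB : y ∈ B
      · exact mem_union_right _ (mem_inter.2 ⟨hyB, nb_subset_ball x _ (by norm_num) hy.1⟩)
      · exact mem_union_left _ (mem_inter.2 ⟨hy.1, mem_sdiff.2 ⟨hy.2, hyB⟩⟩)
    have h2 := (card_le_card h1).trans (card_union_le _ _)
    rw [card_nb_inter] at h2
    have := hA x
    omega
  have hpos : ∀ x ∈ S, 1 ≤ (t x).card := by
    intro x hx
    by_cases h : deg Ω univ x ≤ 2 * K
    · exact hlow x hx h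
    · have := hhigh x h; omega
  have h1 : (S.card : ℝ) = ∑ x ∈ S, ∑ y ∈ S.biUnion t,
      if y ∈ t x then 1 / ((t x).card : ℝ) else 0 := by
    rw [card_eq_sum_ones]; push_cast
    refine sum_congr rfl fun x hx => ?_
    rw [← sum_filter, filter_mem_eq_inter, inter_eq_right.2 (subset_biUnion_of_mem t hx),
      sum_const, nsmul_eq_mul]
    have : (0 : ℝ) < (t x).card := by exact_mod_cast hpos x hx
    field_simp
  have h2 : ∀ y ∈ S.biUnion t,
      ∑ x ∈ S, (if y ∈ t x then 1 / ((t x).card : ℝ) else 0) ≤ 1 := by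
    intro y _
    rw [← sum_filter]
    by_cases h : ∃ x0 ∈ S.filter (fun x => y ∈ t x), deg Ω univ x0 ≤ 2 * K
    · obtain ⟨x0, hx0, h⟩ := h
      have : S.filter (fun x => y ∈ t x) = {x0} := by
        refine eq_singleton_iff_unique_mem.2 ⟨hx0, fun x hx => ?_⟩
        by_contra hne
        rw [mem_filter] at hx hx0
        refine hB x0 x h ?_ hne (mem_inter.1 (hS hx.1)).2
        exact mem_ball_trans (r := 1) (s := 1)
          (nb_subset_ball x0 _ le_rfl (mem_inter.1 hx0.2).1)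
          (nb_subset_ball y _ le_rfl (mem_nb_symm (mem_inter.1 hx.2).1))
      rw [this, sum_singleton]
      have : (1 : ℝ) ≤ (t x0).card := by exact_mod_cast hpos x0 (mem_filter.1 hx0).1
      rw [div_le_one (by linarith)]; exact this
    · push Not at h
      have h3 : (S.filter (fun x => y ∈ t x)).card ≤ K := by
        refine le_trans (card_le_card fun x hx => ?_) (hA y)
        rw [mem_filter] at hx
        exact mem_inter.2 ⟨(mem_inter.1 (hS hx.1)).2,
          nb_subset_ball y _ (by norm_num) (mem_nb_symm (mem_inter.1 hx.2).1)⟩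
      refine (sum_le_card_nsmul _ _ (1 / ((K : ℝ) + 1)) fun x hx => ?_).trans ?_
      · have : ((K : ℝ) + 1) ≤ (t x).card := by exact_mod_cast hhigh x (not_le.2 (h x hx))
        gcongr
      · rw [nsmul_eq_mul]
        have : ((S.filter (fun x => y ∈ t x)).card : ℝ) ≤ K := by exact_mod_cast h3
        rw [mul_one_div, div_le_one (by positivity)]; linarith
  rw [sum_comm] at h1
  have h3 := sum_le_card_nsmul _ _ _ h2
  rw [← h1, nsmul_eq_mul, mul_one] at h3
  exact_mod_cast h3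

lemma exists_rem (Ω B : Finset (W ι)) (K : ℕ)
    (hA : ∀ x, (B ∩ ball x 28).card ≤ K)
    (hB : ∀ x y, deg Ω univ x ≤ 2 * K → y ∈ ball x 2 → y ≠ x → y ∉ B)
    (hI : ∀ x ∈ Ω, ∃ i, x + e i ∈ Ω) :
    ∃ Z ⊆ Ω, Mat Z ∧ ∑ x ∈ Z, sg x = 0 ∧ Ω ∩ B ⊆ Z ∧ ∀ x, (Z ∩ ball x 27).card ≤ 2 * K := by
  obtain ⟨p, hp, hp'⟩ := exists_partner Ω B K hA hB hI
  have hpB : ∀ x ∈ Ω ∩ B, p x ∉ B := fun x hx => (mem_sdiff.1 (mem_inter.1 (hp' x hx)).2).2
  have hpΩ : ∀ x ∈ Ω ∩ B, p x ∈ Ω := fun x hx => (mem_sdiff.1 (mem_inter.1 (hp' x hx)).2).1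
  have hpn : ∀ x ∈ Ω ∩ B, p x ∈ nb x univ := fun x hx => (mem_inter.1 (hp' x hx)).1
  have hdisj : Disjoint (Ω ∩ B) ((Ω ∩ B).image p) := by
    rw [disjoint_right]
    intro y hy hy'
    obtain ⟨x, hx, rfl⟩ := mem_image.1 hy
    exact hpB x hx (mem_inter.1 hy').2
  refine ⟨(Ω ∩ B) ∪ (Ω ∩ B).image p, ?_, ?_, ?_, subset_union_left, ?_⟩
  · apply union_subset inter_subset_left
    intro y hy
    obtain ⟨x, hx, rfl⟩ := mem_image.1 hy
    exact hpΩ x hx
  · have hq : ∀ y, ∃ x, y ∈ (Ω ∩ B).image p → x ∈ Ω ∩ B ∧ p x = y := by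
      intro y
      by_cases hy : y ∈ (Ω ∩ B).image p
      · obtain ⟨x, hx, rfl⟩ := mem_image.1 hy
        exact ⟨x, fun _ => ⟨hx, rfl⟩⟩
      · exact ⟨y, fun h => absurd h hy⟩
    choose q hq using hq
    refine ⟨fun x => if x ∈ Ω ∩ B then p x else q x, ?_, ?_⟩
    · intro x hx y hy hxy
      simp only [coe_filter, mem_union, Set.mem_ofPred_eq] at hx hy
      by_cases hx1 : x ∈ Ω ∩ B <;> by_cases hy1 : y ∈ Ω ∩ B <;>
        simp only [hx1, hy1, if_true, if_false] at hxy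
      · exact hp hx1 hy1 hxy
      · exact absurd (hxy ▸ (mem_inter.1 (hq y (hy.1.resolve_left hy1)).1).2) (hpB x hx1)
      · exact absurd (hxy ▸ (mem_inter.1 (hq x (hx.1.resolve_left hx1)).1).2) (hpB y hy1)
      · rw [← (hq x (hx.1.resolve_left hx1)).2, ← (hq y (hy.1.resolve_left hy1)).2, hxy]
    · intro x hx _
      by_cases hx1 : x ∈ Ω ∩ B
      · simp only [hx1, if_true]
        obtain ⟨i, -, hi⟩ := mem_nb.1 (hpn x hx1)
        exact ⟨mem_union_right _ (mem_image_of_mem p hx1), i, hi.symm⟩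
      · simp only [hx1, if_false]
        have h := hq x ((mem_union.1 hx).resolve_left hx1)
        obtain ⟨i, -, hi⟩ := mem_nb.1 (mem_nb_symm (hpn _ h.1))
        rw [h.2] at hi
        exact ⟨mem_union_left _ h.1, i, hi.symm⟩
  · rw [sum_union hdisj, sum_image hp, ← sum_add_distrib]
    refine sum_eq_zero fun x hx => ?_
    obtain ⟨i, -, hi⟩ := mem_nb.1 (hpn x hx)
    rw [← hi, sg_add_e]; ring
  · intro x
    have : ((Ω ∩ B) ∪ (Ω ∩ B).image p) ∩ ball x 27 ⊆
        (B ∩ ball x 28) ∪ (B ∩ ball x 28).image p := by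
      intro y hy
      rw [mem_inter, mem_union] at hy
      rcases hy.1 with h | h
      · exact mem_union_left _ (mem_inter.2 ⟨(mem_inter.1 h).2,
          mem_ball_mono hy.2 (by norm_num)⟩)
      · obtain ⟨z, hz, rfl⟩ := mem_image.1 h
        refine mem_union_right _ (mem_image_of_mem p (mem_inter.2 ⟨(mem_inter.1 hz).2, ?_⟩))
        exact mem_ball_trans (s := 1) hy.2 (nb_subset_ball _ _ le_rfl (mem_nb_symm (hpn z hz)))
    refine (card_le_card this).trans ((card_union_le _ _).trans ?_)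
    have h1 := hA x
    have h2 := (card_image_le (s := B ∩ ball x 28) (f := p)).trans h1
    omega

lemma expansion (Γ : Finset (W ι)) (h2 : ∀ z, ∃ a ∈ Γ, a ∈ ball z 2)
    (X : Finset (W ι)) (hX : X ⊆ Γ)
    (hc : ∀ a ∈ X, ∀ a' ∈ Γ \ X, a' ∈ ball a 5 → ∃ p ∈ bdIn Γ X, p.1 ∈ ball a 7) :
    min X.card (Γ \ X).card
      ≤ 2 * (Fintype.card ι * (Fintype.card ι + 1) ^ 9) * (bdIn Γ X).card := by
  have h3 : ∀ z, ∃ a ∈ Γ, a ∈ ball z 2 ∧ (z ∈ Γ → a = z) := by
    intro z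
    by_cases hz : z ∈ Γ
    · exact ⟨z, hz, mem_ball_self _ _, fun _ => rfl⟩
    · obtain ⟨a, ha, ha'⟩ := h2 z
      exact ⟨a, ha, ha', fun h => absurd h hz⟩
  choose π hπ hπ' hπ'' using h3
  set Y : Finset (W ι) := univ.filter (fun z => π z ∈ X) with hY
  have a1 : X.card ≤ Y.card := card_le_card fun x hx => by
    simp only [hY, mem_filter, mem_univ, true_and]; rwa [hπ'' x (hX hx)]
  have a2 : (Γ \ X).card ≤ Yᶜ.card := card_le_card fun x hx => by
    rw [mem_sdiff] at hx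
    simp only [hY, mem_compl, mem_filter, mem_univ, true_and]; rw [hπ'' x hx.1]; exact hx.2
  have a3 := poincare Y
  have a4 : Y.card + Yᶜ.card = 2 ^ Fintype.card ι := by rw [card_add_card_compl, card_W]
  have a5 : min Y.card Yᶜ.card ≤ 2 * (bd Y).card := by
    have hpos : 0 < 2 ^ Fintype.card ι := by positivity
    apply Nat.le_of_mul_le_mul_left _ hpos
    rcases le_total Y.card Yᶜ.card with h | h
    · rw [min_eq_left h]; nlinarith
    · rw [min_eq_right h]; nlinarith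
  have a6 : bd Y ⊆ (bdIn Γ X).biUnion (fun p => ball p.1 9 ×ˢ univ) := by
    intro q hq
    simp only [bd, hY, mem_filter, mem_univ, true_and] at hq
    obtain ⟨p, hp, hp'⟩ := hc _ hq.1 _ (mem_sdiff.2 ⟨hπ _, hq.2⟩)
      (mem_ball_trans (r := 3) (s := 2)
        (mem_ball_trans (r := 2) (s := 1) (mem_ball_symm (hπ' q.1)) (add_e_mem_ball _ _))
        (hπ' _))
    refine mem_biUnion.2 ⟨p, hp, mem_product.2 ⟨?_, mem_univ _⟩⟩
    exact mem_ball_symm (mem_ball_trans (r := 2) (s := 7) (hπ' q.1) hp')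
  have a7 := (card_le_card a6).trans (card_biUnion_le_card_mul _ _
    ((Fintype.card ι + 1) ^ 9 * Fintype.card ι) (fun p _ => by
      rw [card_product, card_univ]
      exact Nat.mul_le_mul_right _ (card_ball _ _)))
  have a8 : min X.card (Γ \ X).card ≤ min Y.card Yᶜ.card := min_le_min a1 a2
  nlinarith

/-- a connecting structure forces a boundary edge nearby -/
lemma connect (Γ X : Finset (W ι)) {a a' : W ι} (ha : a ∈ X) (ha' : a' ∈ Γ \ X)
    (hT : (supp (a + a')).card ≤ 5) {i j : ι} (h1 : a + e i ∈ Γ) (h2 : a' + e j ∈ Γ)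
    (h3 : ∀ S ⊆ supp (a + a'), a + e i + e j + vec S ∈ Γ) :
    ∃ p ∈ bdIn Γ X, p.1 ∈ ball a 7 := by
  have mk : ∀ (p : W ι) (k : ι), p ∈ X → p + e k ∈ Γ → p + e k ∉ X → (p, k) ∈ bdIn Γ X := by
    intro p k b1 b2 b3; simp [bdIn, b1, b2, b3]
  have bl : ∀ S ⊆ supp (a + a'), a + e i + e j + vec S ∈ ball a 7 := by
    intro S hS
    refine mem_ball_trans (r := 2) (s := 5)
      (mem_ball_trans (r := 1) (s := 1) (add_e_mem_ball _ _) (add_e_mem_ball _ _))
      (add_mem_ball _ ?_)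
    rw [supp_vec]; exact (card_le_card hS).trans hT
  rw [mem_sdiff] at ha'
  have e1 : a + e i + e j + vec (supp (a + a')) = a' + e j + e i := by
    rw [vec_supp]
    have : a + e i + e j + (a + a') = (a + a) + (a' + e j + e i) := by abel
    rw [this]; simp
  by_cases c1 : a + e i ∈ X
  swap
  · exact ⟨(a, i), mk _ _ ha h1 c1, mem_ball_self _ _⟩
  by_cases c2 : a + e i + e j ∈ X
  swap
  · exact ⟨(a + e i, j), mk _ _ c1 (by simpa using h3 ∅ (empty_subset _)) c2,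
      mem_ball_mono (add_e_mem_ball _ _) (by norm_num)⟩
  by_cases c3 : a + e i + e j + vec (supp (a + a')) ∈ X
  swap
  · obtain ⟨S, hS, k, hk, hkS, b1, b2⟩ := cross X _ c2 _ c3
    refine ⟨(_, k), mk _ _ b1 ?_ b2, bl S hS⟩
    rw [add_assoc, ← vec_insert hkS]
    exact h3 _ (insert_subset hk hS)
  by_cases c4 : a' + e j ∈ X
  swap
  · refine ⟨(_, i), mk _ _ c3 ?_ ?_, bl _ subset_rfl⟩
    · rwa [e1, add_add_cancel]
    · rwa [e1, add_add_cancel]
  · refine ⟨(_, j), mk _ _ c4 (by simpa using ha'.1) (by simpa using ha'.2), ?_⟩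
    exact mem_ball_mono (mem_ball_trans (r := 5) (s := 1) (mem_ball.2 hT) (add_e_mem_ball _ _))
      (by norm_num)

end Pool.Agent.P.MP_38a0b7_co
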