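import Pool.Agent.P.MP_38a0b7_co.Prob

/-! Comparison of the uniform measure with the measure conditioned on a cardinality. -/

set_option linter.unusedSectionVars false

namespace Pool.Agent.P.MP_38a0b7_co

open Finset

variable {U : Type*} [Fintype U] [DecidableEq U]

/-- probability of the middle layer -/
noncomputable def mid (k : ℕ) : ℝ := (k.choose (k / 2) : ℝ) / 2 ^ k

lemma mid_pos (k : ℕ) : 0 < mid k := by
  unfold mid
  have := Nat.choose_pos (Nat.div_le_self k 2)
  positivity

lemma choose_step (k : ℕ) :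
    2 * ((k + 1) * k.choose (k / 2)) ≤ (k + 2) * (k + 1).choose ((k + 1) / 2) := by
  have h := Nat.add_one_mul_choose_eq k (k / 2)
  rcases Nat.even_or_odd' k with ⟨j, rfl | rfl⟩
  · have e1 : 2 * j / 2 = j := by omega
    have e2 : (2 * j + 1) / 2 = j := by omega
    rw [e1] at h
    rw [e1, e2, h, Nat.choose_symm_half]
    apply le_of_eq; ring
  · have e1 : (2 * j + 1) / 2 = j := by omega
    have e2 : (2 * j + 1 + 1) / 2 = j + 1 := by omega
    rw [e1] at h
    rw [e1, e2, h]
    nlinarith [Nat.zero_le ((2 * j + 1 + 1).choose (j + 1))]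

lemma mid_step (k : ℕ) : ((k : ℝ) + 1) * mid k ≤ ((k + 1 : ℕ) + 1) * mid (k + 1) := by
  have h : (2 : ℝ) * ((k + 1) * k.choose (k / 2)) ≤ (k + 2) * (k + 1).choose ((k + 1) / 2) := by
    exact_mod_cast choose_step k
  unfold mid
  rw [← mul_div_assoc, ← mul_div_assoc, div_le_div_iff₀ (by positivity) (by positivity), pow_succ]
  push_cast
  have : (0 : ℝ) < 2 ^ k := by positivity
  nlinarith

lemma mid_mono {k N : ℕ} (h : k ≤ N) : ((k : ℝ) + 1) * mid k ≤ (N + 1) * mid N :=
  monotone_nat_of_le_succ (f := fun k : ℕ => ((k : ℝ) + 1) * mid k) mid_step h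

lemma one_le_mid (N : ℕ) : 1 ≤ ((N : ℝ) + 1) * mid N := by
  have := mid_mono (Nat.zero_le N)
  simpa [mid] using this

lemma avg_card_eq (Q : Finset U) (k : ℕ) :
    avg (fun Ω : Finset U => ind ((Q.filter (· ∈ Ω)).card = k)) ≤ mid Q.card := by
  have h1 : ∀ Ω : Finset U, ind ((Q.filter (· ∈ Ω)).card = k) ≤
      ∑ T ∈ powersetCard k Q, ind (∀ w ∈ Q, (w ∈ Ω ↔ w ∈ T)) := by
    intro Ω
    refine (ind_mono fun h => ?_).trans (ind_exists _ _)
    refine ⟨Q.filter (· ∈ Ω), mem_powersetCard.2 ⟨filter_subset _ _, h⟩, fun w hw => ?_⟩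
    simp [hw]
  refine (avg_mono h1).trans ?_
  rw [avg_sum]
  simp only [avg_pattern]
  rw [sum_const, card_powersetCard, nsmul_eq_mul, mid, one_div, inv_pow, ← div_eq_mul_inv]
  gcongr
  exact Nat.choose_le_middle _ _

lemma transfer_one (P R : Finset U) (h : ℕ) {F : Finset U → ℝ} (hF0 : ∀ Ω, 0 ≤ F Ω)
    (hF : Dep F R) (hR : 2 * (P ∩ R).card ≤ P.card) :
    avg (fun Ω => F Ω * ind ((P.filter (· ∈ Ω)).card = h)) ≤ avg F * (2 * mid P.card) := by
  apply avg_mul_le (P \ R) hF0 (hF.mix_left disjoint_sdiff)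
  intro Ω₁
  have h1 : ∀ Ω₂ : Finset U, ind ((P.filter (· ∈ mix (P \ R) Ω₁ Ω₂)).card = h) ≤
      ind (((P \ R).filter (· ∈ Ω₂)).card = h - ((P ∩ R).filter (· ∈ Ω₁)).card) := by
    intro Ω₂
    apply ind_mono
    intro hh
    have : P.filter (· ∈ mix (P \ R) Ω₁ Ω₂)
        = (P \ R).filter (· ∈ Ω₂) ∪ (P ∩ R).filter (· ∈ Ω₁) := by
      ext w
      by_cases hw : w ∈ R <;> by_cases hp : w ∈ P <;> simp [mem_mix, hw, hp]
    rw [this, card_union_of_disjoint] at hh
    · omega
    · exact disjoint_filter_filter (disjoint_sdiff_inter P R)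
  refine (avg_mono h1).trans ((avg_card_eq _ _).trans ?_)
  have h2 : (P \ R).card + (P ∩ R).card = P.card := card_sdiff_add_card_inter P R
  have h3 := mid_mono (k := (P \ R).card) (N := P.card) (by omega)
  have h4 : (P.card : ℝ) + 1 ≤ 2 * (((P \ R).card : ℝ) + 1) := by
    have : P.card + 1 ≤ 2 * ((P \ R).card + 1) := by omega
    exact_mod_cast this
  have h5 := mid_pos P.card
  have h6 : (0 : ℝ) < ((P \ R).card : ℝ) + 1 := by positivity
  apply le_of_mul_le_mul_left _ h6
  nlinarith

/-- number of subsets of bounded size -/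
lemma card_small_subsets {α : Type*} [DecidableEq α] (s : Finset α) (K : ℕ) :
    (s.powerset.filter (fun T => T.card ≤ K)).card ≤ (s.card + 1) ^ K := by
  induction K with
  | zero =>
    have : s.powerset.filter (fun T => T.card ≤ 0) = {∅} := by
      ext T; simp only [mem_filter, mem_powerset, Nat.le_zero, card_eq_zero, mem_singleton]
      constructor
      · exact fun h => h.2
      · rintro rfl; simp
    rw [this]; simp
  | succ K ih =>
    have : s.powerset.filter (fun T => T.card ≤ K + 1) ⊆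
        s.powerset.filter (fun T => T.card ≤ K) ∪
          s.biUnion (fun a => (s.powerset.filter (fun T => T.card ≤ K)).image (insert a)) := by
      intro T hT
      rw [mem_filter, mem_powerset] at hT
      rcases T.eq_empty_or_nonempty with rfl | ⟨a, ha⟩
      · simp
      · refine mem_union_right _ (mem_biUnion.2 ⟨a, hT.1 ha, mem_image.2 ⟨T.erase a, ?_, ?_⟩⟩)
        · rw [mem_filter, mem_powerset, card_erase_of_mem ha]
          exact ⟨(erase_subset _ _).trans hT.1, by omega⟩
        · exact insert_erase ha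
    refine (card_le_card this).trans ((card_union_le _ _).trans ?_)
    have h2 := card_biUnion_le_card_mul s
      (fun a => (s.powerset.filter (fun T => T.card ≤ K)).image (insert a)) ((s.card + 1) ^ K)
      (fun a _ => card_image_le.trans ih)
    rw [pow_succ]
    nlinarith

end Pool.Agent.P.MP_38a0b7_co
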