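import Pool.Agent.P.MP_38a0b7_co.Half
import Pool.Agent.P.MP_38a0b7_co.Bridge

/-! The upper bound: with high probability there is a 3-bi-Lipschitz bijection. -/

set_option linter.unusedSectionVars false
set_option exponentiation.threshold 400

namespace Pool.Agent.P.MP_38a0b7_co

open Finset Filter Topology

/-- the pair as a subset of the next cube -/
def om {n : ℕ} (P : Finset (W (Fin n)) × Finset (W (Fin n))) : Finset (W (Option (Fin n))) :=
  univ.filter (fun w => if par w = 0 then prj w ∈ P.1 else prj w ∈ P.2)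

lemma mem_om_even {n : ℕ} {P : Finset (W (Fin n)) × Finset (W (Fin n))} {w : W (Option (Fin n))}
    (h : par w = 0) : w ∈ om P ↔ prj w ∈ P.1 := by simp [om, h]

lemma mem_om_odd {n : ℕ} {P : Finset (W (Fin n)) × Finset (W (Fin n))} {w : W (Option (Fin n))}
    (h : par w = 1) : w ∈ om P ↔ prj w ∈ P.2 := by simp [om, h]

lemma om_injective {n : ℕ} : Function.Injective (om (n := n)) := by
  intro P Q h
  refine Prod.ext ?_ ?_
  · ext x
    rw [← prj_emb 0 x, ← mem_om_even (par_emb _ _), ← mem_om_even (par_emb _ _), h]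
  · ext x
    rw [← prj_emb 1 x, ← mem_om_odd (par_emb _ _), ← mem_om_odd (par_emb _ _), h]

lemma half_om {n : ℕ} {P : Finset (W (Fin n)) × Finset (W (Fin n))} (h : P ∈ hs n ×ˢ hs n) :
    Half n (om P) := by
  rw [mem_product, mem_hs, mem_hs] at h
  have key : ∀ (b : ZMod 2) (A : Finset (W (Fin n))),
      (∀ w, par w = b → (w ∈ om P ↔ prj w ∈ A)) →
      ((side (Option (Fin n)) b).filter (· ∈ om P)).card = A.card := by
    intro b A hA
    apply card_bij (fun w _ => prj w)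
    · intro w hw
      rw [mem_filter, mem_side] at hw
      exact (hA w hw.1).1 hw.2
    · intro v hv w hw h
      rw [mem_filter, mem_side] at hv hw
      exact eq_of_prj h (hv.1.trans hw.1.symm)
    · intro x hx
      exact ⟨emb b x, mem_filter.2 ⟨mem_side.2 (par_emb _ _),
        (hA _ (par_emb _ _)).2 (by simpa using hx)⟩, rfl⟩
  intro b
  rcases z2_cases b with rfl | rfl
  · rw [key 0 P.1 fun w => mem_om_even, h.1]
  · rw [key 1 P.2 fun w => mem_om_odd, h.2]

lemma lip_of_close {n : ℕ} {C : ℝ} (hC : 3 ≤ C) (f : W (Fin n) → W (Fin n)) (v : W (Fin n))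
    (h : ∀ x, (supp (f x + (x + v))).card ≤ 1) (x y : W (Fin n)) :
    (hammingDist (f x) (f y) : ℝ) ≤ C * hammingDist x y := by
  by_cases hxy : x = y
  · simp [hxy]
  have h1 : 1 ≤ hammingDist x y := hammingDist_pos.2 hxy
  have h2 : hammingDist (f x) (f y) ≤ hammingDist x y + 2 := by
    rw [hammingDist_eq, hammingDist_eq]
    have e1 : f x + f y = (f x + (x + v)) + (f y + (y + v)) + (x + y) := by
      have : (f x + (x + v)) + (f y + (y + v)) + (x + y)
          = f x + f y + ((x + x) + (y + y) + (v + v)) := by abel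
      rw [this]; simp
    rw [e1]
    have a1 := card_supp_add ((f x + (x + v)) + (f y + (y + v))) (x + y)
    have a2 := card_supp_add (f x + (x + v)) (f y + (y + v))
    have := h x
    have := h y
    omega
  have h3 : (1 : ℝ) ≤ hammingDist x y := by exact_mod_cast h1
  have h4 : (hammingDist (f x) (f y) : ℝ) ≤ hammingDist x y + 2 := by exact_mod_cast h2
  nlinarith

lemma exists_biLip {n : ℕ} {C : ℝ} (hC : 3 ≤ C) {P : Finset (W (Fin n)) × Finset (W (Fin n))}
    (h : Succ (om P)) :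
    ∃ φ : W (Fin n) ≃ W (Fin n), BiLip C φ ∧ φ '' (P.1 : Set _) = (P.2 : Set _) := by
  obtain ⟨v, hv, h1, h2⟩ := h
  obtain ⟨μ, a, b1, b2⟩ := Mat.glue disjoint_compl_right h1 h2
  rw [union_compl] at a
  have ev : ∀ x, par (emb 0 x + v) = 0 := fun x => by rw [par_add, par_emb, hv, add_zero]
  have adj : ∀ x, ∃ i, μ (emb 0 x + v) = emb 0 x + v + e i := by
    intro x
    by_cases hx : emb 0 x + v ∈ shf v (om P)
    · exact (b1 _ hx (ev x)).2
    · exact (b2 _ (mem_compl.2 hx) (ev x)).2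
  have od : ∀ x, par (μ (emb 0 x + v)) = 1 := by
    intro x
    obtain ⟨i, hi⟩ := adj x
    rw [hi, par_add_e, ev, zero_add]
  let f : W (Fin n) → W (Fin n) := fun x => prj (μ (emb 0 x + v))
  have finj : Function.Injective f := by
    intro x y hxy
    have h3 := a (by simp [ev]) (by simp [ev]) (eq_of_prj hxy ((od x).trans (od y).symm))
    simpa using congrArg prj (add_right_cancel h3)
  have close : ∀ x, (supp (f x + (x + prj v))).card ≤ 1 := by
    intro x
    obtain ⟨i, hi⟩ := adj x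
    simp only [f, hi, prj_add, prj_emb]
    rw [add_right_comm, add_self', zero_add]
    exact (card_supp_prj _).trans (by simp)
  have col : ∀ x, x ∈ P.1 ↔ f x ∈ P.2 := by
    intro x
    have c1 : emb 0 x + v ∈ shf v (om P) ↔ x ∈ P.1 := by
      rw [mem_shf, tau, if_pos (ev x), add_add_cancel, mem_om_even (par_emb _ _), prj_emb]
    have c2 : μ (emb 0 x + v) ∈ shf v (om P) ↔ f x ∈ P.2 := by
      rw [mem_shf, tau, if_neg (by rw [od]; exact one_ne_zero), mem_om_odd (od x)]
    rw [← c1, ← c2]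
    constructor
    · exact fun hx => (b1 _ hx (ev x)).1
    · intro hx
      by_contra hn
      exact mem_compl.1 (b2 _ (mem_compl.2 hn) (ev x)).1 hx
  let φ : W (Fin n) ≃ W (Fin n) := Equiv.ofBijective f (Finite.injective_iff_bijective.1 finj)
  refine ⟨φ, ⟨lip_of_close hC φ (prj v) close, lip_of_close hC φ.symm (prj v) fun y => ?_⟩, ?_⟩
  · have := close (φ.symm y)
    have e1 : f (φ.symm y) = y := φ.apply_symm_apply y
    rw [e1] at this
    rwa [add_left_comm]
  · ext y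
    constructor
    · rintro ⟨x, hx, rfl⟩; exact (col x).1 hx
    · intro hy
      refine ⟨φ.symm y, (col _).2 ?_, φ.apply_symm_apply y⟩
      have e1 : f (φ.symm y) = y := φ.apply_symm_apply y
      rwa [e1]

lemma prob_le_one (n : ℕ) (C : ℝ) : prob n C ≤ 1 := by
  classical
  rw [prob_eq, div_le_one (by have := hs_pos n; positivity), pow_two]
  exact_mod_cast (card_filter_le _ _).trans (card_product _ _).le

lemma one_sub_prob_le {n : ℕ} (hn : 1 ≤ n) {C B : ℝ} (hC : 3 ≤ C)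
    (h : hv n (fun Ω : Finset (W (Option (Fin n))) => ind (¬ Succ Ω))
      ≤ B * (4 * mid (2 ^ n) ^ 2)) : 1 - 4 * B ≤ prob n C := by
  classical
  have hp : (0 : ℝ) < (hs n).card ^ 2 := by have := hs_pos n; positivity
  rw [prob_eq, le_div_iff₀ hp]
  set q := fun P : Finset (W (Fin n)) × Finset (W (Fin n)) => ∃ φ : W (Fin n) ≃ W (Fin n),
      BiLip C φ ∧ φ '' (P.1 : Set _) = (P.2 : Set _) with hq
  have h1 := card_filter_add_card_filter_not (s := hs n ×ˢ hs n) q
  have h2 : ((hs n ×ˢ hs n).filter (fun P => ¬ q P)).card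
      ≤ (univ.filter (fun Ω : Finset (W (Option (Fin n))) => ¬ Succ Ω ∧ Half n Ω)).card := by
    apply card_le_card_of_injOn om
    · intro P hP
      simp only [coe_filter, Set.mem_ofPred_eq, mem_univ, true_and] at hP ⊢
      exact ⟨fun hs => hP.2 (exists_biLip hC hs), half_om hP.1⟩
    · exact om_injective.injOn
  unfold hv avg at h
  simp only [← ind_and] at h
  rw [sum_ind, div_le_iff₀ (by positivity), card_W, Fintype.card_option, Fintype.card_fin] at h
  rw [card_product] at h1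
  have h3 : (((hs n ×ˢ hs n).filter q).card : ℝ) + ((hs n ×ˢ hs n).filter (fun P => ¬ q P)).card
      = (hs n).card ^ 2 := by rw [pow_two]; exact_mod_cast h1
  have h4 : (((hs n ×ˢ hs n).filter (fun P => ¬ q P)).card : ℝ) ≤ 4 * B * (hs n).card ^ 2 := by
    refine le_trans (by exact_mod_cast h2) (h.trans (le_of_eq ?_))
    rw [card_hs_mid hn, pow_succ 2 n, pow_mul]
    ring
  linarith

lemma beta_tendsto : Tendsto (fun n : ℕ =>
    (n : ℝ) ^ 3 * beta (n + 1) ((n + 1) / 28) (2 ^ 194 - 1)) atTop (𝓝 0) := by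
  have hK : 2 ^ 194 - 1 + 1 = 2 ^ 194 := by norm_num
  generalize 2 ^ 194 - 1 = K at *
  have hK' : (K : ℝ) + 1 = 2 ^ 194 := by exact_mod_cast hK
  have t1 : 2 * Real.exp (-1) < 1 := by
    rw [Real.exp_neg, ← div_eq_mul_inv, div_lt_one (Real.exp_pos _)]
    linarith [Real.exp_one_gt_d9]
  have t2 : Real.exp (-(1 / 2 ^ 194)) < 1 := Real.exp_lt_one_iff.2 (by norm_num)
  have t3 : 16 * Real.exp (-4) < 1 := by
    have : Real.exp (-4) = Real.exp (-1) ^ 4 := by rw [← Real.exp_nat_mul]; norm_num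
    calc 16 * Real.exp (-4) = (2 * Real.exp (-1)) ^ 4 := by rw [this]; ring
      _ < 1 := pow_lt_one₀ (by positivity) t1 (by norm_num)
  have lim := (((tend_poly (56 ^ (K + 1)) (3 + 28 * (K + 1)) (by positivity) t1).add
    (tend_poly 168 (5 + 2 * K) (by positivity) t2)).add
    (tend_poly 56 3 (by positivity) t1)).add (tend_poly 1 3 (by positivity) t3)
  simp only [add_zero] at lim
  refine squeeze_zero' (Eventually.of_forall fun n => ?_) ?_ lim
  · unfold beta; have := qb_pos ((n + 1) / 28); positivity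
  filter_upwards [eventually_ge_atTop 54] with n hn
  have hd : ((n : ℝ) + 1) ≤ 56 * (((n + 1) / 28 : ℕ) : ℝ) := by
    have : n + 1 ≤ 56 * ((n + 1) / 28) := by omega
    exact_mod_cast this
  unfold beta qb
  generalize (n + 1) / 28 = d at *
  have n0 : (0 : ℝ) ≤ n := by positivity
  have n2 : (n : ℝ) ≤ n + 2 := by linarith
  have ex : ∀ a : ℝ, Real.exp (a * n) = Real.exp a ^ n := fun a => by
    rw [← Real.exp_nat_mul, mul_comm]
  have e2 : (2 : ℝ) ^ (n + 1) * Real.exp (-((n : ℝ) + 1)) ≤ (2 * Real.exp (-1)) ^ n := by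
    have : (2 : ℝ) ^ (n + 1) * Real.exp (-((n : ℝ) + 1)) = (2 * Real.exp (-1)) ^ (n + 1) := by
      rw [mul_pow, ← Real.exp_nat_mul]; congr 2; push_cast; ring
    rw [this]
    exact pow_le_pow_of_le_one (by positivity) t1.le (by omega)
  push_cast
  rw [show (n : ℝ) + 1 + 1 = n + 2 by ring]
  simp only [mul_add ((n : ℝ) ^ 3)]
  refine add_le_add (add_le_add (add_le_add ?_ ?_) ?_) ?_
  · have : Real.exp (-((d : ℝ) / 2 ^ 188)) ^ (K + 1) ≤ Real.exp (-((n : ℝ) + 1)) := by
      rw [← Real.exp_nat_mul]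
      apply Real.exp_le_exp.2
      push_cast; rw [hK']; linarith
    calc (n : ℝ) ^ 3 * (2 ^ (n + 1) * (((n : ℝ) + 2) ^ 28) ^ (K + 1) *
          (56 * Real.exp (-((d : ℝ) / 2 ^ 188))) ^ (K + 1))
        = 56 ^ (K + 1) * ((n : ℝ) ^ 3 * ((n : ℝ) + 2) ^ (28 * (K + 1))) *
          (2 ^ (n + 1) * Real.exp (-((d : ℝ) / 2 ^ 188)) ^ (K + 1)) := by
          rw [mul_pow, ← pow_mul]; ring
      _ ≤ 56 ^ (K + 1) * (((n : ℝ) + 2) ^ 3 * ((n : ℝ) + 2) ^ (28 * (K + 1))) *
          (2 * Real.exp (-1)) ^ n := by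
          gcongr
          exact le_trans (by gcongr) e2
      _ = _ := by rw [pow_add _ 3]
  · have : Real.exp (-((d : ℝ) / 2 ^ 188)) ≤ Real.exp (-(1 / 2 ^ 194)) ^ n := by
      rw [← ex]
      apply Real.exp_le_exp.2
      linarith
    calc (n : ℝ) ^ 3 * (2 ^ (n + 1) * ((n : ℝ) + 2) ^ 2 * (3 * ((n : ℝ) + 1) ^ (2 * K) /
          2 ^ (n + 1) * (56 * Real.exp (-((d : ℝ) / 2 ^ 188)))))
        = 168 * ((n : ℝ) ^ 3 * ((n : ℝ) + 2) ^ 2 * ((n : ℝ) + 1) ^ (2 * K)) *
          Real.exp (-((d : ℝ) / 2 ^ 188)) := by field_simp; ring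
      _ ≤ 168 * (((n : ℝ) + 2) ^ 3 * ((n : ℝ) + 2) ^ 2 * ((n : ℝ) + 2) ^ (2 * K)) *
          Real.exp (-(1 / 2 ^ 194)) ^ n := by gcongr; norm_num
      _ = _ := by rw [← pow_add, ← pow_add]
  · calc (n : ℝ) ^ 3 * (28 * 2 ^ (n + 1) * (2 * Real.exp (-((n : ℝ) + 1))))
        = 56 * (n : ℝ) ^ 3 * (2 ^ (n + 1) * Real.exp (-((n : ℝ) + 1))) := by ring
      _ ≤ _ := by gcongr
  · have : (16 : ℝ) ^ (n + 1) * Real.exp (-(4 * ((n : ℝ) + 1))) = (16 * Real.exp (-4)) ^ (n + 1) := by
      rw [mul_pow, ← Real.exp_nat_mul]; congr 2; push_cast; ring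
    rw [this, one_mul]
    gcongr ?_ * ?_
    · gcongr
    · exact pow_le_pow_of_le_one (by positivity) t3.le (by omega)

lemma gamma_tendsto (L : ℕ) : Tendsto (fun n : ℕ =>
    (((2 : ℝ) ^ (n + 1) + 1) ^ L) ^ 2 * (1 - (1 / 2) ^ L) ^ (n ^ 2)) atTop (𝓝 0) := by
  have lim := tendsto_pow_atTop_nhds_zero_of_lt_one (Real.exp_pos (-1)).le
    (Real.exp_lt_one_iff.2 (by norm_num))
  have h0 : (0 : ℝ) ≤ 1 - (1 / 2) ^ L := by
    have : (1 / 2 : ℝ) ^ L ≤ 1 := pow_le_one₀ (by norm_num) (by norm_num)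
    linarith
  refine squeeze_zero' (Eventually.of_forall fun n => by positivity) ?_ lim
  filter_upwards [eventually_ge_atTop (2 ^ L * (6 * L + 1))] with n hn
  have hn' : (2 : ℝ) ^ L * (6 * L + 1) ≤ n := by exact_mod_cast hn
  have hn1 : (1 : ℝ) ≤ n := by
    have : 1 ≤ n := le_trans (Nat.succ_le_of_lt (by positivity)) hn
    exact_mod_cast this
  have a1 : (2 : ℝ) ^ (n + 1) + 1 ≤ Real.exp (n + 2) := by
    calc (2 : ℝ) ^ (n + 1) + 1 ≤ 2 ^ (n + 2) := by
          have : (1 : ℝ) ≤ 2 ^ (n + 1) := one_le_pow₀ (by norm_num)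
          rw [pow_succ _ (n + 1)]; linarith
      _ ≤ Real.exp 1 ^ (n + 2) := by gcongr; linarith [Real.exp_one_gt_d9]
      _ = _ := by rw [← Real.exp_nat_mul]; push_cast; ring_nf
  have a2 : 1 - (1 / 2 : ℝ) ^ L ≤ Real.exp (-(1 / 2) ^ L) := by
    linarith [Real.add_one_le_exp (-(1 / 2 : ℝ) ^ L)]
  calc _ ≤ (Real.exp (n + 2) ^ L) ^ 2 * Real.exp (-(1 / 2) ^ L) ^ (n ^ 2) := by gcongr
    _ ≤ _ := by
      simp only [← Real.exp_nat_mul, ← Real.exp_add]
      apply Real.exp_le_exp.2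
      push_cast
      have b1 : (6 * (L : ℝ) + 1) ≤ n * (1 / 2) ^ L := by
        rw [one_div, inv_pow, ← div_eq_mul_inv, le_div_iff₀ (by positivity)]; linarith
      have b2 : (0 : ℝ) ≤ L := by positivity
      nlinarith [mul_le_mul_of_nonneg_left b1 (show (0 : ℝ) ≤ n by positivity),
        mul_le_mul_of_nonneg_left hn1 b2]

theorem upper {C : ℝ} (hC : 3 ≤ C) : Tendsto (fun n => prob n C) atTop (𝓝 1) := by
  rw [tendsto_order]
  refine ⟨fun a ha => ?_, fun a ha => Eventually.of_forall fun n => (prob_le_one n C).trans_lt ha⟩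
  obtain ⟨L, hL⟩ := exists_nat_gt (16 / (1 - a))
  have ha' : 0 < 1 - a := by linarith
  have hL0 : (0 : ℝ) < L := lt_trans (by positivity) hL
  have hL1 : 1 ≤ L := by exact_mod_cast hL0
  have lim := (gamma_tendsto L).add (beta_tendsto.const_mul 2)
  simp only [mul_zero, add_zero] at lim
  have ev1 := lim.eventually (gt_mem_nhds (show (0 : ℝ) < (1 - a) / 8 by positivity))
  have ev2 := (tend_poly 64 4 (θ := 1 / 2) (by norm_num) (by norm_num)).eventually
    (gt_mem_nhds (show (0 : ℝ) < 1 by norm_num))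
  filter_upwards [ev1, ev2, eventually_ge_atTop (L ^ 2), eventually_ge_atTop (28 * 2 ^ 289)]
    with n h1 h2 h3 h4
  obtain ⟨cls, hcls⟩ := exists_classes (Option (Fin n)) (ZMod 28)
  simp only [Fintype.card_option, Fintype.card_fin, ZMod.card] at hcls
  have hd : 2 ^ 289 ≤ (n + 1) / 28 := by omega
  have key := hv_not_succ (ι := Option (Fin n)) (n := n) (by simp) (cls := cls)
    (d := (n + 1) / 28) (K := 2 ^ 194 - 1) (L := L) (le_trans (by norm_num) hd) hd
    (fun j => (hcls j).1) (fun j => (hcls j).2.trans (by omega)) (by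
      rw [one_div, inv_pow, ← div_eq_mul_inv, div_lt_one (by positivity)] at h2
      have : 64 * (n + 2) ^ 4 < 2 ^ n := by exact_mod_cast h2
      have : (n + 1) ^ 4 ≤ (n + 2) ^ 4 := by gcongr; omega
      omega) hL1 h3
  have h5 := one_sub_prob_le (by omega) hC key
  have h6 : 2 / (L : ℝ) < (1 - a) / 8 := by
    rw [div_lt_iff₀ ha'] at hL
    rw [div_lt_div_iff₀ hL0 (by norm_num)]; linarith
  rw [mul_assoc] at h5
  linarith

end Pool.Agent.P.MP_38a0b7_co
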